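import Pool.Agent.LibGS68.Defs
/-!
Row A1 (EASY). Elementary facts on `Ind2`, `Ind3` and blocks.
-/
open Module Submodule
namespace Pool.Agent.LibGS68
variable {F V : Type*} [Field F] [AddCommGroup V] [Module F V]

theorem ind2_iff {x y : V} : Ind2 F x y ↔ x ≠ 0 ∧ y ∉ span F {x} := by
  constructor
  · intro h
    refine ⟨?_, ?_⟩
    · rintro rfl
      exact one_ne_zero (h 1 0 (by simp)).1
    · intro hy
      obtain ⟨c, rfl⟩ := mem_span_singleton.1 hy
      exact one_ne_zero (h (-c) 1 (by simp)).2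
  · rintro ⟨hx, hy⟩ a b hab
    have hb : b = 0 := by
      by_contra hb
      apply hy
      rw [mem_span_singleton]
      refine ⟨-(b⁻¹ * a), ?_⟩
      have h1 : b • y = -(a • x) := by
        rw [eq_neg_iff_add_eq_zero, add_comm]; exact hab
      have h2 : y = b⁻¹ • (b • y) := by rw [smul_smul, inv_mul_cancel₀ hb, one_smul]
      rw [h2, h1]
      module
    subst hb
    refine ⟨?_, rfl⟩
    by_contra ha
    exact hx (by simpa [ha] using hab)

theorem ind3_iff {x y z : V} : Ind3 F x y z ↔ Ind2 F x y ∧ z ∉ span F {x, y} := by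
  constructor
  · intro h
    refine ⟨fun a b hab => ?_, ?_⟩
    · obtain ⟨h1, h2, -⟩ := h a b 0 (by simpa using hab)
      exact ⟨h1, h2⟩
    · intro hz
      obtain ⟨a, b, rfl⟩ := mem_span_pair.1 hz
      exact one_ne_zero (h (-a) (-b) 1 (by module)).2.2
  · rintro ⟨hxy, hz⟩ a b c h
    have hc : c = 0 := by
      by_contra hc
      apply hz
      rw [mem_span_pair]
      refine ⟨-(c⁻¹ * a), -(c⁻¹ * b), ?_⟩
      have h1 : c • z = -(a • x + b • y) := by
        rw [eq_neg_iff_add_eq_zero, add_comm]; exact h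
      have h2 : z = c⁻¹ • (c • z) := by rw [smul_smul, inv_mul_cancel₀ hc, one_smul]
      rw [h2, h1]
      module
    subst hc
    obtain ⟨ha, hb⟩ := hxy a b (by simpa using h)
    exact ⟨ha, hb, rfl⟩

theorem Ind2.symm {x y : V} (h : Ind2 F x y) : Ind2 F y x := fun a b hab =>
  (h b a (by rw [add_comm]; exact hab)).symm

theorem Ind3.swap12 {x y z : V} (h : Ind3 F x y z) : Ind3 F y x z := fun a b c habc => by
  obtain ⟨h1, h2, h3⟩ := h b a c (by rw [← habc]; abel)
  exact ⟨h2, h1, h3⟩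

theorem Ind3.swap23 {x y z : V} (h : Ind3 F x y z) : Ind3 F x z y := fun a b c habc => by
  obtain ⟨h1, h2, h3⟩ := h a c b (by rw [← habc]; abel)
  exact ⟨h1, h3, h2⟩

theorem Ind3.ind12 {x y z : V} (h : Ind3 F x y z) : Ind2 F x y := (ind3_iff.1 h).1
theorem Ind3.ind13 {x y z : V} (h : Ind3 F x y z) : Ind2 F x z := h.swap23.ind12
theorem Ind3.ind23 {x y z : V} (h : Ind3 F x y z) : Ind2 F y z := h.swap12.ind13

theorem Ind2.linearIndependent {x y : V} (h : Ind2 F x y) : LinearIndependent F ![x, y] :=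
  LinearIndependent.pair_iff.2 h

theorem Ind3.linearIndependent {x y z : V} (h : Ind3 F x y z) : LinearIndependent F ![x, y, z] := by
  rw [Fintype.linearIndependent_iff]
  intro g hg
  rw [Fin.sum_univ_three] at hg
  obtain ⟨h0, h1, h2⟩ := h (g 0) (g 1) (g 2) (by simpa using hg)
  intro i
  fin_cases i
  · exact h0
  · exact h1
  · exact h2

theorem finrank_span2 {x y : V} (h : Ind2 F x y) : finrank F (span F {x, y}) = 2 := by
  have := finrank_span_eq_card h.linearIndependent
  rw [Matrix.range_cons_cons_empty] at this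
  simpa using this

theorem finrank_span3 {x y z : V} (h : Ind3 F x y z) : finrank F (span F {x, y, z}) = 3 := by
  have := finrank_span_eq_card h.linearIndependent
  have e : Set.range ![x, y, z] = {x, y, z} := by
    ext v; simp [Fin.exists_fin_succ, eq_comm, or_comm, or_assoc, or_left_comm]
  rw [e] at this
  simpa using this

theorem exists_block {k : ℕ} {D : Set (Submodule F V)} (hD : IsSteiner 2 k D) {x y : V} (h : Ind2 F x y) :
    ∃ B ∈ D, x ∈ B ∧ y ∈ B := by
  obtain ⟨B, ⟨hB, hle⟩, -⟩ := hD.2 _ (finrank_span2 h)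
  exact ⟨B, hB, hle (subset_span (by simp)), hle (subset_span (by simp))⟩

theorem block_eq {k : ℕ} {D : Set (Submodule F V)} (hD : IsSteiner 2 k D) {x y : V} (h : Ind2 F x y)
    {B B' : Submodule F V} (hB : B ∈ D) (hB' : B' ∈ D) (hx : x ∈ B) (hy : y ∈ B) (hx' : x ∈ B') (hy' : y ∈ B') :
    B = B' := by
  refine (hD.2 _ (finrank_span2 h)).unique ⟨hB, span_le.2 ?_⟩ ⟨hB', span_le.2 ?_⟩
  · rintro v (rfl | rfl) <;> assumption
  · rintro v (rfl | rfl) <;> assumption

/-- two blocks through `x` that are different meet in `⟨x⟩` only -/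
theorem inter_block {k : ℕ} {D : Set (Submodule F V)} (hD : IsSteiner 2 k D) {x u : V} (hx0 : x ≠ 0)
    {B B' : Submodule F V} (hB : B ∈ D) (hB' : B' ∈ D) (hne : B ≠ B') (hx : x ∈ B) (hx' : x ∈ B') (hu : u ∈ B)
    (hu' : u ∈ B') : u ∈ span F {x} := by
  by_contra h
  exact hne (block_eq hD (ind2_iff.2 ⟨hx0, h⟩) hB hB' hx hu hx' hu')

end Pool.Agent.LibGS68
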