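import Pool.Agent.LibGS68.A1
/-!
Row A2 (MEDIUM). The maps in `Ker D x`.
-/
open Module Submodule
namespace Pool.Agent.LibGS68
variable {F V : Type*} [Field F] [AddCommGroup V] [Module F V]

theorem id_mem_ker {D : Set (Submodule F V)} {x : V} : (LinearMap.id : V →ₗ[F] V) ∈ Ker D x :=
  ⟨mem_span_singleton_self x, fun _ _ _ _ hv => hv⟩

theorem A2_span_smul {x : V} {c : F} (hc : c ≠ 0) : span F {c • x} = span F {x} :=
  span_singleton_smul_eq (IsUnit.mk0 c hc) x

theorem ker_smul {D : Set (Submodule F V)} {x : V} {c : F} (hc : c ≠ 0) : Ker D (c • x) = Ker D x := by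
  ext a
  change (a (c • x) ∈ span F {c • x} ∧ ∀ B ∈ D, c • x ∈ B → ∀ v ∈ B, a v ∈ B) ↔
    (a x ∈ span F {x} ∧ ∀ B ∈ D, x ∈ B → ∀ v ∈ B, a v ∈ B)
  rw [A2_span_smul hc, map_smul, Submodule.smul_mem_iff _ hc]
  simp only [Submodule.smul_mem_iff _ hc]

theorem scalarAt_smul {x : V} {c : F} (hc : c ≠ 0) {a : V →ₗ[F] V} : ScalarAt (c • x) a ↔ ScalarAt x a := by
  simp only [ScalarAt, A2_span_smul hc]

theorem p4 [FiniteDimensional F V] {k : ℕ} {D : Set (Submodule F V)} (hD : IsSteiner 2 k D) (hn : k < finrank F V)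
    {x y : V} (hxy : Ind2 F x y) {a : V →ₗ[F] V} (ha : a ∈ Ker D x) (hay : a y ∈ span F {x}) :
    ∀ v, a v ∈ span F {x} := by
  obtain ⟨B, hB, hxB, hyB⟩ := exists_block hD hxy
  have hx0 : x ≠ 0 := (ind2_iff.1 hxy).1
  have key : ∀ v, v ∉ B → a v ∈ span F {x} := by
    intro v hv
    have hspan : span F {x} ≤ B := by rw [span_singleton_le_iff_mem]; exact hxB
    have h1 : Ind2 F x (y + v) := ind2_iff.2 ⟨hx0, fun h => hv (by
      have := sub_mem (hspan h) hyB
      simpa using this)⟩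
    have h2 : Ind2 F x v := ind2_iff.2 ⟨hx0, fun h => hv (hspan h)⟩
    obtain ⟨C, hC, hxC, hyvC⟩ := exists_block hD h1
    obtain ⟨C', hC', hxC', hvC'⟩ := exists_block hD h2
    have h3 : a (y + v) ∈ C := ha.2 C hC hxC _ hyvC
    have h4 : a v ∈ C' := ha.2 C' hC' hxC' _ hvC'
    have h5 : a v ∈ C := by
      have h6 : a y ∈ C := (show span F {x} ≤ C by rw [span_singleton_le_iff_mem]; exact hxC) hay
      have := sub_mem h3 h6
      simpa using this
    by_contra hav
    have hCC : C = C' := block_eq hD (ind2_iff.2 ⟨hx0, hav⟩) hC hC' hxC h5 hxC' h4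
    subst hCC
    have hyC : y ∈ C := by
      have := sub_mem hyvC hvC'
      simpa using this
    have : C = B := block_eq hD hxy hC hB hxC hyC hxB hyB
    exact hv (this ▸ hvC')
  intro v
  by_cases hv : v ∈ B
  · obtain ⟨w, hw⟩ : ∃ w, w ∉ B := by
      by_contra h
      push Not at h
      have : B = ⊤ := eq_top_iff.2 fun w _ => h w
      have h2 := hD.1 B hB
      rw [this, finrank_top] at h2
      omega
    have h1 := key w hw
    have h2 := key (v + w) (fun h => hw (by
      have := sub_mem h hv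
      simpa using this))
    have := sub_mem h2 h1
    simpa using this
  · exact key v hv

theorem scalar_of [FiniteDimensional F V] {k : ℕ} {D : Set (Submodule F V)} (hD : IsSteiner 2 k D)
    (hn : k < finrank F V) {x y : V} (hxy : Ind2 F x y) {a : V →ₗ[F] V} (ha : a ∈ Ker D x)
    (hay : a y ∈ span F {x, y}) : ScalarAt x a := by
  obtain ⟨μ, c, h⟩ := mem_span_pair.1 hay
  refine ⟨c, fun v => ?_⟩
  have h1 : a - c • LinearMap.id ∈ Ker D x := sub_mem ha (Submodule.smul_mem _ _ id_mem_ker)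
  have h2 := p4 hD hn hxy h1 (by
    simp only [LinearMap.sub_apply, LinearMap.smul_apply, LinearMap.id_apply]
    rw [← h, mem_span_singleton]
    exact ⟨μ, by abel⟩) v
  simpa using h2

end Pool.Agent.LibGS68
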