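import Pool.Agent.LibGS68.A2
/-!
Row A3 (MEDIUM). Transport.
-/
open Module Submodule
namespace Pool.Agent.LibGS68
variable {F V : Type*} [Field F] [AddCommGroup V] [Module F V]

theorem transport {k : ℕ} {D : Set (Submodule F V)} (hD : IsSteiner 2 k D) {x z : V} (h : Ind2 F x z)
    {a : V →ₗ[F] V} (ha : a ∈ Ker D z) (hx : Alpha D x) : ∃ j ∈ Ker D x, j z + a x ∈ span F {x, z} := by
  obtain ⟨B, hB, hxB, hzB⟩ := exists_block hD h
  obtain ⟨j, hj, hjz⟩ := hx B hB hxB z hzB (ind2_iff.1 h).2 (-(a x)) (B.neg_mem (ha.2 B hB hzB x hxB))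
  refine ⟨j, hj, ?_⟩
  rw [sub_neg_eq_add] at hjz
  exact span_mono (by simp) hjz

theorem transport_unique [FiniteDimensional F V] {k : ℕ} {D : Set (Submodule F V)} (hD : IsSteiner 2 k D)
    (hn : k < finrank F V) {x z u : V} (h : Ind2 F x z) {j j' : V →ₗ[F] V} (hj : j ∈ Ker D x) (hj' : j' ∈ Ker D x)
    (h1 : j z + u ∈ span F {x, z}) (h2 : j' z + u ∈ span F {x, z}) : ScalarAt x (j - j') := by
  refine scalar_of hD hn h (sub_mem hj hj') ?_
  have := sub_mem h1 h2
  simpa using this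

theorem nonscalar_transport [FiniteDimensional F V] {k : ℕ} {D : Set (Submodule F V)} (hD : IsSteiner 2 k D)
    (hn : k < finrank F V) {x z : V} (h : Ind2 F x z) {a j : V →ₗ[F] V} (ha : a ∈ Ker D z)
    (h1 : j z + a x ∈ span F {x, z}) (hs : ScalarAt x j) : ScalarAt z a := by
  obtain ⟨c, hc⟩ := hs
  refine scalar_of hD hn h.symm ha ?_
  have h2 : j z - c • z ∈ span F {x, z} := span_mono (by simp) (hc z)
  have h3 : c • z ∈ span F {x, z} := Submodule.smul_mem _ _ (subset_span (by simp))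
  have h4 := sub_mem h1 (add_mem h2 h3)
  have e : j z + a x - (j z - c • z + c • z) = a x := by abel
  rw [e] at h4
  rw [Set.pair_comm]
  exact h4

theorem A3_exists_notMem [FiniteDimensional F V] {S T : Submodule F V} (h : finrank F T < finrank F S) :
    ∃ u ∈ S, u ∉ T := by
  by_contra hcon
  push Not at hcon
  exact absurd (Submodule.finrank_mono (fun u hu => hcon u hu : S ≤ T)) (by omega)

theorem exists_nonscalar [FiniteDimensional F V] {k : ℕ} {D : Set (Submodule F V)} (hD : IsSteiner 2 k D)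
    (hn : k < finrank F V) (hk : 3 ≤ k) {x : V} (hx : x ≠ 0) (hα : Alpha D x) : ∃ a ∈ Ker D x, ¬ ScalarAt x a := by
  obtain ⟨y, -, hy⟩ := A3_exists_notMem (S := (⊤ : Submodule F V)) (T := span F {x})
    (by rw [finrank_span_singleton hx, finrank_top]; omega)
  have hxy : Ind2 F x y := ind2_iff.2 ⟨hx, hy⟩
  obtain ⟨B, hB, hxB, hyB⟩ := exists_block hD hxy
  obtain ⟨u, huB, hu⟩ := A3_exists_notMem (S := B) (T := span F {x, y})
    (by rw [finrank_span2 hxy, hD.1 B hB]; omega)
  obtain ⟨a, ha, hau⟩ := hα B hB hxB y hyB hy u huB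
  refine ⟨a, ha, fun ⟨c, hc⟩ => hu ?_⟩
  have h1 : a y - u ∈ span F {x, y} := span_mono (by simp) hau
  have h2 : a y - c • y ∈ span F {x, y} := span_mono (by simp) (hc y)
  have h3 : c • y ∈ span F {x, y} := Submodule.smul_mem _ _ (subset_span (by simp))
  have h4 := sub_mem (add_mem h2 h3) h1
  have e : a y - c • y + c • y - (a y - u) = u := by abel
  rwa [e] at h4

theorem exists_nonscalar2 [FiniteDimensional F V] {k : ℕ} {D : Set (Submodule F V)} (hD : IsSteiner 2 k D)
    (hn : k < finrank F V) (hk : 4 ≤ k) {x : V} (hx : x ≠ 0) (hα : Alpha D x) :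
    ∃ a ∈ Ker D x, ∃ b ∈ Ker D x, ¬ ScalarAt x a ∧ ¬ ScalarAt x b ∧ ¬ ScalarAt x (a + b) := by
  obtain ⟨y, -, hy⟩ := A3_exists_notMem (S := (⊤ : Submodule F V)) (T := span F {x})
    (by rw [finrank_span_singleton hx, finrank_top]; omega)
  have hxy : Ind2 F x y := ind2_iff.2 ⟨hx, hy⟩
  obtain ⟨B, hB, hxB, hyB⟩ := exists_block hD hxy
  obtain ⟨u, huB, hu⟩ := A3_exists_notMem (S := B) (T := span F {x, y})
    (by rw [finrank_span2 hxy, hD.1 B hB]; omega)
  have hxyu : Ind3 F x y u := ind3_iff.2 ⟨hxy, hu⟩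
  obtain ⟨w, hwB, hw⟩ := A3_exists_notMem (S := B) (T := span F {x, y, u})
    (by rw [finrank_span3 hxyu, hD.1 B hB]; omega)
  obtain ⟨a, ha, hau⟩ := hα B hB hxB y hyB hy u huB
  obtain ⟨b, hb, hbw⟩ := hα B hB hxB y hyB hy w hwB
  refine ⟨a, ha, b, hb, fun ⟨c, hc⟩ => hu ?_, fun ⟨c, hc⟩ => hw ?_, fun ⟨c, hc⟩ => hw ?_⟩
  · have h1 : a y - u ∈ span F {x, y} := span_mono (by simp) hau
    have h2 : a y - c • y ∈ span F {x, y} := span_mono (by simp) (hc y)
    have h3 : c • y ∈ span F {x, y} := Submodule.smul_mem _ _ (subset_span (by simp))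
    have h4 := sub_mem (add_mem h2 h3) h1
    have e : a y - c • y + c • y - (a y - u) = u := by abel
    rwa [e] at h4
  · have h1 : b y - w ∈ span F {x, y, u} := span_mono (by simp) hbw
    have h2 : b y - c • y ∈ span F {x, y, u} := span_mono (by simp) (hc y)
    have h3 : c • y ∈ span F {x, y, u} := Submodule.smul_mem _ _ (subset_span (by simp))
    have h4 := sub_mem (add_mem h2 h3) h1
    have e : b y - c • y + c • y - (b y - w) = w := by abel
    rwa [e] at h4
  · have h0 : a y - u ∈ span F {x, y, u} := span_mono (by simp) hau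
    have h1 : b y - w ∈ span F {x, y, u} := span_mono (by simp) hbw
    have h2 : (a + b) y - c • y ∈ span F {x, y, u} := span_mono (by simp) (hc y)
    have h3 : c • y ∈ span F {x, y, u} := Submodule.smul_mem _ _ (subset_span (by simp))
    have h5 : u ∈ span F {x, y, u} := subset_span (by simp)
    have h4 := sub_mem (sub_mem (sub_mem (add_mem h2 h3) h1) h0) h5
    have e : (a + b) y - c • y + c • y - (b y - w) - (a y - u) - u = w := by
      simp only [LinearMap.add_apply]; abel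
    rwa [e] at h4

end Pool.Agent.LibGS68
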