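import Pool.Agent.LibGS68.KW
open Module Submodule
namespace Pool.Agent.LibGS68
variable {F V : Type*} [Field F] [AddCommGroup V] [Module F V]

theorem AL_ne {W : Submodule F V} {v : W} (hv : v ≠ 0) : (v : V) ≠ 0 := fun h => hv (Subtype.ext h)

/-- normal form of the bilinear map: subtract a linear functional -/
theorem AL_sub {D : Set (Submodule F V)} {W : Submodule F V} (f : W →ₗ[F] W →ₗ[F] V) (g : W → V →ₗ[F] V)
    (hg : ∀ v : W, v ≠ 0 → g v ∈ Ker D (v : V)) (hfg : ∀ v : W, v ≠ 0 → ∀ x : W, f v x - g v x ∈ span F {(v : V)})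
    (μ : W →ₗ[F] F) :
    ∃ (f' : W →ₗ[F] W →ₗ[F] V), (∀ v x, f' v x = f v x - μ v • (x : V)) ∧
      (∀ v : W, v ≠ 0 → g v + (-μ v) • LinearMap.id ∈ Ker D (v : V)) ∧
      (∀ v : W, v ≠ 0 → ∀ x : W, f' v x - (g v + (-μ v) • (LinearMap.id : V →ₗ[F] V)) x ∈ span F {(v : V)}) := by
  refine ⟨f - ((LinearMap.lsmul F (W →ₗ[F] V)).flip W.subtype).comp μ, fun v x => ?_, fun v hv => ?_, fun v hv x => ?_⟩
  · simp
  · exact add_mem (hg v hv) (Submodule.smul_mem _ _ id_mem_ker)
  · have := hfg v hv x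
    have e : (f - ((LinearMap.lsmul F (W →ₗ[F] V)).flip W.subtype).comp μ) v x -
        (g v + (-μ v) • (LinearMap.id : V →ₗ[F] V)) x = f v x - g v x := by
      simp only [LinearMap.sub_apply, LinearMap.add_apply, LinearMap.smul_apply, LinearMap.id_apply,
        LinearMap.comp_apply, LinearMap.lsmul_apply, LinearMap.flip_apply, Submodule.subtype_apply]
      module
    rw [e]; exact this

/-- The outcome: alternating, or `|F| = 2`, `k = 3` and `f v v = v`. -/
theorem altW [Finite F] [FiniteDimensional F V] {k : ℕ} {D : Set (Submodule F V)} (hk : 3 ≤ k)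
    (hD : IsSteiner 2 k D) (hn : k < finrank F V) {W : Submodule F V} (hα : ∀ x ∈ W, x ≠ 0 → Alpha D x)
    (hG : HasGood D W) (h4 : 4 ≤ finrank F W) :
    ∃ (f : W →ₗ[F] W →ₗ[F] V) (g : W → V →ₗ[F] V), (∀ v : W, v ≠ 0 → g v ∈ Ker D (v : V)) ∧
      (∀ v : W, v ≠ 0 → ∀ x : W, f v x - g v x ∈ span F {(v : V)}) ∧
      (∀ v : W, v ≠ 0 → ¬ ScalarAt (v : V) (g v)) ∧
      ((∀ v : W, f v v = 0) ∨ (k = 3 ∧ (∀ t : F, t = 0 ∨ t = 1) ∧ ∀ v : W, f v v = v)) := by
  classical
  have hpos : 0 < finrank F W := by omega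
  obtain ⟨z, hz⟩ := (Module.finrank_pos_iff_exists_ne_zero (R := F) (M := W)).1 hpos
  have hzV : (z : V) ≠ 0 := AL_ne hz
  by_cases hq : ∃ t : F, t ≠ 0 ∧ t ≠ 1
  · obtain ⟨t, ht0, ht1⟩ := hq
    obtain ⟨a, ha, has⟩ := exists_nonscalar hD hn hk hzV (hα z z.2 hzV)
    obtain ⟨f, g, hg, hfg, hgs, hff, -, -⟩ := keyW hD hn hα hG h4 hz ha
    obtain ⟨μ, hμ⟩ := mu_three W.subtype (Submodule.injective_subtype W) f hff t ht0 ht1
    simp only [Submodule.subtype_apply] at hμ
    obtain ⟨f', hf', hg', hfg'⟩ := AL_sub f g hg hfg μ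
    exact ⟨f', fun v => g v + (-μ v) • LinearMap.id, hg', hfg',
      fun v hv => add_smul_id_nonscalar _ (fun h => has (hgs v hv h)), Or.inl fun v => by rw [hf', hμ, sub_self]⟩
  · push Not at hq
    have h2 : ∀ t : F, t = 0 ∨ t = 1 := fun t => by
      by_cases h : t = 0
      · exact Or.inl h
      · exact Or.inr (hq t h)
    -- normal form
    have key2 : ∀ a ∈ Ker D (z : V), ¬ ScalarAt (z : V) a → ∃ (f : W →ₗ[F] W →ₗ[F] V) (g : W → V →ₗ[F] V) (κ : F),
        (∀ v : W, v ≠ 0 → g v ∈ Ker D (v : V)) ∧ (∀ v : W, v ≠ 0 → ∀ x : W, f v x - g v x ∈ span F {(v : V)}) ∧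
        (∀ v : W, v ≠ 0 → ¬ ScalarAt (v : V) (g v)) ∧ (∀ v : W, f v v = κ • (v : V)) ∧
        (∃ c : F, g z = a + c • LinearMap.id) ∧
        (∀ v : W, v ≠ 0 → ∃ c : F, g v z + a v + c • (z : V) ∈ span F {(v : V)}) := by
      intro a ha has
      obtain ⟨f, g, hg, hfg, hgs, hff, ⟨c0, hc0⟩, hgz⟩ := keyW hD hn hα hG h4 hz ha
      obtain ⟨μ, κ, hμ⟩ := mu_two W.subtype (Submodule.injective_subtype W) (by omega) f hff h2
      simp only [Submodule.subtype_apply] at hμ
      obtain ⟨f', hf', hg', hfg'⟩ := AL_sub f g hg hfg μ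
      refine ⟨f', fun v => g v + (-μ v) • LinearMap.id, κ, hg', hfg',
        fun v hv => add_smul_id_nonscalar _ (fun h => has (hgs v hv h)), fun v => by rw [hf', hμ, add_smul]; abel,
        ⟨c0 - μ z, by simp only [hc0]; module⟩, fun v hv => ?_⟩
      obtain ⟨c, hc⟩ := hgz v hv
      refine ⟨c + μ v, ?_⟩
      simp only [LinearMap.add_apply, LinearMap.smul_apply, LinearMap.id_apply]
      have e : g v z + -μ v • (z : V) + a v + (c + μ v) • (z : V) = g v z + a v + c • (z : V) := by module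
      rw [e]; exact hc
    rcases Nat.lt_or_ge 3 k with h | h
    · obtain ⟨a, ha, b, hb, has, hbs, hab⟩ := exists_nonscalar2 hD hn h hzV (hα z z.2 hzV)
      obtain ⟨f, g, κ, hg, hfg, hgs, hff, ⟨c, hc⟩, hgz⟩ := key2 a ha has
      obtain ⟨f', g', κ', hg', hfg', hgs', hff', ⟨c', hc'⟩, hgz'⟩ := key2 b hb hbs
      rcases h2 κ with hκ | hκ
      · exact ⟨f, g, hg, hfg, hgs, Or.inl fun v => by rw [hff, hκ, zero_smul]⟩
      rcases h2 κ' with hκ' | hκ'
      · exact ⟨f', g', hg', hfg', hgs', Or.inl fun v => by rw [hff', hκ', zero_smul]⟩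
      refine ⟨f + f', fun v => g v + g' v, fun v hv => add_mem (hg v hv) (hg' v hv), fun v hv x => ?_,
        fun v hv => ?_, Or.inl fun v => ?_⟩
      · have := add_mem (hfg v hv x) (hfg' v hv x)
        have e : (f + f') v x - (g v + g' v) x = f v x - g v x + (f' v x - g' v x) := by
          simp only [LinearMap.add_apply]; module
        rw [e]; exact this
      · intro hs
        by_cases hvz : Ind2 F (v : V) (z : V)
        · apply hab
          have hs' : ScalarAt (v : V) (g v + g' v) := hs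
          obtain ⟨d, hd⟩ := hgz v hv
          obtain ⟨d', hd'⟩ := hgz' v hv
          refine nonscalar_transport hD hn hvz (add_mem ha hb) (j := g v + g' v) ?_ hs'
          have h3 := add_mem hd hd'
          have h4 : (g v + g' v) z + (a + b) v =
              (g v z + a v + d • (z : V) + (g' v z + b v + d' • (z : V))) + (-(d + d')) • (z : V) := by
            simp only [LinearMap.add_apply]; module
          rw [h4]
          refine add_mem (span_mono (by simp) h3) (Submodule.smul_mem _ _ (subset_span (by simp)))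
        · -- v = z
          have hv' : v = z := by
            rw [ind2_iff] at hvz
            push Not at hvz
            have h5 := hvz (AL_ne hv)
            obtain ⟨t, ht⟩ := mem_span_singleton.1 h5
            rcases h2 t with rfl | rfl
            · exact (hzV (by simpa using ht.symm)).elim
            · exact Subtype.ext (by simpa using ht)
          subst hv'
          have hs' : ScalarAt (v : V) (g v + g' v) := hs
          rw [hc, hc'] at hs'
          have e : a + c • LinearMap.id + (b + c' • LinearMap.id) = (a + b) + (c + c') • LinearMap.id := by module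
          rw [e] at hs'
          exact add_smul_id_nonscalar (c + c') hab hs'
      · rw [LinearMap.add_apply, LinearMap.add_apply, hff, hff', hκ, hκ', one_smul]
        exact PO_two h2 _
    · obtain rfl : k = 3 := by omega
      obtain ⟨a, ha, has⟩ := exists_nonscalar hD hn hk hzV (hα z z.2 hzV)
      obtain ⟨f, g, κ, hg, hfg, hgs, hff, -, -⟩ := key2 a ha has
      refine ⟨f, g, hg, hfg, hgs, ?_⟩
      rcases h2 κ with hκ | hκ
      · exact Or.inl fun v => by rw [hff, hκ, zero_smul]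
      · exact Or.inr ⟨rfl, h2, fun v => by rw [hff, hκ, one_smul]⟩

/-- no block inside `W` when `f` is alternating -/
theorem no_block [Finite F] [FiniteDimensional F V] {k : ℕ} {D : Set (Submodule F V)} (hD : IsSteiner 2 k D)
    (hk : 2 ≤ k) (hn : k < finrank F V) {W : Submodule F V} (f : W →ₗ[F] W →ₗ[F] V) (hf : ∀ v, f v v = 0)
    (g : W → V →ₗ[F] V) (hg : ∀ v : W, v ≠ 0 → g v ∈ Ker D (v : V))
    (hgs : ∀ v : W, v ≠ 0 → ¬ ScalarAt (v : V) (g v))
    (hfg : ∀ v : W, v ≠ 0 → ∀ x : W, f v x - g v x ∈ span F {(v : V)}) {B : Submodule F V} (hB : B ∈ D)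
    (hBW : B ≤ W) : False := by
  have hco : ∀ v : B, ((Submodule.inclusion hBW v : W) : V) = v := fun v => Submodule.coe_inclusion hBW v
  have hmem : ∀ v x : B, f (Submodule.inclusion hBW v) (Submodule.inclusion hBW x) ∈ B := by
    intro v x
    rcases eq_or_ne v 0 with rfl | hv
    · rw [map_zero, map_zero, LinearMap.zero_apply]; exact B.zero_mem
    · obtain ⟨w, hw, hwv⟩ : ∃ w : W, Submodule.inclusion hBW v = w ∧ (w : V) = v := ⟨_, rfl, hco v⟩
      obtain ⟨y, hy, hyx⟩ : ∃ w : W, Submodule.inclusion hBW x = w ∧ (w : V) = x := ⟨_, rfl, hco x⟩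
      rw [hw, hy]
      have hv' : w ≠ 0 := by
        rintro rfl
        apply hv
        exact Subtype.ext hwv.symm
      have h1 := hfg w hv' y
      have hvB : (w : V) ∈ B := by rw [hwv]; exact v.2
      have hyB : (y : V) ∈ B := by rw [hyx]; exact x.2
      have h2 := (hg w hv').2 B hB hvB y hyB
      have h3 : span F {(w : V)} ≤ B := by
        rw [span_singleton_le_iff_mem]; exact hvB
      have h4 := add_mem (h3 h1) h2
      rwa [sub_add_cancel] at h4
  obtain ⟨fB, hfB⟩ : ∃ fB : B →ₗ[F] B →ₗ[F] B, ∀ v x, (fB v x : V) =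
      f (Submodule.inclusion hBW v) (Submodule.inclusion hBW x) :=
    ⟨LinearMap.mk₂ F (fun v x => ⟨_, hmem v x⟩)
      (fun v v' x => Subtype.ext (by simp [map_add])) (fun c v x => Subtype.ext (by simp [map_smul]))
      (fun v x x' => Subtype.ext (by simp [map_add])) (fun c v x => Subtype.ext (by simp [map_smul])),
      fun v x => rfl⟩
  have hfB0 : ∀ v, fB v v = 0 := by
    intro v
    apply Subtype.ext
    rw [hfB, hf]
    rfl
  have hk2 : 2 ≤ finrank F B := by rw [hD.1 B hB]; exact hk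
  obtain ⟨v, x, hvx, h⟩ := chevalley hk2 fB hfB0
  obtain ⟨w, hw, hwv⟩ : ∃ w : W, Submodule.inclusion hBW v = w ∧ (w : V) = v := ⟨_, rfl, hco v⟩
  obtain ⟨y, hy, hyx⟩ : ∃ w : W, Submodule.inclusion hBW x = w ∧ (w : V) = x := ⟨_, rfl, hco x⟩
  have hvx' : Ind2 F (w : V) (y : V) := fun s t hst => hvx s t (Subtype.ext (by
    rw [hwv, hyx] at hst
    exact hst))
  have hw0 : w ≠ 0 := by
    rintro rfl
    exact (ind2_iff.1 hvx').1 rfl
  obtain ⟨c, hc⟩ := mem_span_singleton.1 h
  have hc' : f w y = c • (w : V) := by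
    rw [hwv, ← hw, ← hy, ← hfB, ← hc]
    rfl
  have k3 := hfg w hw0 y
  have h1 : g w (y : V) ∈ span F {(w : V)} := by
    rw [hc'] at k3
    have h3 : c • (w : V) ∈ span F {(w : V)} := Submodule.smul_mem _ _ (mem_span_singleton_self _)
    have h4 := sub_mem h3 k3
    rwa [sub_sub_cancel] at h4
  have h5 := p4 hD hn hvx' (hg w hw0) h1
  exact hgs w hw0 ⟨0, fun u => by rw [zero_smul, sub_zero]; exact h5 u⟩

end Pool.Agent.LibGS68
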