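import Pool.Agent.LibGS68.S4
open Module Submodule
namespace Pool.Agent.LibGS68
variable {F V : Type*} [Field F] [AddCommGroup V] [Module F V]

private theorem HW_pair [FiniteDimensional F V] {k : ℕ} {D : Set (Submodule F V)}
    (hD : IsSteiner 2 k D) (hn : k < finrank F V) {x y w : V} (h : Ind2 F x y)
    (hαx : Alpha D x) (hαy : Alpha D y) {B : Submodule F V} (hB : B ∈ D) (hx : x ∈ B) (hy : y ∈ B)
    (hw : w ∉ {w : V | w ∈ B ∨ ∃ a ∈ Ker D x, ∃ b ∈ Ker D y, (a - b) w ∈ B ∧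
      a w ∉ B ⊔ span F {w}}) : Ind3 F x y w ∧ Dir D x y w := by
  have hwB : w ∉ B := fun h' => hw (Or.inl h')
  constructor
  · exact HG_ind3 h hx hy hwB
  · refine dir_of_good hD hn h hαx hαy hB hx hy hwB fun a ha b hb hab => ?_
    by_contra hc
    exact hw (Or.inr ⟨a, ha, b, hb, hab, hc⟩)

theorem hasGoodW [Finite F] [FiniteDimensional F V] {k : ℕ} {D : Set (Submodule F V)} (hD : IsSteiner 2 k D)
    (hn : k < finrank F V) (hk : 4 ≤ k) {W : Submodule F V} (hα : ∀ x ∈ W, x ≠ 0 → Alpha D x)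
    (hW : 4 * (k - 1) + 1 ≤ finrank F W) : HasGood D W := by
  have : Finite V := Module.finite_of_finite F
  have hq : 2 ≤ Nat.card F := Finite.one_lt_card
  intro x hx y hy z hz h3
  have h12 := h3.ind12
  have h13 := h3.ind13
  have h23 := h3.ind23
  have αx := hα x hx (ind2_iff.1 h12).1
  have αy := hα y hy (ind2_iff.1 h23).1
  have αz := hα z hz (ind2_iff.1 h23.symm).1
  obtain ⟨B1, hB1, hx1, hy1⟩ := exists_block hD h12
  obtain ⟨B2, hB2, hx2, hz2⟩ := exists_block hD h13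
  obtain ⟨B3, hB3, hy3, hz3⟩ := exists_block hD h23
  have c1 := bad_card hD hn (by omega) h12 αx αy hB1 hx1 hy1
  have c2 := bad_card hD hn (by omega) h13 αx αz hB2 hx2 hz2
  have c3 := bad_card hD hn (by omega) h23 αy αz hB3 hy3 hz3
  set S1 : Set V := {w : V | w ∈ B1 ∨ ∃ a ∈ Ker D x, ∃ b ∈ Ker D y, (a - b) w ∈ B1 ∧
      a w ∉ B1 ⊔ span F {w}} with hS1
  set S2 : Set V := {w : V | w ∈ B2 ∨ ∃ a ∈ Ker D x, ∃ b ∈ Ker D z, (a - b) w ∈ B2 ∧
      a w ∉ B2 ⊔ span F {w}} with hS2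
  set S3 : Set V := {w : V | w ∈ B3 ∨ ∃ a ∈ Ker D y, ∃ b ∈ Ker D z, (a - b) w ∈ B3 ∧
      a w ∉ B3 ⊔ span F {w}} with hS3
  have hex : ∃ w ∈ W, w ∉ S1 ∪ S2 ∪ S3 := by
    by_contra hall
    push Not at hall
    have hsub : (W : Set V) ⊆ S1 ∪ S2 ∪ S3 := fun w hw => hall w hw
    have h1 : (S1 ∪ S2 ∪ S3).ncard ≤ S1.ncard + S2.ncard + S3.ncard :=
      (Set.ncard_union_le _ _).trans (Nat.add_le_add_right (Set.ncard_union_le _ _) _)
    have h2 := (Set.ncard_le_ncard hsub (Set.toFinite _)).trans h1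
    rw [N1_card_submodule] at h2
    rw [Nat.card_coe_set_eq] at c1 c2 c3
    have h5 : Nat.card F ^ (4 * (k - 1) - 1 + 2) ≤ Nat.card F ^ finrank F W :=
      Nat.pow_le_pow_right (by omega) (by omega)
    rw [pow_add] at h5
    have h6 : 0 < Nat.card F ^ (4 * (k - 1) - 1) := Nat.pow_pos (by omega)
    have h7 : 4 ≤ Nat.card F ^ 2 := by nlinarith
    nlinarith
  obtain ⟨w, hwW, hw⟩ := hex
  have w1 : w ∉ S1 := fun h => hw (Or.inl (Or.inl h))
  have w2 : w ∉ S2 := fun h => hw (Or.inl (Or.inr h))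
  have w3 : w ∉ S3 := fun h => hw (Or.inr h)
  have r1 := HW_pair hD hn h12 αx αy hB1 hx1 hy1 w1
  have r2 := HW_pair hD hn h13 αx αz hB2 hx2 hz2 w2
  have r3 := HW_pair hD hn h23 αy αz hB3 hy3 hz3 w3
  exact ⟨w, hwW, r1.1, r2.1, r3.1, r1.2, r2.2, r3.2⟩

end Pool.Agent.LibGS68
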