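import Pool.Agent.LibGS68.A1
/-!
Row EV (MEDIUM). A nondegenerate alternating form lives on an even-dimensional space (any field, also characteristic 2).
Induction on `finrank F W` (generalize `W`; strong induction).  `finrank = 0`: even.  Otherwise take `v ≠ 0`, `x` with `ω v x ≠ 0`; `ω x v = - ω v x` (expand `ω (v+x) (v+x) = 0`).
`S := {u | ω v u = 0 ∧ ω x u = 0} = ker (ω v) ⊓ ker (ω x)`, `P := span {v, x}` (dimension 2).  `P ⊓ S = ⊥` and `P ⊔ S = ⊤`
(`u - (ω v u / ω v x) • x - (ω x u / ω x v) • v ∈ S`), so `finrank S + 2 = finrank W` (`Submodule.finrank_sup_add_finrank_inf_eq`).  The restriction of `ω` to `S` is alternating and nondegenerate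
(`u ∈ S`, `u ≠ 0`, `ω u y ≠ 0`; write `y = p + s`; `ω u p = - ω p u = 0`).  Mathlib may have parts (`LinearMap.BilinForm.isCompl_span_singleton_orthogonal`, ...), not needed.
-/
open Module Submodule
namespace Pool.Agent.LibGS68
variable {F : Type*} [Field F]

private theorem EV_aux (n : ℕ) : ∀ (W : Type*) [AddCommGroup W] [Module F W] [FiniteDimensional F W]
    (ω : W →ₗ[F] W →ₗ[F] F) (_ : ∀ v, ω v v = 0) (_ : ∀ v, v ≠ 0 → ∃ x, ω v x ≠ 0),
    finrank F W = n → Even n := by
  induction n using Nat.strong_induction_on with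
  | _ n ih =>
    intro W _ _ _ ω halt hnd hn
    rcases Nat.eq_zero_or_pos n with h0 | h0
    · subst h0
      exact Even.zero
    · obtain ⟨v, hv⟩ : ∃ v : W, v ≠ 0 := (Module.finrank_pos_iff_exists_ne_zero (R := F) (M := W)).1 (by omega)
      obtain ⟨x, hx⟩ := hnd v hv
      have skew : ∀ a b : W, ω a b = -ω b a := by
        intro a b
        have h1 := halt (a + b)
        simp only [map_add, LinearMap.add_apply, halt, zero_add, add_zero] at h1
        exact eq_neg_of_add_eq_zero_right h1
      have hxv : ω x v ≠ 0 := by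
        rw [skew x v]
        exact neg_ne_zero.2 hx
      set T : W →ₗ[F] F × F := (ω v).prod (ω x) with hT
      have hTa : ∀ u, T u = (ω v u, ω x u) := fun u => rfl
      have hsurj : Function.Surjective T := by
        rintro ⟨p, q⟩
        refine ⟨(p / ω v x) • x + (q / ω x v) • v, ?_⟩
        rw [hTa]
        simp only [map_add, map_smul, halt, smul_eq_mul, mul_zero, add_zero, zero_add]
        rw [div_mul_cancel₀ _ hx, div_mul_cancel₀ _ hxv]
      have hdim : finrank F (LinearMap.ker T) + 2 = n := by
        have h1 := LinearMap.finrank_range_add_finrank_ker T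
        rw [LinearMap.range_eq_top.2 hsurj, finrank_top, Module.finrank_prod, Module.finrank_self] at h1
        omega
      have hmem : ∀ u : W, u ∈ LinearMap.ker T ↔ ω v u = 0 ∧ ω x u = 0 := by
        intro u
        rw [LinearMap.mem_ker, hTa, Prod.mk_eq_zero]
      have hS := ih (finrank F (LinearMap.ker T)) (by omega) (LinearMap.ker T)
        (ω.domRestrict₁₂ (LinearMap.ker T) (LinearMap.ker T))
        (fun u => by rw [LinearMap.domRestrict₁₂_apply]; exact halt _) ?_ rfl
      · rw [← hdim]
        exact hS.add (by decide)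
      · intro u hu
        have hu' : (u : W) ≠ 0 := fun h => hu (Subtype.ext h)
        obtain ⟨y, hy⟩ := hnd u hu'
        obtain ⟨hu1, hu2⟩ := (hmem u).1 u.2
        refine ⟨⟨y - (ω v y / ω v x) • x - (ω x y / ω x v) • v, (hmem _).2 ⟨?_, ?_⟩⟩, ?_⟩
        · simp only [map_sub, map_smul, halt, smul_eq_mul, mul_zero, sub_zero]
          rw [div_mul_cancel₀ _ hx, sub_self]
        · simp only [map_sub, map_smul, halt, smul_eq_mul, mul_zero, sub_zero]
          rw [div_mul_cancel₀ _ hxv, sub_self]
        · rw [LinearMap.domRestrict₁₂_apply]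
          simp only [map_sub, map_smul, smul_eq_mul]
          rw [skew u x, skew u v, hu1, hu2]
          simpa using hy

theorem even_of_alt {W : Type*} [AddCommGroup W] [Module F W] [FiniteDimensional F W] (ω : W →ₗ[F] W →ₗ[F] F)
    (halt : ∀ v, ω v v = 0) (hnd : ∀ v, v ≠ 0 → ∃ x, ω v x ≠ 0) : Even (finrank F W) :=
  EV_aux _ W ω halt hnd rfl

end Pool.Agent.LibGS68
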