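import Pool.Agent.LibGS68.PO
import Pool.Agent.LibGS68.EV
/-!
Row PW (MEDIUM). `|F| = 2`, `W ≤ V`, `f : W → W → V` bilinear with `f v v = v` and: whenever `f v x ∈ W`, say `f v x = y ∈ W`, then `f v y + f v x + x ∈ ⟨v⟩`.
* `kerW`: for `y ∈ W` the space `M_y = {x ∈ W | f y x ∈ W}` has dimension at most 3.
 Proof.  `f x y = f y x` for all `x y` (polarise `f v v = v`: `f (x+y) (x+y) = x + y`, so `f x y + f y x = 0`; characteristic 2, `PO_two`).  Let `dim M_y ≥ 4`; `y ∈ M_y`.  Choose `a b c ∈ M_y` with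
 `y, a, b, c` independent (`A3_exists_notMem` three times: `a ∉ ⟨y⟩`, `b ∉ ⟨y,a⟩`, `c ∉ ⟨y,a,b⟩`).  Now `f a y, f b y, f c y ∈ W` (symmetry).  For `u, v ∈ {a, b, c, b+c}`, `u ≠ v` the polarisation
 `key`: `f u (f v y) + f v (f u y) + y ∈ span {u, v}` holds: expand the hypothesis for `u + v` (note `f (u+v) y = f u y + f v y ∈ W`) and subtract those for `u`, `v`; compare the proof of `polar` in PO.lean.
 `key` for `(a,b)`, `(a,c)`, `(a,b+c)` : sum gives `y + y + y = y ∈ span {a, b, c}` (as in `polar`), a contradiction.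
* `dimW`: `2 * dim W ≤ dim V + 3`: for `y ∈ W`, `y ≠ 0` the map `W → V ⧸ W`, `x ↦ f y x` has kernel `M_y`: `dim W - 3 ≤ dim V - dim W`.
* `oddW`: if `2 * dim W = dim V + 3` then `dim W` is even: `dim (V ⧸ W) = dim W - 3`; if this is 0, `dim W = 3` and `dim V = 3`; excluded by `h4`.  Otherwise take a nonzero functional `ℓ` on
 `V ⧸ W`; for `y ≠ 0` the map `x ↦ f y x` mod `W` has rank `≥ dim W - 3 = dim (V ⧸ W)`, so it is onto; `ω y x := ℓ (f y x)` is alternating (`f v v = v ∈ W`) and nondegenerate: `even_of_alt`.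
-/
open Module Submodule
namespace Pool.Agent.LibGS68
variable {F V : Type*} [Field F] [AddCommGroup V] [Module F V]

theorem kerW [FiniteDimensional F V] (h2 : ∀ t : F, t = 0 ∨ t = 1) {W : Submodule F V} (f : W →ₗ[F] W →ₗ[F] V)
    (hff : ∀ v : W, f v v = v) (hf : ∀ v : W, v ≠ 0 → ∀ x y : W, f v x = y → f v y + y + x ∈ span F {(v : V)})
    (y : W) (hy : y ≠ 0) : finrank F (W.comap (f y)) ≤ 3 := by
  have htwo : ∀ v : V, v + v = 0 := PO_two h2
  by_contra hcon
  push Not at hcon
  -- symmetry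
  have hsymm : ∀ u v : W, f u v = f v u := by
    intro u v
    have h1 := hff (u + v)
    simp only [map_add, LinearMap.add_apply, hff, Submodule.coe_add] at h1
    have h3 : f u v + f v u = 0 := by
      have h4 : (u : V) + f v u + (f u v + v) = (u : V) + v + (f u v + f v u) := by abel
      rw [h4] at h1
      simpa using h1
    have h5 := htwo (f v u)
    rw [← h5] at h3
    exact add_right_cancel h3
  have hyM : y ∈ W.comap (f y) := by
    rw [Submodule.mem_comap, hff]
    exact y.2
  obtain ⟨a, haM, ha⟩ := A3_exists_notMem (S := W.comap (f y)) (T := span F {y})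
    (by rw [finrank_span_singleton hy]; omega)
  have hya : Ind2 F y a := ind2_iff.2 ⟨hy, ha⟩
  obtain ⟨b, hbM, hb⟩ := A3_exists_notMem (S := W.comap (f y)) (T := span F {y, a})
    (by rw [finrank_span2 hya]; omega)
  have hyab : Ind3 F y a b := ind3_iff.2 ⟨hya, hb⟩
  obtain ⟨c, hcM, hc⟩ := A3_exists_notMem (S := W.comap (f y)) (T := span F {y, a, b})
    (by rw [finrank_span3 hyab]; omega)
  rw [Submodule.mem_comap] at haM hbM hcM
  -- the vectors `f u y`
  have hG : ∀ u : W, f y u ∈ W → ∃ g : W, f u y = g := by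
    intro u hu
    exact ⟨⟨f y u, hu⟩, hsymm u y⟩
  obtain ⟨ga, hga⟩ := hG a haM
  obtain ⟨gb, hgb⟩ := hG b hbM
  obtain ⟨gc, hgc⟩ := hG c hcM
  have key : ∀ u v gu gv : W, Ind2 F u v → f u y = gu → f v y = gv →
      f u gv + f v gu + y ∈ span F {(u : V), (v : V)} := by
    intro u v gu gv huv hu hv
    have hu0 : u ≠ 0 := (ind2_iff.1 huv).1
    have hv0 : v ≠ 0 := (ind2_iff.1 huv.symm).1
    have hs : u + v ≠ 0 := by
      intro h
      exact one_ne_zero (huv 1 1 (by simpa using h)).1
    have ma : (u : V) ∈ span F {(u : V), (v : V)} := subset_span (by simp)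
    have mb : (v : V) ∈ span F {(u : V), (v : V)} := subset_span (by simp)
    have e1 := (span_singleton_le_iff_mem _ _).2 ma (hf u hu0 y gu hu)
    have e2 := (span_singleton_le_iff_mem _ _).2 mb (hf v hv0 y gv hv)
    have hadd : f (u + v) y = ((gu + gv : W) : V) := by
      rw [map_add, LinearMap.add_apply, hu, hv, Submodule.coe_add]
    have e3' := hf (u + v) hs y (gu + gv) hadd
    rw [Submodule.coe_add u v] at e3'
    have e3 := (span_singleton_le_iff_mem _ _).2 (add_mem ma mb) e3'
    have := sub_mem (sub_mem e3 e1) e2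
    have e : f (u + v) (gu + gv) + ((gu + gv : W) : V) + (y : V) - (f u gu + gu + y) - (f v gv + gv + y) =
        (f u gv + f v gu + y) - ((y : V) + y) := by
      simp only [map_add, LinearMap.add_apply, Submodule.coe_add]
      abel
    rw [e, htwo, sub_zero] at this
    exact this
  have hab : Ind2 F a b := hyab.ind23
  have hyac : Ind2 F a c := by
    refine ind2_iff.2 ⟨(ind2_iff.1 hab).1, fun h => hc ?_⟩
    exact span_mono (by
      intro w hw
      simp only [Set.mem_singleton_iff] at hw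
      subst hw
      simp) h
  have habc : Ind2 F a (b + c) := by
    refine ind2_iff.2 ⟨(ind2_iff.1 hab).1, fun h => hc ?_⟩
    obtain ⟨s, hs⟩ := mem_span_singleton.1 h
    have h1 : c = s • a - b := by rw [hs]; abel
    rw [h1]
    exact sub_mem (Submodule.smul_mem _ _ (subset_span (by simp))) (subset_span (by simp))
  have hgbc : f (b + c) y = ((gb + gc : W) : V) := by
    rw [map_add, LinearMap.add_apply, hgb, hgc, Submodule.coe_add]
  have ma : (a : V) ∈ span F {(a : V), (b : V), (c : V)} := subset_span (by simp)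
  have mb : (b : V) ∈ span F {(a : V), (b : V), (c : V)} := subset_span (by simp)
  have mc : (c : V) ∈ span F {(a : V), (b : V), (c : V)} := subset_span (by simp)
  have le2 : ∀ u v : V, u ∈ span F {(a : V), (b : V), (c : V)} → v ∈ span F {(a : V), (b : V), (c : V)} →
      span F {u, v} ≤ span F {(a : V), (b : V), (c : V)} := by
    intro u v hu hv
    rw [span_le]
    rintro w (rfl | rfl) <;> assumption
  have e1 := le2 _ _ ma mb (key a b ga gb hab hga hgb)
  have e2 := le2 _ _ ma mc (key a c ga gc hyac hga hgc)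
  have e3' := key a (b + c) ga (gb + gc) habc hga hgbc
  rw [Submodule.coe_add b c] at e3'
  have e3 := le2 _ _ ma (add_mem mb mc) e3'
  have h3 := sub_mem (add_mem e1 e2) e3
  have e : f a gb + f b ga + (y : V) + (f a gc + f c ga + y) - (f a (gb + gc) + f (b + c) ga + y) = y := by
    simp only [map_add, LinearMap.add_apply]
    abel
  rw [e] at h3
  obtain ⟨p, v, hv, h4⟩ := mem_span_insert.1 h3
  obtain ⟨q, r, rfl⟩ := mem_span_pair.1 hv
  have h5 : y = p • a + (q • b + r • c) := Subtype.ext (by simpa using h4)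
  rcases h2 r with hr | hr
  · subst hr
    rw [zero_smul, add_zero] at h5
    obtain ⟨h6, -, -⟩ := hyab 1 (-p) (-q) (by rw [h5]; module)
    exact one_ne_zero h6
  · subst hr
    apply hc
    have h6 : c = y - p • a - q • b := by
      rw [h5, one_smul]
      abel
    rw [h6]
    exact sub_mem (sub_mem (subset_span (by simp)) (Submodule.smul_mem _ _ (subset_span (by simp))))
      (Submodule.smul_mem _ _ (subset_span (by simp)))

private theorem PW_ker {W : Submodule F V} (f : W →ₗ[F] W →ₗ[F] V) (y : W) :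
    LinearMap.ker (W.mkQ.comp (f y)) = W.comap (f y) := by
  rw [LinearMap.ker_comp, Submodule.ker_mkQ]

private theorem PW_rank [FiniteDimensional F V] (h2 : ∀ t : F, t = 0 ∨ t = 1) {W : Submodule F V}
    (f : W →ₗ[F] W →ₗ[F] V) (hff : ∀ v : W, f v v = v)
    (hf : ∀ v : W, v ≠ 0 → ∀ x y : W, f v x = y → f v y + y + x ∈ span F {(v : V)}) (y : W) (hy : y ≠ 0) :
    finrank F W ≤ finrank F (LinearMap.range (W.mkQ.comp (f y))) + 3 := by
  have h1 := LinearMap.finrank_range_add_finrank_ker (W.mkQ.comp (f y))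
  rw [PW_ker] at h1
  have h3 := kerW h2 f hff hf y hy
  omega

theorem dimW [FiniteDimensional F V] (h2 : ∀ t : F, t = 0 ∨ t = 1) {W : Submodule F V} (h4 : 4 ≤ finrank F W)
    (f : W →ₗ[F] W →ₗ[F] V)
    (hff : ∀ v : W, f v v = v) (hf : ∀ v : W, v ≠ 0 → ∀ x y : W, f v x = y → f v y + y + x ∈ span F {(v : V)}) :
    2 * finrank F W ≤ finrank F V + 3 := by
  obtain ⟨y, hy⟩ : ∃ y : W, y ≠ 0 := (Module.finrank_pos_iff_exists_ne_zero (R := F) (M := W)).1 (by omega)
  have h1 := PW_rank h2 f hff hf y hy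
  have h3 : finrank F (LinearMap.range (W.mkQ.comp (f y))) ≤ finrank F (V ⧸ W) := Submodule.finrank_le _
  have h5 := Submodule.finrank_quotient_add_finrank W
  omega

theorem oddW [FiniteDimensional F V] (h2 : ∀ t : F, t = 0 ∨ t = 1) {W : Submodule F V} (h4 : 4 ≤ finrank F W)
    (f : W →ₗ[F] W →ₗ[F] V)
    (hff : ∀ v : W, f v v = v) (hf : ∀ v : W, v ≠ 0 → ∀ x y : W, f v x = y → f v y + y + x ∈ span F {(v : V)})
    (he : 2 * finrank F W = finrank F V + 3) : Even (finrank F W) := by
  have h5 := Submodule.finrank_quotient_add_finrank W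
  have hQ : 0 < finrank F (V ⧸ W) := by omega
  obtain ⟨q, hq⟩ : ∃ q : V ⧸ W, q ≠ 0 := (Module.finrank_pos_iff_exists_ne_zero (R := F) (M := V ⧸ W)).1 hQ
  obtain ⟨l, hl⟩ := Module.Projective.exists_dual_ne_zero F hq
  have hsurj : ∀ v : W, v ≠ 0 → Function.Surjective (W.mkQ.comp (f v)) := by
    intro v hv
    have h1 := PW_rank h2 f hff hf v hv
    have h3 : finrank F (LinearMap.range (W.mkQ.comp (f v))) ≤ finrank F (V ⧸ W) := Submodule.finrank_le _
    rw [← LinearMap.range_eq_top]
    apply Submodule.eq_top_of_finrank_eq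
    omega
  set ω : W →ₗ[F] W →ₗ[F] F := f.compr₂ (l ∘ₗ W.mkQ) with hωd
  have hω : ∀ v x : W, ω v x = l (W.mkQ (f v x)) := fun v x => by
    rw [hωd, LinearMap.compr₂_apply, LinearMap.comp_apply]
  refine even_of_alt ω ?_ ?_
  · intro v
    rw [hω, hff]
    have : W.mkQ (v : V) = 0 := by
      rw [Submodule.mkQ_apply, Submodule.Quotient.mk_eq_zero]
      exact v.2
    rw [this, map_zero]
  · intro v hv
    obtain ⟨x, hx⟩ := hsurj v hv q
    refine ⟨x, ?_⟩
    rw [hω]
    rw [LinearMap.comp_apply] at hx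
    rw [hx]
    exact hl

end Pool.Agent.LibGS68
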