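import Pool.Agent.LibGS68.LQ
import Pool.Agent.LibGS68.AL
import Pool.Agent.LibGS68.HW
import Pool.Agent.LibGS68.PW
open Module Submodule
namespace Pool.Agent.LibGS68
variable {F V : Type*} [Field F] [AddCommGroup V] [Module F V]

theorem sub_dvd {q k n : ℕ} (hq : 2 ≤ q) (h1 : (q ^ (k - 1) - 1) ∣ (q ^ (n - 1) - 1)) : k - 1 ∣ n - 1 := by
  have e1 : Nat.gcd (q ^ (k - 1) - 1) (q ^ (n - 1) - 1) = q ^ (k - 1) - 1 := Nat.gcd_eq_left h1
  rw [Nat.pow_sub_one_gcd_pow_sub_one] at e1
  have p1 : 0 < q ^ (Nat.gcd (k - 1) (n - 1)) := by positivity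
  have p2 : 0 < q ^ (k - 1) := by positivity
  have e2 : q ^ (Nat.gcd (k - 1) (n - 1)) = q ^ (k - 1) := by omega
  have e3 := Nat.pow_right_injective hq e2
  rw [← e3]
  exact Nat.gcd_dvd_right _ _

/-- Dimension of a subspace of alpha points, `t = 2`; `s = (n-1)/(k-1)`. -/
theorem bound2 [Finite F] [FiniteDimensional F V] {k : ℕ} {D : Set (Submodule F V)} (hk : 3 ≤ k)
    (hD : IsSteiner 2 k D) (hn : k < finrank F V) {W : Submodule F V} (hα : ∀ x ∈ W, x ≠ 0 → Alpha D x) :
    (k = 3 → 3 ≤ Nat.card F → 2 * finrank F W < finrank F V) ∧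
    (k = 3 → Nat.card F = 2 → 2 * finrank F W ≤ finrank F V + 3 ∧
      (2 * finrank F W = finrank F V + 3 → Even (finrank F W))) ∧
    (4 ≤ k → finrank F W ≤ 4 * (k - 1) ∨ (k - 1) * finrank F W ≤ (k - 2) * finrank F V) := by
  classical
  have hq : 2 ≤ Nat.card F := Finite.one_lt_card
  have hwn : finrank F W ≤ finrank F V := Submodule.finrank_le W
  have hn1 := n_arith hq hk hn (count_point hD hn (by omega)) (count_pairs hD hn (by omega))
  have hdvd := sub_dvd hq (count_point hD hn (by omega))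
  -- alternating case
  have alt : HasGood D W → 4 ≤ finrank F W → (∃ (f : W →ₗ[F] W →ₗ[F] V) (g : W → V →ₗ[F] V),
      (∀ v : W, v ≠ 0 → g v ∈ Ker D (v : V)) ∧ (∀ v : W, v ≠ 0 → ∀ x : W, f v x - g v x ∈ span F {(v : V)}) ∧
      (∀ v : W, v ≠ 0 → ¬ ScalarAt (v : V) (g v)) ∧ (∀ v : W, f v v = 0)) →
      finrank F W ≤ (k - 2) * (finrank F V - finrank F W) := by
    rintro hG h4 ⟨f, g, hg, hfg, hgs, hf⟩
    by_contra hlt
    obtain ⟨B, hB, hBW⟩ := lemmaQ hD hk hn hα hG h4 (by omega)
    exact no_block hD (by omega) hn f hf g hg hgs hfg hB hBW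
  refine ⟨?_, ?_, ?_⟩
  · rintro rfl h3
    simp only [show (3 : ℕ) - 1 = 2 from rfl] at hdvd hn1
    rcases Nat.lt_or_ge (finrank F W) 4 with h4 | h4
    · omega
    · have hG := hasGood3 hD hn hα h4
      obtain ⟨f, g, hg, hfg, hgs, hf | ⟨-, h2, -⟩⟩ := altW hk hD hn hα hG h4
      · have := alt hG h4 ⟨f, g, hg, hfg, hgs, hf⟩
        omega
      · exfalso
        have h5 : Nat.card F ≤ 2 := by
          have h6 : (Set.univ : Set F) ⊆ {0, 1} := fun t _ => by
            rcases h2 t with rfl | rfl <;> simp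
          have h7 := Set.ncard_le_ncard h6 (Set.toFinite _)
          rw [Set.ncard_univ] at h7
          exact h7.trans (Set.ncard_insert_le _ _ |>.trans (by simp))
        omega
  · rintro rfl h2c
    simp only [show (3 : ℕ) - 1 = 2 from rfl] at hdvd hn1
    rcases Nat.lt_or_ge (finrank F W) 4 with h4 | h4
    · refine ⟨by omega, fun h => by omega⟩
    · have hG := hasGood3 hD hn hα h4
      obtain ⟨f, g, hg, hfg, hgs, hf | ⟨-, h2, hff⟩⟩ := altW hk hD hn hα hG h4
      · have := alt hG h4 ⟨f, g, hg, hfg, hgs, hf⟩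
        refine ⟨by omega, fun h => by omega⟩
      · have hquad : ∀ v : W, v ≠ 0 → ∀ x y : W, f v x = y → f v y + y + x ∈ span F {(v : V)} := by
          intro v hv x y hxy
          have hv' : (v : V) ≠ 0 := AL_ne hv
          have hq3 := quad3 hD hn h2 hv' (hg v hv) (hgs v hv) x
          obtain ⟨s, hs⟩ := mem_span_singleton.1 (hfg v hv x)
          have e1 : (y : V) = g v x + s • (v : V) := by rw [← hxy, hs]; abel
          have h3 := hfg v hv y
          have h5 : g v (v : V) ∈ span F {(v : V)} := (hg v hv).1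
          have e2 : f v y + (y : V) + x = (f v y - g v y) + (g v (g v x) + g v x + x) + s • g v v + s • (v : V) := by
            have e3 : g v (y : V) = g v (g v x) + s • g v v := by rw [e1, map_add, map_smul]
            rw [e3]
            have e4 : (y : V) = g v x + s • (v : V) := e1
            rw [show f v y + (y : V) + x = f v y + (g v x + s • (v : V)) + x from by rw [← e4]]
            abel
          rw [e2]
          exact add_mem (add_mem (add_mem h3 hq3) (Submodule.smul_mem _ _ h5))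
            (Submodule.smul_mem _ _ (mem_span_singleton_self _))
        exact ⟨dimW h2 h4 f hff hquad, fun h => oddW h2 h4 f hff hquad h⟩
  · intro h4k
    rcases Nat.lt_or_ge (4 * (k - 1)) (finrank F W) with hw | hw
    · right
      have h4 : 4 ≤ finrank F W := by omega
      have hG := hasGoodW hD hn h4k hα (by omega)
      obtain ⟨f, g, hg, hfg, hgs, hf | ⟨h3, -, -⟩⟩ := altW hk hD hn hα hG h4
      · have h5 := alt hG h4 ⟨f, g, hg, hfg, hgs, hf⟩
        obtain ⟨c, hc⟩ : ∃ c, finrank F V = finrank F W + c := ⟨finrank F V - finrank F W, by omega⟩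
        rw [hc, Nat.add_sub_cancel_left] at h5
        obtain ⟨k', rfl⟩ : ∃ k', k = k' + 2 := ⟨k - 2, by omega⟩
        simp only [Nat.add_sub_cancel] at h5 ⊢
        rw [hc, show k' + 2 - 1 = k' + 1 from rfl]
        nlinarith
      · omega
    · exact Or.inl hw

end Pool.Agent.LibGS68
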