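import Pool.Agent.LibGS68.A1
/-!
Row N1 (MEDIUM). Counting.  `q = Nat.card F`, `n = finrank V`.
-/
open Module Submodule
namespace Pool.Agent.LibGS68
variable {F V : Type*} [Field F] [AddCommGroup V] [Module F V]

theorem N1_fiber {α β : Type*} [Finite α] (s : Set α) (f : α → β) (m : ℕ)
    (h : ∀ a ∈ s, {a' | a' ∈ s ∧ f a' = f a}.ncard = m) : s.ncard = (f '' s).ncard * m := by
  classical
  haveI : Fintype α := Fintype.ofFinite α
  have e1 := Finset.card_eq_sum_card_image f s.toFinset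
  have e2 : ∀ b ∈ s.toFinset.image f, (s.toFinset.filter (fun a => f a = b)).card = m := by
    intro b hb
    obtain ⟨a, ha, rfl⟩ := Finset.mem_image.1 hb
    rw [Set.mem_toFinset] at ha
    rw [← h a ha, Set.ncard_eq_toFinset_card']
    congr 1
    ext a'
    simp
  rw [Finset.sum_congr rfl e2, Finset.sum_const, smul_eq_mul] at e1
  rw [Set.ncard_eq_toFinset_card', e1, Set.ncard_eq_toFinset_card']
  congr 2
  ext b
  simp

theorem N1_card_submodule [Finite F] [FiniteDimensional F V] (B : Submodule F V) :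
    (B : Set V).ncard = Nat.card F ^ finrank F B := by
  rw [← Module.natCard_eq_pow_finrank (K := F) (V := B)]
  exact (Nat.card_coe_set_eq (B : Set V)).symm

theorem N1_outside [Finite F] [FiniteDimensional F V] (B : Submodule F V) {x : V} (hx0 : x ≠ 0) (hx : x ∈ B) :
    {v | v ∈ B ∧ v ∉ span F {x}}.ncard = Nat.card F ^ finrank F B - Nat.card F := by
  haveI : Finite V := Module.finite_of_finite F
  have e : {v | v ∈ B ∧ v ∉ span F {x}} = (B : Set V) \ (span F {x} : Submodule F V) := rfl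
  have hle : ((span F {x} : Submodule F V) : Set V) ⊆ B := (span_singleton_le_iff_mem x B).2 hx
  rw [e, Set.ncard_diff hle, N1_card_submodule, N1_card_submodule, finrank_span_singleton hx0, pow_one]

theorem N1_ind2 [Finite F] [FiniteDimensional F V] (B : Submodule F V) (hB : 2 ≤ finrank F B) :
    {p : V × V | p.1 ∈ B ∧ p.2 ∈ B ∧ Ind2 F p.1 p.2}.ncard =
      (Nat.card F ^ finrank F B - 1) * (Nat.card F ^ finrank F B - Nat.card F) := by
  classical
  haveI : Finite V := Module.finite_of_finite F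
  have hq : 2 ≤ Nat.card F := Finite.one_lt_card
  rw [N1_fiber _ (Prod.fst) (Nat.card F ^ finrank F B - Nat.card F)]
  · congr 1
    have e1 : (Prod.fst '' {p : V × V | p.1 ∈ B ∧ p.2 ∈ B ∧ Ind2 F p.1 p.2}) = (B : Set V) \ {0} := by
      ext x
      simp only [Set.mem_image, Set.mem_setOf_eq, Prod.exists, exists_and_right, exists_eq_right, Set.mem_diff,
        SetLike.mem_coe, Set.mem_singleton_iff]
      constructor
      · rintro ⟨y, hx, hy, h⟩
        exact ⟨hx, (ind2_iff.1 h).1⟩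
      · rintro ⟨hx, hx0⟩
        have h1 := N1_outside B hx0 hx
        have h2 : 0 < {v | v ∈ B ∧ v ∉ span F {x}}.ncard := by
          rw [h1]
          have : Nat.card F ^ 1 < Nat.card F ^ finrank F B := Nat.pow_lt_pow_right (by omega) (by omega)
          rw [pow_one] at this
          omega
        obtain ⟨y, hy, hyx⟩ := Set.nonempty_of_ncard_ne_zero h2.ne'
        exact ⟨y, hx, hy, ind2_iff.2 ⟨hx0, hyx⟩⟩
    rw [e1, Set.ncard_diff (by simp), N1_card_submodule, Set.ncard_singleton]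
  · rintro ⟨x, y⟩ ⟨hx, hy, h⟩
    have hx0 : x ≠ 0 := (ind2_iff.1 h).1
    rw [← N1_outside B hx0 hx]
    have e2 : {a' : V × V | a' ∈ {p : V × V | p.1 ∈ B ∧ p.2 ∈ B ∧ Ind2 F p.1 p.2} ∧ a'.1 = x} =
        (fun v => (x, v)) '' {v | v ∈ B ∧ v ∉ span F {x}} := by
      ext ⟨a, b⟩
      simp only [Set.mem_setOf_eq, Set.mem_image, Prod.mk.injEq]
      constructor
      · rintro ⟨⟨ha, hb, hab⟩, rfl⟩
        exact ⟨b, ⟨hb, (ind2_iff.1 hab).2⟩, rfl, rfl⟩
      · rintro ⟨v, ⟨hv, hvx⟩, rfl, rfl⟩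
        exact ⟨⟨hx, hv, ind2_iff.2 ⟨hx0, hvx⟩⟩, rfl⟩
    change {a' : V × V | a' ∈ {p : V × V | p.1 ∈ B ∧ p.2 ∈ B ∧ Ind2 F p.1 p.2} ∧ a'.1 = x}.ncard = _
    rw [e2, Set.ncard_image_of_injective _ (fun v w h => (Prod.mk.inj h).2)]

theorem count_point [Finite F] [FiniteDimensional F V] {k : ℕ} {D : Set (Submodule F V)} (hD : IsSteiner 2 k D)
    (hn : k < finrank F V) (hk : 2 ≤ k) : (Nat.card F ^ (k - 1) - 1) ∣ (Nat.card F ^ (finrank F V - 1) - 1) := by
  classical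
  haveI : Finite V := Module.finite_of_finite F
  have hq : 2 ≤ Nat.card F := Finite.one_lt_card
  obtain ⟨x, hx0⟩ : ∃ x : V, x ≠ 0 := (Module.finrank_pos_iff_exists_ne_zero (R := F) (M := V)).1 (by omega)
  have hbl : ∀ v : V, ∃ B : Submodule F V, v ∉ span F {x} → (B ∈ D ∧ x ∈ B ∧ v ∈ B) := by
    intro v
    by_cases hv : v ∈ span F {x}
    · exact ⟨⊤, fun h => absurd hv h⟩
    · obtain ⟨B, hB⟩ := exists_block hD (ind2_iff.2 ⟨hx0, hv⟩)
      exact ⟨B, fun _ => hB⟩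
  choose f hf using hbl
  have h1 := N1_fiber {v : V | v ∈ (⊤ : Submodule F V) ∧ v ∉ span F {x}} f (Nat.card F ^ k - Nat.card F) (by
    rintro v ⟨-, hv⟩
    obtain ⟨hB, hxB, hvB⟩ := hf v hv
    rw [← hD.1 _ hB, ← N1_outside (f v) hx0 hxB]
    congr 1
    ext w
    simp only [Set.mem_setOf_eq, mem_top, true_and]
    constructor
    · rintro ⟨hw, hfw⟩
      exact ⟨hfw ▸ (hf w hw).2.2, hw⟩
    · rintro ⟨hwB, hw⟩
      obtain ⟨hB', hxB', hwB'⟩ := hf w hw
      exact ⟨hw, block_eq hD (ind2_iff.2 ⟨hx0, hw⟩) hB' hB hxB' hwB' hxB hwB⟩)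
  rw [N1_outside ⊤ hx0 mem_top, finrank_top] at h1
  have h2 : (Nat.card F ^ k - Nat.card F) ∣ (Nat.card F ^ finrank F V - Nat.card F) := ⟨_, by rw [h1, mul_comm]⟩
  have e : ∀ m, 1 ≤ m → Nat.card F ^ m - Nat.card F = (Nat.card F ^ (m - 1) - 1) * Nat.card F := by
    intro m hm
    obtain ⟨m', rfl⟩ : ∃ m', m = m' + 1 := ⟨m - 1, by omega⟩
    rw [Nat.add_sub_cancel, Nat.sub_mul, one_mul, pow_succ]
  rw [e k (by omega), e (finrank F V) (by omega)] at h2
  exact Nat.dvd_of_mul_dvd_mul_right (by omega) h2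

theorem count_pairs [Finite F] [FiniteDimensional F V] {k : ℕ} {D : Set (Submodule F V)} (hD : IsSteiner 2 k D)
    (hn : k < finrank F V) (hk : 2 ≤ k) : ((Nat.card F ^ k - 1) * (Nat.card F ^ (k - 1) - 1)) ∣
      ((Nat.card F ^ finrank F V - 1) * (Nat.card F ^ (finrank F V - 1) - 1)) := by
  classical
  haveI : Finite V := Module.finite_of_finite F
  have hq : 2 ≤ Nat.card F := Finite.one_lt_card
  have hbl : ∀ p : V × V, ∃ B : Submodule F V, Ind2 F p.1 p.2 → (B ∈ D ∧ p.1 ∈ B ∧ p.2 ∈ B) := by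
    intro v
    by_cases hv : Ind2 F v.1 v.2
    · obtain ⟨B, hB⟩ := exists_block hD hv
      exact ⟨B, fun _ => hB⟩
    · exact ⟨⊤, fun h => absurd h hv⟩
  choose f hf using hbl
  have h1 := N1_fiber {p : V × V | p.1 ∈ (⊤ : Submodule F V) ∧ p.2 ∈ (⊤ : Submodule F V) ∧ Ind2 F p.1 p.2} f
    ((Nat.card F ^ k - 1) * (Nat.card F ^ k - Nat.card F)) (by
    rintro v ⟨-, -, hv⟩
    obtain ⟨hB, hxB, hvB⟩ := hf v hv
    rw [← hD.1 _ hB, ← N1_ind2 (f v) (by rw [hD.1 _ hB]; exact hk)]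
    congr 1
    ext w
    simp only [Set.mem_setOf_eq, mem_top, true_and]
    constructor
    · rintro ⟨hw, hfw⟩
      exact ⟨hfw ▸ (hf w hw).2.1, hfw ▸ (hf w hw).2.2, hw⟩
    · rintro ⟨hwB, hwB2, hw⟩
      obtain ⟨hB', hxB', hwB'⟩ := hf w hw
      exact ⟨hw, block_eq hD hw hB' hB hxB' hwB' hwB hwB2⟩)
  rw [N1_ind2 ⊤ (by rw [finrank_top]; omega), finrank_top] at h1
  have h2 : ((Nat.card F ^ k - 1) * (Nat.card F ^ k - Nat.card F)) ∣
      ((Nat.card F ^ finrank F V - 1) * (Nat.card F ^ finrank F V - Nat.card F)) := ⟨_, by rw [h1, mul_comm]⟩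
  have e : ∀ m, 1 ≤ m → Nat.card F ^ m - Nat.card F = (Nat.card F ^ (m - 1) - 1) * Nat.card F := by
    intro m hm
    obtain ⟨m', rfl⟩ : ∃ m', m = m' + 1 := ⟨m - 1, by omega⟩
    rw [Nat.add_sub_cancel, Nat.sub_mul, one_mul, pow_succ]
  rw [e k (by omega), e (finrank F V) (by omega), ← mul_assoc, ← mul_assoc] at h2
  exact Nat.dvd_of_mul_dvd_mul_right (by omega) h2

end Pool.Agent.LibGS68
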