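import Pool.Agent.LibGS68.T1
import Pool.Agent.LibGS68.N1
/-!
Row CB (MEDIUM). Blocking sets.
* `count_blocking`: `S ⊆ V` closed under scalars, meeting every subspace of dimension `> u` in a nonzero vector.  Then `q^(n-u) ≤ |S|`.
 Proof.  Take a subspace `U` of maximal dimension with `S ∩ U ⊆ {0}` (`⊥` is one; dimensions are `≤ u` by `hS`; `Nat.findGreatest` or `Set.Finite`/well-founded argument on `finrank ≤ n`).
 The map `S → V ⧸ U` is onto: `0` comes from `0 ∈ S`; for `v ∉ U`, `U ⊔ ⟨v⟩` is bigger, so it contains `s ∈ S`, `s ≠ 0`, `s = c • v + u'`, `c ≠ 0` (otherwise `s ∈ U`), and `c⁻¹ • s ∈ S` maps to the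
 class of `v`.  So `|S| ≥ |V ⧸ U| = q^(n - dim U) ≥ q^(n-u)` (`Nat.card_le_card_of_surjective`, `Module.natCard_eq_pow_finrank`, `Submodule.finrank_quotient_add_finrank`).
* `count_spaces`: `T ≤ V`, a property `Q` of subspaces; `S := {x | x = 0 ∨ Q (T ⊔ ⟨v⟩) for a (equivalently any) v over x}`.  The nonzero elements of `V ⧸ T` with `Q ((span {x}).comap T.mkQ)`
 number `(q - 1) *` the number of subspaces `U ≥ T`, `dim U = dim T + 1`, `Q U`: the map `x ↦ (span F {x}).comap T.mkQ` has fibres of size `q - 1` (`N1_fiber` in N1.lean, `N1_card_submodule`;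
 fibre over `U`: the nonzero elements of the line `U.map T.mkQ`; `T1_comap_map`, `T1_map_comap`, `T1_finrank` in T1.lean).
-/
open Module Submodule
namespace Pool.Agent.LibGS68
variable {F V : Type*} [Field F] [AddCommGroup V] [Module F V]

theorem count_blocking [Finite F] [FiniteDimensional F V] (S : Set V) (h0 : (0 : V) ∈ S)
    (hsmul : ∀ c : F, ∀ s ∈ S, c • s ∈ S) (u : ℕ)
    (hS : ∀ W : Submodule F V, (∀ x ∈ W, x ∈ S → x = 0) → finrank F W ≤ u) :
    Nat.card F ^ (finrank F V - u) ≤ S.ncard := by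
  classical
  haveI : Finite V := Module.finite_of_finite F
  obtain ⟨U, hU, hmax⟩ := (wellFounded_gt (α := Submodule F V)).has_min
    {W : Submodule F V | ∀ x ∈ W, x ∈ S → x = 0} ⟨⊥, fun x hx _ => (Submodule.mem_bot F).1 hx⟩
  have hU' : ∀ x ∈ U, x ∈ S → x = 0 := hU
  have hsurj : Function.Surjective (fun s : S => U.mkQ (s : V)) := by
    intro y
    obtain ⟨v, rfl⟩ := Submodule.mkQ_surjective U y
    by_cases hv : v ∈ U
    · refine ⟨⟨0, h0⟩, ?_⟩
      change U.mkQ 0 = U.mkQ v
      rw [map_zero, eq_comm, Submodule.mkQ_apply, Submodule.Quotient.mk_eq_zero]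
      exact hv
    · have hlt : U < U ⊔ span F {v} := by
        refine lt_of_le_of_ne le_sup_left fun h => hv ?_
        rw [h]
        exact Submodule.mem_sup_right (Submodule.mem_span_singleton_self v)
      have hnot : ¬ ∀ x ∈ U ⊔ span F {v}, x ∈ S → x = 0 := fun h => hmax _ h hlt
      push Not at hnot
      obtain ⟨x, hx, hxS, hx0⟩ := hnot
      obtain ⟨u', hu', w, hw, rfl⟩ := Submodule.mem_sup.1 hx
      obtain ⟨c, rfl⟩ := Submodule.mem_span_singleton.1 hw
      have hc : c ≠ 0 := by
        rintro rfl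
        rw [zero_smul, add_zero] at hxS hx0
        exact hx0 (hU' u' hu' hxS)
      refine ⟨⟨c⁻¹ • (u' + c • v), hsmul _ _ hxS⟩, ?_⟩
      change U.mkQ (c⁻¹ • (u' + c • v)) = U.mkQ v
      have h1 : U.mkQ u' = 0 := by
        rw [Submodule.mkQ_apply, Submodule.Quotient.mk_eq_zero]
        exact hu'
      rw [map_smul, map_add, h1, zero_add, map_smul, smul_smul, inv_mul_cancel₀ hc, one_smul]
  have h1 : Nat.card (V ⧸ U) ≤ Nat.card S := Nat.card_le_card_of_surjective _ hsurj
  have h2 : Nat.card (V ⧸ U) = Nat.card F ^ finrank F (V ⧸ U) := Module.natCard_eq_pow_finrank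
  have h3 := Submodule.finrank_quotient_add_finrank U
  have h4 : finrank F U ≤ u := hS U hU'
  rw [← Nat.card_coe_set_eq S]
  refine le_trans ?_ h1
  rw [h2]
  exact Nat.pow_le_pow_right Nat.card_pos (by omega)

theorem count_spaces [Finite F] [FiniteDimensional F V] (T : Submodule F V) (Q : Submodule F V → Prop) :
    {x : V ⧸ T | x = 0 ∨ Q ((span F {x}).comap T.mkQ)}.ncard ≤
      {U : Submodule F V | T ≤ U ∧ finrank F U = finrank F T + 1 ∧ Q U}.ncard * (Nat.card F - 1) + 1 := by
  classical
  haveI : Finite V := Module.finite_of_finite F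
  haveI : Finite (V ⧸ T) := Module.finite_of_finite F
  haveI : Finite (Submodule F V) := Finite.of_injective (fun W : Submodule F V => (W : Set V)) SetLike.coe_injective
  let f : V ⧸ T → Submodule F V := fun x => (span F {x}).comap T.mkQ
  let A : Set (V ⧸ T) := {x | x ≠ 0 ∧ Q (f x)}
  have hfinj : ∀ x y, f x = f y → span F {x} = span F {y} := by
    intro x y h
    have := congrArg (Submodule.map T.mkQ) h
    change ((span F {x}).comap T.mkQ).map T.mkQ = ((span F {y}).comap T.mkQ).map T.mkQ at this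
    rwa [T1_map_comap, T1_map_comap] at this
  have hA : A.ncard = (f '' A).ncard * (Nat.card F - 1) := by
    refine N1_fiber A f (Nat.card F - 1) ?_
    rintro a ⟨ha0, haQ⟩
    have e1 : {a' | a' ∈ A ∧ f a' = f a} = ((span F {a} : Submodule F (V ⧸ T)) : Set (V ⧸ T)) \ {0} := by
      ext a'
      constructor
      · rintro ⟨⟨h1, _⟩, h2⟩
        refine ⟨?_, h1⟩
        have h3 := hfinj _ _ h2
        change a' ∈ span F {a}
        rw [← h3]
        exact Submodule.mem_span_singleton_self a'
      · rintro ⟨h1, h2⟩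
        have h2' : a' ≠ 0 := h2
        obtain ⟨c, rfl⟩ := Submodule.mem_span_singleton.1 h1
        have hc : c ≠ 0 := by
          rintro rfl
          exact h2' (zero_smul _ _)
        have h3 : span F {c • a} = span F {a} := Submodule.span_singleton_smul_eq (IsUnit.mk0 c hc) a
        have h4 : f (c • a) = f a := by
          change (span F {c • a}).comap T.mkQ = (span F {a}).comap T.mkQ
          rw [h3]
        refine ⟨⟨h2', ?_⟩, h4⟩
        rw [h4]
        exact haQ
    rw [e1, Set.ncard_diff (by simp), N1_card_submodule, Set.ncard_singleton, finrank_span_singleton ha0, pow_one]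
  have hsub : f '' A ⊆ {U : Submodule F V | T ≤ U ∧ finrank F U = finrank F T + 1 ∧ Q U} := by
    rintro _ ⟨x, ⟨hx0, hxQ⟩, rfl⟩
    refine ⟨T1_le_comap _, ?_, hxQ⟩
    have h1 := T1_finrank (T1_le_comap (span F {x}))
    rw [T1_map_comap, finrank_span_singleton hx0] at h1
    change finrank F ((span F {x}).comap T.mkQ) = _
    omega
  have h1 : {x : V ⧸ T | x = 0 ∨ Q ((span F {x}).comap T.mkQ)} ⊆ insert 0 A := by
    intro x hx
    by_cases hx0 : x = 0
    · exact Set.mem_insert_iff.2 (Or.inl hx0)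
    · refine Set.mem_insert_iff.2 (Or.inr ⟨hx0, ?_⟩)
      rcases hx with h | h
      · exact absurd h hx0
      · exact h
  calc {x : V ⧸ T | x = 0 ∨ Q ((span F {x}).comap T.mkQ)}.ncard ≤ (insert 0 A).ncard :=
        Set.ncard_le_ncard h1 (Set.toFinite _)
    _ ≤ A.ncard + 1 := Set.ncard_insert_le _ _
    _ ≤ _ := by
        rw [hA]
        exact Nat.add_le_add_right (Nat.mul_le_mul_right _ (Set.ncard_le_ncard hsub (Set.toFinite _))) 1

end Pool.Agent.LibGS68
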