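import Pool.Agent.LibGS68.Defs
/-!
Row CH1 (MEDIUM). If `M v = 0` and `M` is injective modulo `⟨v⟩`, then `trace (adj M) ≠ 0`.
Proof.  `v ∉ range M` (if `M x = c v`, then `x ∈ ⟨v⟩` by `hinj`, so `M x = 0`).  `M * adj M = det M = 0` (`det M = 0` as `M v = 0`, `v ≠ 0`), so the columns of `adj M` are killed by `M`, i.e. in `⟨v⟩`:
`adj M = vecMulVec v φ`.  `adj M * M = 0`, so `φ ᵥ* M = 0` (`v ≠ 0`): `φ ⬝ᵥ y = 0` for `y ∈ range M`.  `trace (adj M) = v ⬝ᵥ φ`.
(i) `φ ≠ 0`: choose `i` with `v i ≠ 0` and `j` with `Pi.single j 1 ∉ range M` (range M ≠ ⊤).  `N := M.updateCol i (Pi.single j 1)` has trivial kernel, so `0 ≠ det N = adj M i j`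
   (`Matrix.cramer_apply`, `Matrix.adjugate`, `Matrix.cramer_transpose_apply` / `adjugate_def`).
(ii) if `v ⬝ᵥ φ = 0` then `v ∈ ker φ`; `range M ≤ ker φ`, both of dimension `n - 1` (`ker M = ⟨v⟩`), so `range M = ker φ ∋ v`, contradiction.
-/
open Module Submodule
namespace Pool.Agent.LibGS68
variable {F : Type*} [Field F]

theorem trace_adj_ne_zero {n : ℕ} (M : Matrix (Fin n) (Fin n) F) (v : Fin n → F) (hv : v ≠ 0)
    (hMv : M.mulVec v = 0) (hinj : ∀ x, M.mulVec x ∈ span F {v} → x ∈ span F {v}) :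
    M.adjugate.trace ≠ 0 := by
  obtain ⟨i₀, hi₀⟩ := Function.ne_iff.1 hv
  have hi₀' : v i₀ ≠ 0 := hi₀
  have hdet : M.det = 0 := Matrix.exists_mulVec_eq_zero_iff.1 ⟨v, hv, hMv⟩
  have hcol : ∀ j, ∃ a : F, ∀ i, M.adjugate i j = a * v i := by
    intro j
    have h1 : M.mulVec (fun i => M.adjugate i j) = 0 := by
      funext i
      have h := congrFun (congrFun (Matrix.mul_adjugate M) i) j
      rw [hdet, zero_smul] at h
      exact h
    have h2 := hinj (fun i => M.adjugate i j) (by rw [h1]; exact Submodule.zero_mem _)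
    obtain ⟨a, ha⟩ := Submodule.mem_span_singleton.1 h2
    exact ⟨a, fun i => (congrFun ha i).symm⟩
  choose φ hφ using hcol
  have htr : M.adjugate.trace = ∑ i, φ i * v i := Finset.sum_congr rfl fun i _ => hφ i i
  have hN : (M.updateCol i₀ v).det = v i₀ * ∑ i, φ i * v i := by
    rw [← Matrix.cramer_apply, Matrix.cramer_eq_adjugate_mulVec]
    show ∑ j, M.adjugate i₀ j * v j = _
    rw [Finset.mul_sum]
    refine Finset.sum_congr rfl fun j _ => ?_
    rw [hφ j i₀]
    ring
  intro h0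
  rw [htr] at h0
  rw [h0, mul_zero] at hN
  obtain ⟨x, hx0, hx⟩ := Matrix.exists_mulVec_eq_zero_iff.2 hN
  have h3 : M.mulVec (Function.update x i₀ 0) = (-(x i₀)) • v := by
    funext i
    have h4 : ∑ j, (M.updateCol i₀ v) i j * x j = 0 := congrFun hx i
    show ∑ j, M i j * Function.update x i₀ 0 j = -(x i₀) * v i
    rw [← Finset.add_sum_erase _ _ (Finset.mem_univ i₀)] at h4 ⊢
    rw [Matrix.updateCol_self] at h4
    rw [Function.update_self, mul_zero, zero_add]
    have h5 : ∑ j ∈ Finset.univ.erase i₀, M i j * Function.update x i₀ 0 j =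
        ∑ j ∈ Finset.univ.erase i₀, (M.updateCol i₀ v) i j * x j := by
      refine Finset.sum_congr rfl fun j hj => ?_
      have hne : j ≠ i₀ := Finset.ne_of_mem_erase hj
      rw [Function.update_of_ne hne, Matrix.updateCol_ne hne]
    rw [h5]
    linear_combination h4
  have h6 := hinj (Function.update x i₀ 0) (by
    rw [h3]
    exact Submodule.smul_mem _ _ (Submodule.mem_span_singleton_self v))
  obtain ⟨a, ha⟩ := Submodule.mem_span_singleton.1 h6
  have h7 : a * v i₀ = 0 := by
    have h := congrFun ha i₀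
    rw [Function.update_self] at h
    exact h
  have ha0 : a = 0 := (mul_eq_zero.1 h7).resolve_right hi₀'
  rw [ha0, zero_smul] at ha
  rw [← ha, Matrix.mulVec_zero] at h3
  have h8 : x i₀ = 0 := by
    have h := congrFun h3 i₀
    have h9 : (0 : F) = -(x i₀) * v i₀ := h
    rcases mul_eq_zero.1 h9.symm with h10 | h10
    · exact neg_eq_zero.1 h10
    · exact absurd h10 hi₀'
  apply hx0
  funext j
  by_cases hj : j = i₀
  · rw [hj, h8]
    rfl
  · have h := congrFun ha j
    rw [Function.update_of_ne hj] at h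
    exact h.symm

end Pool.Agent.LibGS68
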