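import Pool.Agent.LibGS68.CH1
import Pool.Agent.LibGS68.A1
/-!
Row CH2 (MEDIUM). Chevalley-Warning.
-/
open Module Submodule
namespace Pool.Agent.LibGS68
variable {F : Type*} [Field F]

theorem adj_degree {n : ℕ} {σ : Type*} (A : Matrix (Fin n) (Fin n) (MvPolynomial σ F))
    (hA : ∀ i j, (A i j).totalDegree ≤ 1) : (A.adjugate.trace).totalDegree ≤ n - 1 := by
  classical
  rw [Matrix.trace]
  refine MvPolynomial.totalDegree_finsetSum_le fun i _ => ?_
  rw [Matrix.diag_apply, Matrix.adjugate_apply, Matrix.det_apply]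
  refine MvPolynomial.totalDegree_finsetSum_le fun τ _ => ?_
  have h0 : ∀ (s : ℤˣ) (p : MvPolynomial σ F), (s • p).totalDegree ≤ p.totalDegree := by
    intro s p
    rcases Int.units_eq_one_or s with rfl | rfl
    · simp
    · simp
  refine (h0 _ _).trans ?_
  refine (MvPolynomial.totalDegree_finsetProd _ _).trans ?_
  have hsplit := Finset.sum_erase_add (Finset.univ : Finset (Fin n))
    (fun j => (A.updateRow i (Pi.single i 1) (τ j) j).totalDegree) (Finset.mem_univ (τ.symm i))
  rw [← hsplit]
  have h1 : (A.updateRow i (Pi.single i 1) (τ (τ.symm i)) (τ.symm i)).totalDegree = 0 := by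
    rw [Equiv.apply_symm_apply, Matrix.updateRow_self, Pi.single_apply]
    split_ifs
    · exact MvPolynomial.totalDegree_one
    · exact MvPolynomial.totalDegree_zero
  rw [h1, add_zero]
  have h2 : ∀ j ∈ (Finset.univ : Finset (Fin n)).erase (τ.symm i),
      (A.updateRow i (Pi.single i 1) (τ j) j).totalDegree ≤ 1 := by
    intro j hj
    have hne : τ j ≠ i := by
      rintro rfl
      simp at hj
    rw [Matrix.updateRow_ne hne]
    exact hA _ _
  refine (Finset.sum_le_card_nsmul _ _ 1 h2).trans ?_
  rw [Finset.card_erase_of_mem (Finset.mem_univ _), Finset.card_univ, Fintype.card_fin]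
  simp

theorem chevalley [Finite F] {W : Type*} [AddCommGroup W] [Module F W] [FiniteDimensional F W]
    (h2 : 2 ≤ finrank F W) (f : W →ₗ[F] W →ₗ[F] W) (hf : ∀ v, f v v = 0) :
    ∃ v x, Ind2 F v x ∧ f v x ∈ span F {v} := by
  classical
  by_contra hcon
  push Not at hcon
  obtain ⟨n, hn⟩ : ∃ n, finrank F W = n := ⟨_, rfl⟩
  let b : Basis (Fin n) F W := finBasisOfFinrankEq F W hn
  let A : Matrix (Fin n) (Fin n) (MvPolynomial (Fin n) F) :=
    fun i j => ∑ l, MvPolynomial.C (b.repr (f (b l) (b j)) i) * MvPolynomial.X l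
  have hA : ∀ i j, (A i j).totalDegree ≤ 1 := by
    intro i j
    refine MvPolynomial.totalDegree_finsetSum_le fun l _ => ?_
    refine (MvPolynomial.totalDegree_mul _ _).trans ?_
    rw [MvPolynomial.totalDegree_C, MvPolynomial.totalDegree_X]
  have hdeg := adj_degree A hA
  have hMat : ∀ c : Fin n → F, (MvPolynomial.eval c).mapMatrix A =
      LinearMap.toMatrix b b (f (∑ l, c l • b l)) := by
    intro c
    ext i j
    rw [RingHom.mapMatrix_apply, Matrix.map_apply, LinearMap.toMatrix_apply]
    simp only [A, map_sum, map_mul, MvPolynomial.eval_C, MvPolynomial.eval_X, map_smul, LinearMap.sum_apply,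
      LinearMap.smul_apply, Finsupp.coe_finset_sum, Finset.sum_apply, Finsupp.smul_apply, smul_eq_mul]
    exact Finset.sum_congr rfl fun l _ => mul_comm _ _
  have hev : ∀ c : Fin n → F, MvPolynomial.eval c A.adjugate.trace =
      (LinearMap.toMatrix b b (f (∑ l, c l • b l))).adjugate.trace := by
    intro c
    rw [← hMat, ← RingHom.map_adjugate, Matrix.trace, Matrix.trace, map_sum]
    rfl
  have hrepr : ∀ x : Fin n → F, x = b.repr (∑ l, x l • b l) := by
    intro x
    ext i
    rw [b.repr_sum_self]
  have hmv : ∀ c x : Fin n → F, (LinearMap.toMatrix b b (f (∑ l, c l • b l))).mulVec x =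
      b.repr (f (∑ l, c l • b l) (∑ l, x l • b l)) := by
    intro c x
    conv_lhs => rw [hrepr x]
    rw [LinearMap.toMatrix_mulVec_repr]
  have hzero : ∀ c : Fin n → F, MvPolynomial.eval c A.adjugate.trace = 0 ↔ c = 0 := by
    intro c
    constructor
    · intro h
      by_contra hc
      rw [hev] at h
      refine trace_adj_ne_zero _ c hc ?_ ?_ h
      · rw [hmv, hf, map_zero]
        rfl
      · intro x hx
        by_contra hxc
        have e := hrepr x
        have e' := hrepr c
        have hv : (∑ l, c l • b l) ≠ 0 := by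
          intro h0
          apply hc
          rw [e', h0, map_zero]
          rfl
        apply hcon (∑ l, c l • b l) (∑ l, x l • b l)
        · refine ind2_iff.2 ⟨hv, fun hm => hxc ?_⟩
          obtain ⟨a, ha⟩ := mem_span_singleton.1 hm
          rw [mem_span_singleton]
          refine ⟨a, ?_⟩
          rw [e, ← ha, map_smul, Finsupp.coe_smul, ← e']
        · obtain ⟨a, ha⟩ := mem_span_singleton.1 hx
          rw [mem_span_singleton]
          refine ⟨a, ?_⟩
          apply b.repr.injective
          apply DFunLike.coe_injective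
          rw [map_smul, Finsupp.coe_smul, ← e', ha, hmv]
    · rintro rfl
      rw [hev]
      have e : (∑ l, (0 : Fin n → F) l • b l) = 0 := by simp
      rw [e, map_zero, map_zero]
      haveI : Nontrivial (Fin n) := Fin.nontrivial_iff_two_le.2 (hn ▸ h2)
      rw [Matrix.adjugate_zero, Matrix.trace_zero]
  haveI : Fintype F := Fintype.ofFinite F
  obtain ⟨p, hp⟩ := CharP.exists F
  haveI := hp
  haveI : Fact p.Prime := ⟨CharP.char_is_prime F p⟩
  have hcard := char_dvd_card_solutions p (f := A.adjugate.trace) (by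
    rw [Fintype.card_fin]
    omega)
  have h1 : Fintype.card {x : Fin n → F // MvPolynomial.eval x A.adjugate.trace = 0} = 1 := by
    rw [Fintype.card_eq_one_iff]
    refine ⟨⟨0, (hzero 0).2 rfl⟩, fun y => Subtype.ext ((hzero _).1 y.2)⟩
  rw [h1] at hcard
  exact (Fact.out : p.Prime).one_lt.not_ge (Nat.le_of_dvd one_pos hcard)

end Pool.Agent.LibGS68
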