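import Pool.Agent.LibGS68.A3
/-!
Row PO: `|F| = 2`: `polar`, `quad3`.
-/
open Module Submodule
namespace Pool.Agent.LibGS68
variable {F V : Type*} [Field F] [AddCommGroup V] [Module F V]

theorem PO_two (h2 : ∀ t : F, t = 0 ∨ t = 1) (v : V) : v + v = 0 := by
  have h11 : (1 : F) + 1 = 0 := by
    rcases h2 (1 + 1) with h | h
    · exact h
    · exfalso
      have h1 : (1 : F) = 0 := by simpa using h
      exact one_ne_zero h1
  have : ((1 : F) + 1) • v = 0 := by rw [h11, zero_smul]
  rwa [add_smul, one_smul] at this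

theorem polar [FiniteDimensional F V] (h4 : 4 ≤ finrank F V) (h2 : ∀ t : F, t = 0 ∨ t = 1)
    (f : V →ₗ[F] V →ₗ[F] V) (hf : ∀ v, v ≠ 0 → ∀ x, f v (f v x) + f v x + x ∈ span F {v}) : False := by
  have htwo : ∀ v : V, v + v = 0 := PO_two h2
  -- {a,b} x + x ∈ ⟨a,b⟩
  have key : ∀ a b : V, Ind2 F a b → ∀ x, f a (f b x) + f b (f a x) + x ∈ span F {a, b} := by
    intro a b hab x
    have ha : a ≠ 0 := (ind2_iff.1 hab).1
    have hb : b ≠ 0 := (ind2_iff.1 hab.symm).1
    have hs : a + b ≠ 0 := by
      intro h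
      exact one_ne_zero (hab 1 1 (by simpa using h)).1
    have ma : a ∈ span F {a, b} := subset_span (by simp)
    have mb : b ∈ span F {a, b} := subset_span (by simp)
    have e1 := (span_singleton_le_iff_mem _ _).2 ma (hf a ha x)
    have e2 := (span_singleton_le_iff_mem _ _).2 mb (hf b hb x)
    have e3 := (span_singleton_le_iff_mem _ _).2 (add_mem ma mb) (hf (a + b) hs x)
    have := sub_mem (sub_mem e3 e1) e2
    have e : f (a + b) (f (a + b) x) + f (a + b) x + x - (f a (f a x) + f a x + x) - (f b (f b x) + f b x + x) =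
        (f a (f b x) + f b (f a x) + x) - (x + x) := by
      simp only [map_add, LinearMap.add_apply]; abel
    rw [e, htwo, sub_zero] at this
    exact this
  -- three independent vectors and a fourth one
  obtain ⟨a, ha⟩ : ∃ a : V, a ≠ 0 := (Module.finrank_pos_iff_exists_ne_zero (R := F) (M := V)).1 (by omega)
  obtain ⟨b, -, hb⟩ := A3_exists_notMem (S := (⊤ : Submodule F V)) (T := span F {a})
    (by rw [finrank_span_singleton ha, finrank_top]; omega)
  have hab : Ind2 F a b := ind2_iff.2 ⟨ha, hb⟩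
  obtain ⟨c, -, hc⟩ := A3_exists_notMem (S := (⊤ : Submodule F V)) (T := span F {a, b})
    (by rw [finrank_span2 hab, finrank_top]; omega)
  have habc : Ind3 F a b c := ind3_iff.2 ⟨hab, hc⟩
  obtain ⟨x, -, hx⟩ := A3_exists_notMem (S := (⊤ : Submodule F V)) (T := span F {a, b, c})
    (by rw [finrank_span3 habc, finrank_top]; omega)
  apply hx
  have ma : a ∈ span F {a, b, c} := subset_span (by simp)
  have mb : b ∈ span F {a, b, c} := subset_span (by simp)
  have mc : c ∈ span F {a, b, c} := subset_span (by simp)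
  have habc' : Ind2 F a (b + c) := fun s t h => by
    obtain ⟨h1, h2, h3⟩ := habc s t t (by rw [← h]; module)
    exact ⟨h1, h2⟩
  have le2 : ∀ u v : V, u ∈ span F {a, b, c} → v ∈ span F {a, b, c} → span F {u, v} ≤ span F {a, b, c} := by
    intro u v hu hv
    rw [span_le]
    rintro w (rfl | rfl) <;> assumption
  have e1 := le2 _ _ ma mb (key a b hab x)
  have e2 := le2 _ _ ma mc (key a c habc.ind13 x)
  have e3 := le2 _ _ ma (add_mem mb mc) (key a (b + c) habc' x)
  have := sub_mem (add_mem e1 e2) e3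
  have e : f a (f b x) + f b (f a x) + x + (f a (f c x) + f c (f a x) + x) -
      (f a (f (b + c) x) + f (b + c) (f a x) + x) = x := by
    simp only [map_add, LinearMap.add_apply]; abel
  rwa [e] at this

theorem quad3 [FiniteDimensional F V] {D : Set (Submodule F V)} (hD : IsSteiner 2 3 D) (hn : 3 < finrank F V)
    (h2 : ∀ t : F, t = 0 ∨ t = 1) {x : V} (hx : x ≠ 0) {a : V →ₗ[F] V} (ha : a ∈ Ker D x) (has : ¬ ScalarAt x a) :
    ∀ y, a (a y) + a y + y ∈ span F {x} := by
  have htwo : ∀ v : V, v + v = 0 := PO_two h2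
  intro y
  have hax : ∀ u ∈ span F {x}, a u ∈ span F {x} := by
    intro u hu
    obtain ⟨c, rfl⟩ := mem_span_singleton.1 hu
    rw [map_smul]
    exact Submodule.smul_mem _ _ ha.1
  by_cases hy : y ∈ span F {x}
  · exact add_mem (add_mem (hax _ (hax _ hy)) (hax _ hy)) hy
  have hxy : Ind2 F x y := ind2_iff.2 ⟨hx, hy⟩
  obtain ⟨B, hB, hxB, hyB⟩ := exists_block hD hxy
  have hay : a y ∉ span F {x, y} := fun h => has (scalar_of hD hn hxy ha h)
  have h3 : Ind3 F x y (a y) := ind3_iff.2 ⟨hxy, hay⟩
  have hayB : a y ∈ B := ha.2 B hB hxB y hyB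
  have hspan : span F {x, y, a y} = B := by
    apply Submodule.eq_of_le_of_finrank_eq
    · rw [span_le]
      rintro v (rfl | rfl | rfl) <;> assumption
    · rw [finrank_span3 h3, hD.1 B hB]
  have haay : a (a y) ∈ span F {x, y, a y} := by
    rw [hspan]; exact ha.2 B hB hxB _ hayB
  obtain ⟨s, v, hv, h1⟩ := mem_span_insert.1 haay
  obtain ⟨t, u, rfl⟩ := mem_span_pair.1 hv
  have mx : ∀ c : F, c • x ∈ span F {x} := fun c => Submodule.smul_mem _ _ (mem_span_singleton_self x)
  rcases h2 u with rfl | rfl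
  · exfalso
    rcases h2 t with rfl | rfl
    · -- a (a y) ∈ ⟨x⟩
      have h5 : a (a y) ∈ span F {x} := by
        rw [h1]; simpa using mx s
      exact has ⟨0, fun w => by simpa using p4 hD hn h3.ind13 ha h5 w⟩
    · -- a (y + a y) = y + a y mod x
      have h6 : Ind2 F x (y + a y) := fun p q hpq => by
        obtain ⟨r1, r2, r3⟩ := h3 p q q (by rw [← hpq]; module)
        exact ⟨r1, r2⟩
      apply has
      refine scalar_of hD hn h6 ha ?_
      rw [mem_span_pair]
      exact ⟨s, 1, by rw [map_add, h1]; module⟩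
  · rcases h2 t with rfl | rfl
    · exfalso
      apply has
      refine scalar_of hD hn h3.ind13 ha ?_
      rw [mem_span_pair]
      exact ⟨s, 1, by rw [h1]; module⟩
    · rw [h1]
      have e : s • x + ((1 : F) • y + (1 : F) • a y) + a y + y = s • x + (y + y) + (a y + a y) := by
        rw [one_smul, one_smul]; abel
      rw [e, htwo, htwo, add_zero, add_zero]
      exact mx s

end Pool.Agent.LibGS68
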