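import Pool.Agent.LibGS68.MU3
import Pool.Agent.LibGS68.PO
/-!
Row MU2: `|F| = 2`.
-/
open Module Submodule
namespace Pool.Agent.LibGS68
variable {F : Type*} [Field F]

theorem mu_two {W V : Type*} [AddCommGroup W] [Module F W] [AddCommGroup V] [Module F V] [FiniteDimensional F W]
    (ι : W →ₗ[F] V) (hι : Function.Injective ι) (h3 : 3 ≤ finrank F W) (f : W →ₗ[F] W →ₗ[F] V)
    (hf : ∀ v, f v v ∈ span F {ι v}) (h2 : ∀ t : F, t = 0 ∨ t = 1) :
    ∃ (μ : W →ₗ[F] F) (κ : F), ∀ v, f v v = (μ v + κ) • ι v := by
  classical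
  obtain ⟨m, hm, hms, hmD⟩ := MU_exists ι hι f hf
  have htwo : ∀ c : F, c + c = 0 := fun c => PO_two h2 c
  have hneg : ∀ c : F, -c = c := fun c => by rw [neg_eq_iff_add_eq_zero, htwo]
  have hsub : ∀ a b : F, a - b = a + b := fun a b => by rw [sub_eq_add_neg, hneg]
  -- the relation on independent triples
  have rel : ∀ x y w, Ind3 F x y w → m (x + (y + w)) = m (x + y) + m (x + w) + m x := by
    intro x y w h
    have i1 : Ind2 F x (y + w) := fun a b hab => by
      obtain ⟨r1, r2, r3⟩ := h a b b (by rw [← hab]; module)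
      exact ⟨r1, r2⟩
    have e1 := hmD x (y + w) i1
    have e2 := hmD x y h.ind12
    have e3 := hmD x w h.ind13
    have e : f x (y + w) + f (y + w) x = (f x y + f y x) + (f x w + f w x) := by
      rw [map_add, map_add, LinearMap.add_apply]; abel
    rw [e, e2, e3, map_add] at e1
    have e4 : ((m (x + y) - m x) + (m (x + w) - m x) - (m (x + (y + w)) - m x)) • ι x +
        ((m (x + y) - m y) - (m (x + (y + w)) - m (y + w))) • ι y +
        ((m (x + w) - m w) - (m (x + (y + w)) - m (y + w))) • ι w = 0 := by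
      have := sub_eq_zero.2 e1
      rw [← this]; module
    have h3' : Ind3 F (ι x) (ι y) (ι w) := fun a b c habc =>
      h a b c (hι (by rw [map_add, map_add, map_smul, map_smul, map_smul, habc, map_zero]))
    obtain ⟨r1, -, -⟩ := h3' _ _ _ e4
    linear_combination -r1 - htwo (m x)
  -- κ(x, w) is constant on triples
  have kap : ∀ x y w, Ind3 F x y w → m (x + w) + m x + m w = m (y + w) + m y + m w := by
    intro x y w h
    have e1 := rel x y w h
    have e2 := rel y x w h.swap12
    have e : x + (y + w) = y + (x + w) := by abel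
    rw [e, e2, add_comm y x] at e1
    have := htwo (m (x + y))
    linear_combination -e1
  -- an independent pair
  obtain ⟨a, ha⟩ : ∃ a : W, a ≠ 0 := (Module.finrank_pos_iff_exists_ne_zero (R := F) (M := W)).1 (by omega)
  obtain ⟨b, -, hb⟩ := A3_exists_notMem (S := (⊤ : Submodule F W)) (T := span F {a})
    (by rw [finrank_span_singleton ha, finrank_top]; omega)
  have hab : Ind2 F a b := ind2_iff.2 ⟨ha, hb⟩
  set κ : F := m (a + b) + m a + m b with hκ
  -- k x y = κ whenever x, y independent
  have sym : ∀ x y, m (x + y) + m x + m y = m (y + x) + m y + m x := fun x y => by rw [add_comm x y]; ring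
  -- connect through a common vector
  have step : ∀ x y w, w ≠ 0 → x ∉ span F {w} → y ∉ span F {w} →
      m (x + w) + m x + m w = m (y + w) + m y + m w := by
    intro x y w hw hx hy
    have iwx : Ind2 F w x := ind2_iff.2 ⟨hw, hx⟩
    have iwy : Ind2 F w y := ind2_iff.2 ⟨hw, hy⟩
    by_cases hyx : y ∈ span F {w, x}
    · obtain ⟨z, -, hz⟩ := A3_exists_notMem (S := (⊤ : Submodule F W)) (T := span F {w, x})
        (by rw [finrank_span2 iwx, finrank_top]; omega)
      have i3 : Ind3 F w x z := ind3_iff.2 ⟨iwx, hz⟩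
      have hz' : z ∉ span F {w, y} := fun h => hz (by
        have : span F {w, y} ≤ span F {w, x} := by
          rw [span_le]
          rintro v (rfl | rfl)
          · exact subset_span (by simp)
          · exact hyx
        exact this h)
      have i3' : Ind3 F w y z := ind3_iff.2 ⟨iwy, hz'⟩
      rw [kap x z w i3.swap12.swap23, kap y z w i3'.swap12.swap23]
    · have i3 : Ind3 F w x y := ind3_iff.2 ⟨iwx, hyx⟩
      exact kap x y w i3.swap12.swap23
  have const : ∀ x y, Ind2 F x y → m (x + y) + m x + m y = κ := by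
    intro x y hxy
    have hx0 := (ind2_iff.1 hxy).1
    have hy0 := (ind2_iff.1 hxy.symm).1
    have hb0 := (ind2_iff.1 hab.symm).1
    -- a vector c outside ⟨y⟩ and ⟨b⟩
    obtain ⟨c, hcy, hcb⟩ : ∃ c : W, c ∉ span F {y} ∧ c ∉ span F {b} := by
      by_cases hby : b ∈ span F {y}
      · have : span F {b} ≤ span F {y} := by rw [span_singleton_le_iff_mem]; exact hby
        exact ⟨x, (ind2_iff.1 hxy.symm).2, fun h => (ind2_iff.1 hxy.symm).2 (this h)⟩
      · obtain ⟨z, -, hz⟩ := A3_exists_notMem (S := (⊤ : Submodule F W)) (T := span F {y, b})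
          (by rw [finrank_span2 (ind2_iff.2 ⟨hy0, hby⟩), finrank_top]; omega)
        exact ⟨z, fun h => hz (span_mono (by simp) h), fun h => hz (span_mono (by simp) h)⟩
    have hc0 : c ≠ 0 := by rintro rfl; exact hcy (zero_mem _)
    have hyc : y ∉ span F {c} := fun h => by
      have : Ind2 F c y := (ind2_iff.2 ⟨hy0, hcy⟩).symm
      exact (ind2_iff.1 this).2 h
    have hbc : b ∉ span F {c} := fun h => by
      have : Ind2 F c b := (ind2_iff.2 ⟨hb0, hcb⟩).symm
      exact (ind2_iff.1 this).2 h
    calc m (x + y) + m x + m y = m (c + y) + m c + m y := step x c y hy0 (ind2_iff.1 hxy.symm).2 hcy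
      _ = m (y + c) + m y + m c := sym c y
      _ = m (b + c) + m b + m c := step y b c hc0 hyc hbc
      _ = m (c + b) + m c + m b := sym b c
      _ = m (a + b) + m a + m b := step c a b hb0 hcb (ind2_iff.1 hab.symm).2
  have hm0 : m 0 = 0 := by
    have := hms 0 (0 : W)
    simpa using this
  let μ0 : W → F := fun v => if v = 0 then 0 else m v + κ
  have hμ0 : ∀ v, v ≠ 0 → μ0 v = m v + κ := fun v hv => by simp [μ0, hv]
  have hμz : μ0 0 = 0 := by simp [μ0]
  have hself : ∀ v : W, v + v = 0 := PO_two h2
  have hadd : ∀ x y, μ0 (x + y) = μ0 x + μ0 y := by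
    intro x y
    by_cases hx : x = 0
    · rw [hx, zero_add, hμz, zero_add]
    by_cases hy : y = 0
    · rw [hy, add_zero, hμz, add_zero]
    by_cases hxy : Ind2 F x y
    · have hs : x + y ≠ 0 := fun h => one_ne_zero (hxy 1 1 (by simpa using h)).1
      rw [hμ0 _ hs, hμ0 _ hx, hμ0 _ hy]
      have e1 := const x y hxy
      have e2 := htwo (m x)
      have e3 := htwo (m y)
      have e4 := htwo κ
      linear_combination e1 - e2 - e3
    · rw [ind2_iff] at hxy
      push Not at hxy
      obtain ⟨c, hc⟩ := mem_span_singleton.1 (hxy hx)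
      rcases h2 c with rfl | rfl
      · exact absurd (by rw [← hc, zero_smul]) hy
      · rw [one_smul] at hc
        subst hc
        rw [hself, hμz, htwo]
  refine ⟨{ toFun := μ0, map_add' := hadd, map_smul' := fun c v => ?_ }, κ, fun v => ?_⟩
  · rcases h2 c with rfl | rfl
    · simp [hμz]
    · simp
  · change f v v = (μ0 v + κ) • ι v
    by_cases hv : v = 0
    · subst hv; simp
    · rw [hμ0 v hv, add_assoc, htwo, add_zero, hm v]

end Pool.Agent.LibGS68
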