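import Pool.Agent.LibGS68.A1
/-!
Row MU3.
-/
open Module Submodule
namespace Pool.Agent.LibGS68
variable {F : Type*} [Field F]

/-- the multiplier function `m` -/
theorem MU_exists {W V : Type*} [AddCommGroup W] [Module F W] [AddCommGroup V] [Module F V]
    (ι : W →ₗ[F] V) (hι : Function.Injective ι) (f : W →ₗ[F] W →ₗ[F] V) (hf : ∀ v, f v v ∈ span F {ι v}) :
    ∃ m : W → F, (∀ v, f v v = m v • ι v) ∧ (∀ (c : F) v, m (c • v) = c * m v) ∧
      (∀ x y, Ind2 F x y → f x y + f y x = (m (x + y) - m x) • ι x + (m (x + y) - m y) • ι y) := by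
  classical
  have h1 : ∀ v, ∃ c : F, f v v = c • ι v := fun v => by
    obtain ⟨c, hc⟩ := mem_span_singleton.1 (hf v)
    exact ⟨c, hc.symm⟩
  choose m0 hm0 using h1
  let m : W → F := fun v => if v = 0 then 0 else m0 v
  have hm : ∀ v, f v v = m v • ι v := fun v => by
    by_cases hv : v = 0
    · simp [hv]
    · simp only [m, hv, if_false]; exact hm0 v
  have hinj : ∀ v : W, v ≠ 0 → ι v ≠ 0 := fun v hv h => hv (hι (by rw [h, map_zero]))
  have huniq : ∀ v : W, v ≠ 0 → ∀ c : F, f v v = c • ι v → c = m v := fun v hv c hc => by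
    have h2 : (c - m v) • ι v = 0 := by rw [sub_smul, ← hc, ← hm v, sub_self]
    rcases smul_eq_zero.1 h2 with h | h
    · exact sub_eq_zero.1 h
    · exact absurd h (hinj v hv)
  refine ⟨m, hm, fun c v => ?_, fun x y _ => ?_⟩
  · by_cases hv : v = 0
    · simp [hv, m]
    by_cases hc : c = 0
    · simp [hc, m]
    symm
    apply huniq (c • v) (smul_ne_zero hc hv)
    simp only [map_smul, LinearMap.smul_apply, hm v, smul_smul]
    congr 1; ring
  · have h3 := hm (x + y)
    simp only [map_add, LinearMap.add_apply] at h3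
    rw [hm x, hm y] at h3
    have e : f x y + f y x = (m x • ι x + f y x + (f x y + m y • ι y)) - m x • ι x - m y • ι y := by abel
    rw [e, h3]; module

theorem MU_ind_image {W V : Type*} [AddCommGroup W] [Module F W] [AddCommGroup V] [Module F V]
    (ι : W →ₗ[F] V) (hι : Function.Injective ι) {x y : W} (h : Ind2 F x y) : Ind2 F (ι x) (ι y) := fun a b hab =>
  h a b (hι (by rw [map_add, map_smul, map_smul, hab, map_zero]))

theorem mu_three {W V : Type*} [AddCommGroup W] [Module F W] [AddCommGroup V] [Module F V] [FiniteDimensional F W]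
    (ι : W →ₗ[F] V) (hι : Function.Injective ι) (f : W →ₗ[F] W →ₗ[F] V) (hf : ∀ v, f v v ∈ span F {ι v})
    (t : F) (ht0 : t ≠ 0) (ht1 : t ≠ 1) : ∃ μ : W →ₗ[F] F, ∀ v, f v v = μ v • ι v := by
  obtain ⟨m, hm, hms, hmD⟩ := MU_exists ι hι f hf
  have hadd : ∀ x y, m (x + y) = m x + m y := by
    intro x y
    by_cases hxy : Ind2 F x y
    · have h1 := hmD x y hxy
      have hxty : Ind2 F x (t • y) := fun a b hab => by
        obtain ⟨r1, r2⟩ := hxy a (b * t) (by rw [← hab, smul_smul])
        exact ⟨r1, (mul_eq_zero.1 r2).resolve_right ht0⟩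
      have h2 := hmD x (t • y) hxty
      have e : f x (t • y) + f (t • y) x = t • (f x y + f y x) := by
        rw [map_smul, map_smul, LinearMap.smul_apply, smul_add]
      rw [e, h1, hms t y, map_smul] at h2
      have h3 : (t * (m (x + y) - m x) - (m (x + t • y) - m x)) • ι x +
          (t * (m (x + y) - m y) - (m (x + t • y) - t * m y) * t) • ι y = 0 := by
        have h4 : t • ((m (x + y) - m x) • ι x + (m (x + y) - m y) • ι y) -
            ((m (x + t • y) - m x) • ι x + (m (x + t • y) - t * m y) • t • ι y) = 0 := sub_eq_zero.2 h2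
        rw [← h4]; module
      obtain ⟨r1, r2⟩ := MU_ind_image ι hι hxy _ _ h3
      have r2' : (m (x + y) - m y) - (m (x + t • y) - t * m y) = 0 := by
        apply (mul_eq_zero.1 (show t * ((m (x + y) - m y) - (m (x + t • y) - t * m y)) = 0 by linear_combination r2)).resolve_left ht0
      have h5 : (t - 1) * (m (x + y) - m x - m y) = 0 := by linear_combination r1 - r2'
      have := (mul_eq_zero.1 h5).resolve_left (sub_ne_zero.2 ht1)
      linear_combination this
    · rw [ind2_iff] at hxy
      push Not at hxy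
      by_cases hx : x = 0
      · have h0 : m 0 = 0 := by
          have := hms 0 (0 : W)
          simpa using this
        rw [hx, zero_add, h0, zero_add]
      · obtain ⟨c, rfl⟩ := mem_span_singleton.1 (hxy hx)
        rw [hms, show x + c • x = (1 + c) • x by rw [add_smul, one_smul], hms]
        ring
  exact ⟨{ toFun := m, map_add' := hadd, map_smul' := fun c v => by simpa using hms c v }, hm⟩

end Pool.Agent.LibGS68
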