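import Pool.Agent.LibGS68.PA1
/-!
Row PA2 (HARD). `patch`: from (A) to a bilinear map.
Let `b : Basis (Fin n) F W`, `n = finrank ≥ 4`, `eᵢ = b i`.
1. For `v ∉ ⟨eᵢ⟩` there is a unique `cᵢ(v)` with `J v eᵢ + J eᵢ v - cᵢ(v) ι eᵢ ∈ ⟨ι v⟩` (from `hA v eᵢ`).
2. `c_linear`: for `i ≠ j` there is a functional `α i j` with `cᵢ(v) - cⱼ(v) = α i j v` for `v ∉ ⟨eᵢ,eⱼ⟩`.
3. `α i j + α j l = α i l` for distinct `i, j, l`: both sides agree at every `v` outside the three planes `⟨eᵢ,eⱼ⟩, ⟨eⱼ,e_l⟩, ⟨eᵢ,e_l⟩`; with `s ∉ {i,j,l}` (`n ≥ 4`)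
   the vectors `e_s` and `e_s + u` are outside for every `u ∈ ⟨eᵢ,eⱼ,e_l⟩`, more generally every `v` with nonzero `s`-coordinate; these span `W` (linear maps agreeing on
   `{v | b.coord s v ≠ 0}` agree: `v = (v + e_s) - e_s` or so).  Also `α j i = - α i j` in the same way.
4. Put `β i = α i 0` (`i ≠ 0`), `β 0 = 0`: `α i j = β i - β j` for all `i ≠ j`.
5. `f v x = - J₀(x) v + Σ i, (β i v * b.coord i x) • ι eᵢ` where `J₀(x) = Σ i, b.coord i x • J eᵢ` : bilinear.
6. Let `v ≠ 0`.  For `i, j` with `v ∉ ⟨eᵢ⟩, ⟨eⱼ⟩`, `i ≠ j`: `β i v - cᵢ(v) = β j v - cⱼ(v)` (if `v ∉ ⟨eᵢ,eⱼ⟩` by 2 and 4; if `v ∈ ⟨eᵢ,eⱼ⟩` then both coordinates are nonzero; choose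
   `l ≠ i, j`; `v ∉ ⟨eᵢ,e_l⟩, ⟨eⱼ,e_l⟩, ⟨e_l⟩` and go through `l`).  Let `ν` be the common value.  For `i` with `v ∉ ⟨eᵢ⟩`:
   `f v eᵢ - J v eᵢ - ν ι eᵢ = -(J eᵢ v + J v eᵢ - cᵢ(v) ι eᵢ) + (β i v - cᵢ(v) - ν) ι eᵢ ∈ ⟨ι v⟩`.
   For `i` with `v = c eᵢ`: `f v eᵢ ∈ ⟨ι eᵢ⟩`, `J v eᵢ = c⁻¹ J v v ∈ ⟨ι v⟩` by `h0`, fine.  By linearity in `x` done.
-/
open Module Submodule
namespace Pool.Agent.LibGS68
variable {F : Type*} [Field F]

private theorem PA2_exists_not {n : ℕ} (h4 : 4 ≤ n) (i j l : Fin n) :
    ∃ s : Fin n, s ≠ i ∧ s ≠ j ∧ s ≠ l := by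
  classical
  by_contra hcon
  push Not at hcon
  have h1 : (Finset.univ : Finset (Fin n)) ⊆ {i, j, l} := by
    intro s _
    by_cases h : s = i
    · simp [h]
    · by_cases h' : s = j
      · simp [h']
      · simp [hcon s h h']
  have h2 := Finset.card_le_card h1
  have h3 : ({i, j, l} : Finset (Fin n)).card ≤ 3 := Finset.card_le_three
  rw [Finset.card_univ, Fintype.card_fin] at h2
  omega

private theorem PA2_coord_pair {W : Type*} [AddCommGroup W] [Module F W] {n : ℕ}
    (b : Basis (Fin n) F W) {i j s : Fin n} (hi : s ≠ i) (hj : s ≠ j) {v : W}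
    (hv : v ∈ span F {b i, b j}) : b.coord s v = 0 := by
  obtain ⟨x, y, rfl⟩ := mem_span_pair.1 hv
  simp [Basis.coord_apply, Finsupp.single_apply, hi.symm, hj.symm]

private theorem PA2_agree {W : Type*} [AddCommGroup W] [Module F W] {n : ℕ}
    (b : Basis (Fin n) F W) (s : Fin n) (g : W →ₗ[F] F)
    (h : ∀ v, b.coord s v ≠ 0 → g v = 0) : g = 0 := by
  ext v
  by_cases hv : b.coord s v = 0
  · have h1 : b.coord s (v + b s) ≠ 0 := by
      rw [map_add, hv, Basis.coord_apply, Basis.repr_self]
      simp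
    have h2 : b.coord s (b s) ≠ 0 := by
      rw [Basis.coord_apply, Basis.repr_self]
      simp
    have h3 := h _ h1
    rw [map_add, h _ h2, add_zero] at h3
    simpa using h3
  · simpa using h v hv

theorem patch {W V : Type*} [AddCommGroup W] [Module F W] [AddCommGroup V] [Module F V] [FiniteDimensional F W]
    (ι : W →ₗ[F] V) (hι : Function.Injective ι) (h4 : 4 ≤ finrank F W) (J : W → (W →ₗ[F] V))
    (hA : ∀ x y, J x y + J y x ∈ span F {ι x, ι y}) (h0 : ∀ x, J x x ∈ span F {ι x}) :
    ∃ f : W →ₗ[F] W →ₗ[F] V, ∀ v, v ≠ 0 → ∃ ν : F, ∀ x, f v x - J v x - ν • ι x ∈ span F {ι v} := by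
  classical
  set n := finrank F W with hn
  let b : Basis (Fin n) F W := Module.finBasis F W
  -- the numbers `c v i`
  have hex : ∀ (v : W) (i : Fin n), ∃ c : F, J v (b i) + J (b i) v - c • ι (b i) ∈ span F {ι v} := by
    intro v i
    obtain ⟨x, y, hxy⟩ := mem_span_pair.1 (hA v (b i))
    refine ⟨y, ?_⟩
    rw [← hxy, add_sub_cancel_right]
    exact Submodule.smul_mem _ _ (mem_span_singleton_self _)
  choose c hc using hex
  have hind : ∀ i j : Fin n, i ≠ j → Ind2 F (b i) (b j) := by
    intro i j hij x y hxy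
    have h1 := congrArg (b.coord i) hxy
    have h2 := congrArg (b.coord j) hxy
    simp only [map_add, map_smul, Basis.coord_apply, Basis.repr_self, Finsupp.single_apply,
      smul_eq_mul, map_zero] at h1 h2
    constructor
    · simpa [hij.symm] using h1
    · simpa [hij] using h2
  have hex2 : ∀ i j : Fin n, ∃ α : W →ₗ[F] F, i ≠ j → ∀ v, v ∉ span F {b i, b j} →
      c v i - c v j = α v := by
    intro i j
    by_cases hij : i = j
    · exact ⟨0, fun h => absurd hij h⟩
    · obtain ⟨α, hα⟩ := c_linear ι hι J hA (hind i j hij)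
      exact ⟨α, fun _ v hv => hα v hv _ _ (hc v i) (hc v j)⟩
  choose α hα using hex2
  have hneg : ∀ i j : Fin n, i ≠ j → α j i = - α i j := by
    intro i j hij
    obtain ⟨s, hsi, hsj, _⟩ := PA2_exists_not h4 i j j
    have h1 : α j i + α i j = 0 := by
      apply PA2_agree b s
      intro v hv
      have h2 : v ∉ span F {b i, b j} := fun h => hv (PA2_coord_pair b hsi hsj h)
      have h3 : v ∉ span F {b j, b i} := fun h => hv (PA2_coord_pair b hsj hsi h)
      rw [LinearMap.add_apply, ← hα i j hij v h2, ← hα j i hij.symm v h3]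
      ring
    exact eq_neg_of_add_eq_zero_left h1
  have hadd : ∀ i j l : Fin n, i ≠ j → j ≠ l → i ≠ l → α i j + α j l = α i l := by
    intro i j l hij hjl hil
    obtain ⟨s, hsi, hsj, hsl⟩ := PA2_exists_not h4 i j l
    have h1 : α i j + α j l - α i l = 0 := by
      apply PA2_agree b s
      intro v hv
      have h2 : v ∉ span F {b i, b j} := fun h => hv (PA2_coord_pair b hsi hsj h)
      have h3 : v ∉ span F {b j, b l} := fun h => hv (PA2_coord_pair b hsj hsl h)
      have h5 : v ∉ span F {b i, b l} := fun h => hv (PA2_coord_pair b hsi hsl h)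
      rw [LinearMap.sub_apply, LinearMap.add_apply, ← hα i j hij v h2, ← hα j l hjl v h3,
        ← hα i l hil v h5]
      ring
    exact sub_eq_zero.1 h1
  let z : Fin n := ⟨0, by omega⟩
  let β : Fin n → (W →ₗ[F] F) := fun i => if i = z then 0 else α i z
  have hβ : ∀ i j : Fin n, i ≠ j → α i j = β i - β j := by
    intro i j hij
    by_cases hi : i = z
    · by_cases hj : j = z
      · exact absurd (hi.trans hj.symm) hij
      · simp only [β, if_pos hi, if_neg hj, zero_sub]
        rw [hi]
        exact hneg j z hj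
    · by_cases hj : j = z
      · simp only [β, if_neg hi, if_pos hj, sub_zero]
        rw [hj]
      · simp only [β, if_neg hi, if_neg hj]
        rw [← hadd i z j hi (Ne.symm hj) hij, hneg j z hj]
        abel
  -- the common value
  have hG : ∀ i j : Fin n, i ≠ j → ∀ v, v ∉ span F {b i, b j} →
      β i v - c v i = β j v - c v j := by
    intro i j hij v hv
    have h1 := hα i j hij v hv
    rw [hβ i j hij, LinearMap.sub_apply] at h1
    linear_combination -h1
  have hH : ∀ i j : Fin n, ∀ v, v ∉ span F {b i} → v ∉ span F {b j} →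
      β i v - c v i = β j v - c v j := by
    intro i j v hvi hvj
    by_cases hij : i = j
    · rw [hij]
    by_cases hv : v ∈ span F {b i, b j}
    · obtain ⟨x, y, hxy⟩ := mem_span_pair.1 hv
      have hx : x ≠ 0 := by
        rintro rfl
        apply hvj
        rw [← hxy, zero_smul, zero_add]
        exact Submodule.smul_mem _ _ (mem_span_singleton_self _)
      have hy : y ≠ 0 := by
        rintro rfl
        apply hvi
        rw [← hxy, zero_smul, add_zero]
        exact Submodule.smul_mem _ _ (mem_span_singleton_self _)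
      have hci : b.coord i v = x := by
        rw [← hxy]
        simp [Basis.coord_apply, Finsupp.single_apply, Ne.symm hij]
      have hcj : b.coord j v = y := by
        rw [← hxy]
        simp [Basis.coord_apply, Finsupp.single_apply, hij]
      obtain ⟨l, hli, hlj, _⟩ := PA2_exists_not h4 i j j
      have h1 : v ∉ span F {b i, b l} := fun h =>
        hy (by rw [← hcj]; exact PA2_coord_pair b (Ne.symm hij) (Ne.symm hlj) h)
      have h2 : v ∉ span F {b l, b j} := fun h =>
        hx (by rw [← hci]; exact PA2_coord_pair b (Ne.symm hli) hij h)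
      rw [hG i l (Ne.symm hli) v h1, hG l j hlj v h2]
    · exact hG i j hij v hv
  -- the bilinear map
  let f : W →ₗ[F] W →ₗ[F] V := LinearMap.mk₂ F
    (fun v x => ∑ i, b.coord i x • (β i v • ι (b i) - J (b i) v))
    (fun v w x => by
      rw [← Finset.sum_add_distrib]
      refine Finset.sum_congr rfl fun i _ => ?_
      rw [map_add, map_add, add_smul, ← smul_add]
      congr 1
      abel)
    (fun r v x => by
      rw [Finset.smul_sum]
      refine Finset.sum_congr rfl fun i _ => ?_
      rw [map_smul, map_smul, smul_eq_mul, mul_smul, ← smul_sub, smul_comm])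
    (fun v x y => by
      rw [← Finset.sum_add_distrib]
      refine Finset.sum_congr rfl fun i _ => ?_
      rw [map_add, add_smul])
    (fun r v x => by
      rw [Finset.smul_sum]
      refine Finset.sum_congr rfl fun i _ => ?_
      rw [map_smul, smul_eq_mul, mul_smul])
  have hf : ∀ v i, f v (b i) = β i v • ι (b i) - J (b i) v := by
    intro v i
    simp only [f, LinearMap.mk₂_apply]
    rw [Finset.sum_eq_single i]
    · simp [Basis.coord_apply]
    · intro j _ hji
      simp [Basis.coord_apply, Finsupp.single_apply, Ne.symm hji]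
    · intro h
      exact absurd (Finset.mem_univ i) h
  refine ⟨f, fun v hv => ?_⟩
  have hi0 : ∃ i : Fin n, v ∉ span F {b i} := by
    by_contra hcon
    push Not at hcon
    have h1 := hcon ⟨0, by omega⟩
    have h2 := hcon ⟨1, by omega⟩
    obtain ⟨x, hx⟩ := mem_span_singleton.1 h1
    obtain ⟨y, hy⟩ := mem_span_singleton.1 h2
    have h3 := hind ⟨0, by omega⟩ ⟨1, by omega⟩ (by simp [Fin.ext_iff]) x (-y)
      (by rw [hx, neg_smul, hy, add_neg_cancel])
    apply hv
    rw [← hx, h3.1, zero_smul]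
  obtain ⟨i0, hi0⟩ := hi0
  refine ⟨β i0 v - c v i0, fun x => ?_⟩
  set ν := β i0 v - c v i0 with hν
  let D : W →ₗ[F] V := f v - J v - ν • ι
  have hD : ⊤ ≤ (span F {ι v}).comap D := by
    rw [← b.span_eq, span_le]
    rintro _ ⟨i, rfl⟩
    rw [SetLike.mem_coe, mem_comap]
    have hDi : D (b i) = f v (b i) - J v (b i) - ν • ι (b i) := rfl
    rw [hDi, hf]
    by_cases hvi : v ∈ span F {b i}
    · obtain ⟨t, rfl⟩ := mem_span_singleton.1 hvi
      have ht : t ≠ 0 := by
        rintro rfl
        exact hv (zero_smul _ _)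
      have hιi : ι (b i) ∈ span F {ι (t • b i)} := by
        rw [mem_span_singleton]
        exact ⟨t⁻¹, by rw [map_smul, smul_smul, inv_mul_cancel₀ ht, one_smul]⟩
      have h1 : J (t • b i) (b i) ∈ span F {ι (t • b i)} := by
        have e1 : J (t • b i) (b i) = t⁻¹ • J (t • b i) (t • b i) := by
          rw [(J (t • b i)).map_smul, smul_smul, inv_mul_cancel₀ ht, one_smul]
        rw [e1]
        exact Submodule.smul_mem _ _ (h0 (t • b i))
      have h2 : J (b i) (t • b i) ∈ span F {ι (t • b i)} := by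
        have e2 : J (b i) (t • b i) = t • J (b i) (b i) := (J (b i)).map_smul t (b i)
        rw [e2]
        apply Submodule.smul_mem
        have h3 := h0 (b i)
        exact (span_le.2 (by simpa using hιi) : span F {ι (b i)} ≤ _) h3
      exact sub_mem (sub_mem (sub_mem (Submodule.smul_mem _ _ hιi) h2) h1)
        (Submodule.smul_mem _ _ hιi)
    · have h1 : β i v = c v i + ν := by
        rw [hν, ← hH i i0 v hvi hi0]
        ring
      have h2 : β i v • ι (b i) - J (b i) v - J v (b i) - ν • ι (b i)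
          = -(J v (b i) + J (b i) v - c v i • ι (b i)) := by
        rw [h1, add_smul]
        abel
      rw [h2]
      exact neg_mem (hc v i)
  exact hD (mem_top (x := x))

end Pool.Agent.LibGS68
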