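import Pool.Agent.LibGS68.G1
/-!
Row G2: `dir_swap12`, `dir_swap23`, `lemmaG`.
-/
open Module Submodule
namespace Pool.Agent.LibGS68
variable {F V : Type*} [Field F] [AddCommGroup V] [Module F V]

theorem dir_swap12 {D : Set (Submodule F V)} {x y z : V} (h : Dir D x y z) : Dir D y x z := by
  intro B₁ hB₁ B₂ hB₂ B₃ hB₃ h1 h2 h3 h4 h5 h6 b₁ hb₁ b₂ hb₂ b₃ hb₃ hsum
  obtain ⟨r1, r2, r3⟩ := h B₂ hB₂ B₁ hB₁ B₃ hB₃ h3 h4 h1 h2 h6 h5 b₂ hb₂ b₁ hb₁ b₃ hb₃ (by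
    rw [Set.insert_comm, add_comm b₂ b₁]; exact hsum)
  exact ⟨r2, r1, by rw [Set.pair_comm]; exact r3⟩

theorem dir_swap23 {D : Set (Submodule F V)} {x y z : V} (h : Dir D x y z) : Dir D x z y := by
  intro B₁ hB₁ B₂ hB₂ B₃ hB₃ h1 h2 h3 h4 h5 h6 b₁ hb₁ b₂ hb₂ b₃ hb₃ hsum
  obtain ⟨r1, r2, r3⟩ := h B₁ hB₁ B₃ hB₃ B₂ hB₂ h2 h1 h5 h6 h3 h4 b₁ hb₁ b₃ hb₃ b₂ hb₂ (by
    have e : ({x, y, z} : Set V) = {x, z, y} := by rw [Set.pair_comm y z]
    rw [e, add_right_comm]; exact hsum)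
  exact ⟨by rw [Set.pair_comm]; exact r1, r3, r2⟩

theorem lemmaG [FiniteDimensional F V] {k : ℕ} {D : Set (Submodule F V)} (hD : IsSteiner 2 k D)
    (hn : k < finrank F V) {x y z : V} (h : Ind3 F x y z) (hdir : Dir D x y z)
    (hα : ∀ v ∈ span F {x, y, z}, v ≠ 0 → Alpha D v)
    {a jx jy : V →ₗ[F] V} (ha : a ∈ Ker D z) (hjx : jx ∈ Ker D x) (hjy : jy ∈ Ker D y)
    (h1 : jx z + a x ∈ span F {x, z}) (h2 : jy z + a y ∈ span F {y, z}) :
    jx y + jy x ∈ span F {x, y} := by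
  have ist : Ind2 F (x + y) z := fun a b hab => by
    obtain ⟨h1, h2, h3⟩ := h a a b (by rw [← hab]; module)
    exact ⟨h1, h3⟩
  have αs : Alpha D (x + y) := hα _ (add_mem (subset_span (by simp)) (subset_span (by simp))) (ind2_iff.1 ist).1
  obtain ⟨js, hjs, hjsz⟩ := transport hD ist ha αs
  have r1 := halfG hD hn h hdir hα ha hjx hjs h1 hjsz
  have r2 := halfG (x := y) (y := x) hD hn h.swap12 (dir_swap12 hdir) (by rw [Set.insert_comm]; exact hα) ha hjy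
    (js := js) (by rw [add_comm]; exact hjs) h2 (by rw [add_comm y x]; exact hjsz)
  rw [Set.pair_comm] at r2
  have r3 : js (x + y) ∈ span F {x, y} := by
    refine (span_singleton_le_iff_mem _ _).2 ?_ hjs.1
    exact add_mem (subset_span (by simp)) (subset_span (by simp))
  have := add_mem (add_mem r1 r2) r3
  have e : jx y - js y + (jy x - js x) + js (x + y) = jx y + jy x := by
    rw [map_add]; abel
  rwa [e] at this

end Pool.Agent.LibGS68
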