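import Pool.Agent.LibGS68.D3
import Pool.Agent.LibGS68.G2
/-!
Row HG: `hasGood3`.
-/
open Module Submodule
namespace Pool.Agent.LibGS68
variable {F V : Type*} [Field F] [AddCommGroup V] [Module F V]

/-- good third points exist for the pairs of a triple in `W` -/
def HasGood (D : Set (Submodule F V)) (W : Submodule F V) : Prop :=
  ∀ x ∈ W, ∀ y ∈ W, ∀ z ∈ W, Ind3 F x y z → ∃ w ∈ W, Ind3 F x y w ∧ Ind3 F x z w ∧ Ind3 F y z w ∧
    Dir D x y w ∧ Dir D x z w ∧ Dir D y z w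

theorem HG_ind3 {x y w : V} (h : Ind2 F x y) {B : Submodule F V} (hx : x ∈ B) (hy : y ∈ B) (hw : w ∉ B) :
    Ind3 F x y w := by
  refine ind3_iff.2 ⟨h, fun hw' => hw ?_⟩
  have : span F {x, y} ≤ B := by
    rw [span_le]
    rintro v (rfl | rfl) <;> assumption
  exact this hw'

theorem hasGood3 [FiniteDimensional F V] {D : Set (Submodule F V)} (hD : IsSteiner 2 3 D) (hn : 3 < finrank F V)
    {W : Submodule F V} (hα : ∀ x ∈ W, x ≠ 0 → Alpha D x) (h4 : 4 ≤ finrank F W) : HasGood D W := by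
  intro x hx y hy z hz h
  have αx : Alpha D x := hα x hx (ind2_iff.1 h.ind12).1
  have αy : Alpha D y := hα y hy (ind2_iff.1 h.ind23).1
  obtain ⟨B, hB, hxB, hyB⟩ := exists_block hD h.ind12
  by_cases hzB : z ∈ B
  · obtain ⟨w, hwW, hw⟩ := A3_exists_notMem (S := W) (T := B) (by rw [hD.1 B hB]; omega)
    exact ⟨w, hwW, HG_ind3 h.ind12 hxB hyB hw, HG_ind3 h.ind13 hxB hzB hw, HG_ind3 h.ind23 hyB hzB hw,
      dir3 hD hn (HG_ind3 h.ind12 hxB hyB hw) αx hB hxB hyB hw,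
      dir3 hD hn (HG_ind3 h.ind13 hxB hzB hw) αx hB hxB hzB hw,
      dir3 hD hn (HG_ind3 h.ind23 hyB hzB hw) αy hB hyB hzB hw⟩
  · obtain ⟨C, hC, hxC, hzC⟩ := exists_block hD h.ind13
    obtain ⟨E, hE, hyE, hzE⟩ := exists_block hD h.ind23
    have hyC : y ∉ C := fun hyC => hzB (block_eq hD h.ind12 hC hB hxC hyC hxB hyB ▸ hzC)
    have hxE : x ∉ E := fun hxE => hzB (block_eq hD h.ind12 hE hB hxE hyE hxB hyB ▸ hzE)
    have hwB : x + y + z ∉ B := fun hw => hzB (by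
      have := sub_mem hw (add_mem hxB hyB)
      simpa using this)
    have hwC : x + y + z ∉ C := fun hw => hyC (by
      have := sub_mem hw (add_mem hxC hzC)
      have e : x + y + z - (x + z) = y := by abel
      rwa [e] at this)
    have hwE : x + y + z ∉ E := fun hw => hxE (by
      have := sub_mem hw (add_mem hyE hzE)
      have e : x + y + z - (y + z) = x := by abel
      rwa [e] at this)
    exact ⟨x + y + z, add_mem (add_mem hx hy) hz, HG_ind3 h.ind12 hxB hyB hwB, HG_ind3 h.ind13 hxC hzC hwC,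
      HG_ind3 h.ind23 hyE hzE hwE,
      dir3 hD hn (HG_ind3 h.ind12 hxB hyB hwB) αx hB hxB hyB hwB,
      dir3 hD hn (HG_ind3 h.ind13 hxC hzC hwC) αx hC hxC hzC hwC,
      dir3 hD hn (HG_ind3 h.ind23 hyE hzE hwE) αy hE hyE hzE hwE⟩

end Pool.Agent.LibGS68
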