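import Mathlib
/-!
Row N2 (EASY/MEDIUM). Pure arithmetic.
-/
namespace Pool.Agent.LibGS68

theorem n_arith {q k n : ℕ} (hq : 2 ≤ q) (hk : 3 ≤ k) (hn : k < n) (h1 : (q ^ (k - 1) - 1) ∣ (q ^ (n - 1) - 1))
    (h2 : ((q ^ k - 1) * (q ^ (k - 1) - 1)) ∣ ((q ^ n - 1) * (q ^ (n - 1) - 1))) : k * (k - 1) + 1 ≤ n := by
  have hk1 : k - 1 ∣ n - 1 := by
    have e1 : Nat.gcd (q ^ (k - 1) - 1) (q ^ (n - 1) - 1) = q ^ (k - 1) - 1 := Nat.gcd_eq_left h1
    rw [Nat.pow_sub_one_gcd_pow_sub_one] at e1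
    have p1 : 0 < q ^ (Nat.gcd (k - 1) (n - 1)) := by positivity
    have p2 : 0 < q ^ (k - 1) := by positivity
    have e2 : q ^ (Nat.gcd (k - 1) (n - 1)) = q ^ (k - 1) := by omega
    have e3 := Nat.pow_right_injective hq e2
    rw [← e3]
    exact Nat.gcd_dvd_right _ _
  have h3 : q ^ k - 1 ∣ (q ^ (Nat.gcd k n) - 1) * (q ^ (Nat.gcd k (n - 1)) - 1) := by
    have e1 : q ^ k - 1 ∣ (q ^ n - 1) * (q ^ (n - 1) - 1) := dvd_trans (dvd_mul_right _ _) h2
    have e2 := Nat.gcd_mul_right_dvd_mul_gcd (q ^ k - 1) (q ^ n - 1) (q ^ (n - 1) - 1)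
    rw [Nat.gcd_eq_left e1, Nat.pow_sub_one_gcd_pow_sub_one, Nat.pow_sub_one_gcd_pow_sub_one] at e2
    exact e2
  have h4 : k ∣ n ∨ k ∣ n - 1 := by
    by_contra hcon
    push Not at hcon
    obtain ⟨g1, g2⟩ := hcon
    have half : ∀ e, e ∣ k → e ≠ k → 2 * e ≤ k := by
      rintro e ⟨c, hc⟩ hne
      rcases c with _ | _ | c
      · omega
      · omega
      · rw [hc]; nlinarith
    have a1 := half _ (Nat.gcd_dvd_left k n) (fun h => g1 (h ▸ Nat.gcd_dvd_right k n))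
    have a2 := half _ (Nat.gcd_dvd_left k (n - 1)) (fun h => g2 (h ▸ Nat.gcd_dvd_right k (n - 1)))
    set e := Nat.gcd k n with he
    set e' := Nat.gcd k (n - 1) with he'
    have b1 : 0 < e := Nat.gcd_pos_of_pos_left _ (by omega)
    have b2 : 0 < e' := Nat.gcd_pos_of_pos_left _ (by omega)
    have c1 : 2 ≤ q ^ e := by
      calc 2 ≤ q := hq
        _ = q ^ 1 := (pow_one q).symm
        _ ≤ q ^ e := Nat.pow_le_pow_right (by omega) b1
    have c2 : 2 ≤ q ^ e' := by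
      calc 2 ≤ q := hq
        _ = q ^ 1 := (pow_one q).symm
        _ ≤ q ^ e' := Nat.pow_le_pow_right (by omega) b2
    have c3 : q ^ e * q ^ e' ≤ q ^ k := by
      rw [← pow_add]; exact Nat.pow_le_pow_right (by omega) (by omega)
    obtain ⟨E, hE⟩ : ∃ E, q ^ e = E + 1 := ⟨q ^ e - 1, by omega⟩
    obtain ⟨E', hE'⟩ : ∃ E', q ^ e' = E' + 1 := ⟨q ^ e' - 1, by omega⟩
    rw [hE, hE'] at h3 c3
    rw [hE] at c1
    rw [hE'] at c2
    simp only [Nat.add_sub_cancel] at h3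
    have h5 := Nat.le_of_dvd (Nat.mul_pos (by omega) (by omega)) h3
    have h6 : (E + 1) * (E' + 1) = E * E' + E + E' + 1 := by ring
    omega
  rcases h4 with h4 | h4
  · obtain ⟨s, hs⟩ := h4
    have hs1 : 1 < s := by
      by_contra hc
      have : s ≤ 1 := by omega
      have : k * s ≤ k * 1 := Nat.mul_le_mul_left k this
      omega
    have h5 : k - 1 ∣ s - 1 := by
      have e : n - 1 = (k - 1) * s + (s - 1) := by
        obtain ⟨k', rfl⟩ : ∃ k', k = k' + 1 := ⟨k - 1, by omega⟩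
        obtain ⟨s', rfl⟩ : ∃ s', s = s' + 1 := ⟨s - 1, by omega⟩
        rw [hs]
        simp only [Nat.add_sub_cancel]
        have : (k' + 1) * (s' + 1) = k' * (s' + 1) + s' + 1 := by ring
        omega
      rw [e] at hk1
      exact (Nat.dvd_add_right (dvd_mul_right _ _)).1 hk1
    have h6 := Nat.le_of_dvd (by omega) h5
    have h7 : k ≤ s := by omega
    have h8 : k * k ≤ n := by rw [hs]; exact Nat.mul_le_mul_left k h7
    obtain ⟨k', rfl⟩ : ∃ k', k = k' + 1 := ⟨k - 1, by omega⟩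
    simp only [Nat.add_sub_cancel]
    nlinarith
  · have hco : Nat.Coprime k (k - 1) := by
      obtain ⟨k', rfl⟩ : ∃ k', k = k' + 1 := ⟨k - 1, by omega⟩
      simp
    have h5 := Nat.Coprime.mul_dvd_of_dvd_of_dvd hco h4 hk1
    have h6 := Nat.le_of_dvd (by omega) h5
    omega

end Pool.Agent.LibGS68
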