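import Pool.Agent.LibGS68.S1
/-!
Row S3 (MEDIUM/HARD). Counting the bad vectors.  `m = k - 1`, `q = Nat.card F`.
`C₁` a complement of `⟨x,y⟩` inside `B` (`finrank = m - 1`, so `q^(m-1)` elements), `C₂` a complement of `⟨y⟩` inside `B` (`q^m` elements).  For `u ∈ C₁` choose `A u ∈ Ker D x` with
`A u y - u ∈ ⟨x⟩` (`Alpha D x`), for `v ∈ C₂` choose `A' v ∈ Ker D y` with `A' v x - v ∈ ⟨y⟩` (`Alpha D y`).
CLAIM: the bad set is contained in `⋃ u ∈ C₁ \ {0}, ⋃ v ∈ C₂, comap (A u - A' v) B`.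
 * `w ∈ B` is in each (maps in `Ker` preserve `B`), and there is one pair (`m - 1 ≥ 1`).
 * `a ∈ Ker D x, b ∈ Ker D y, (a - b) w ∈ B, a w ∉ B ⊔ ⟨w⟩`: write `a y = u + c y + c' x` with `u ∈ C₁`; `a' = a - c • id`, `b' = b - c • id`; `b' x = v + c'' y`, `v ∈ C₂`.  `(a' - A u) y ∈ ⟨x⟩`,
   so `a' - A u` maps `V` into `⟨x⟩` (`p4`), the same for `b' - A' v` into `⟨y⟩`; so `(A u - A' v) w ∈ B`.  `u ≠ 0`: else `a' y ∈ ⟨x⟩`, `a' V ≤ ⟨x⟩`, `a w ∈ ⟨w⟩ + ⟨x⟩ ≤ B ⊔ ⟨w⟩`.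
 * `A u` is nonscalar at `x` for `u ∈ C₁ \ {0}`, so each `comap` has at most `q^(2m)` elements (`s1`).
 Total `≤ (q^(m-1) - 1) q^m q^(2m) ≤ q^(4m-1)`.
-/
open Module Submodule
namespace Pool.Agent.LibGS68
variable {F V : Type*} [Field F] [AddCommGroup V] [Module F V]

private theorem ker_sub {D : Set (Submodule F V)} {x : V} {a b : V →ₗ[F] V} (ha : a ∈ Ker D x)
    (hb : b ∈ Ker D x) : a - b ∈ Ker D x := Submodule.sub_mem _ ha hb

private theorem ker_block {D : Set (Submodule F V)} {x : V} {a : V →ₗ[F] V} (ha : a ∈ Ker D x)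
    {B : Submodule F V} (hB : B ∈ D) (hx : x ∈ B) {v : V} (hv : v ∈ B) : a v ∈ B := ha.2 B hB hx v hv

/-- a complement of `S ≤ B` inside `B` -/
private theorem compl_in [FiniteDimensional F V] {S B : Submodule F V} (hSB : S ≤ B) :
    ∃ C : Submodule F V, C ≤ B ∧ S ⊔ C = B ∧ S ⊓ C = ⊥ ∧ finrank F C + finrank F S = finrank F B := by
  obtain ⟨W, hW⟩ := Submodule.exists_isCompl S
  refine ⟨W ⊓ B, inf_le_right, ?_, ?_, ?_⟩
  · rw [← sup_inf_assoc_of_le W hSB, hW.sup_eq_top, top_inf_eq]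
  · rw [← inf_assoc, hW.inf_eq_bot, bot_inf_eq]
  · have h1 := Submodule.finrank_sup_add_finrank_inf_eq S (W ⊓ B)
    have h2 : S ⊔ W ⊓ B = B := by
      rw [← sup_inf_assoc_of_le W hSB, hW.sup_eq_top, top_inf_eq]
    have h3 : S ⊓ (W ⊓ B) = ⊥ := by
      rw [← inf_assoc, hW.inf_eq_bot, bot_inf_eq]
    rw [h2, h3, finrank_bot] at h1
    omega

theorem bad_card [Finite F] [FiniteDimensional F V] {k : ℕ} {D : Set (Submodule F V)} (hD : IsSteiner 2 k D)
    (hn : k < finrank F V) (hk : 3 ≤ k) {x y : V} (h : Ind2 F x y) (hαx : Alpha D x) (hαy : Alpha D y)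
    {B : Submodule F V} (hB : B ∈ D) (hx : x ∈ B) (hy : y ∈ B) :
    Nat.card {w : V | w ∈ B ∨ ∃ a ∈ Ker D x, ∃ b ∈ Ker D y, (a - b) w ∈ B ∧ a w ∉ B ⊔ span F {w}} ≤
      Nat.card F ^ (4 * (k - 1) - 1) := by
  classical
  have hVfin : Finite V := Module.finite_of_finite F
  obtain ⟨hx0, hyx⟩ := ind2_iff.1 h
  obtain ⟨hy0, hxy⟩ := ind2_iff.1 h.symm
  have hfB : finrank F B = k := hD.1 B hB
  have hS1 : span F {x, y} ≤ B := by
    rw [span_le]; intro t ht
    rcases ht with rfl | ht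
    · exact hx
    · rw [Set.mem_singleton_iff] at ht; rw [ht]; exact hy
  have hS2 : span F {y} ≤ B := by
    rw [span_singleton_le_iff_mem]; exact hy
  obtain ⟨C₁, hC₁B, hC₁s, hC₁i, hC₁f⟩ := compl_in hS1
  obtain ⟨C₂, hC₂B, hC₂s, hC₂i, hC₂f⟩ := compl_in hS2
  rw [finrank_span2 h, hfB] at hC₁f
  rw [finrank_span_singleton hy0, hfB] at hC₂f
  -- the chosen maps
  have hA : ∀ u : C₁, ∃ a ∈ Ker D x, a y - (u : V) ∈ span F {x} := fun u ↦
    hαx B hB hx y hy hyx u (hC₁B u.2)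
  have hA' : ∀ v : C₂, ∃ a ∈ Ker D y, a x - (v : V) ∈ span F {y} := fun v ↦
    hαy B hB hy x hx hxy v (hC₂B v.2)
  choose A hAk hAy using hA
  choose A' hAk' hAx' using hA'
  let ι := {p : C₁ × C₂ // p.1 ≠ 0}
  let S : ι → Submodule F V := fun i ↦ B.comap (A i.1.1 - A' i.1.2)
  -- nonscalar
  have hns : ∀ u : C₁, u ≠ 0 → ¬ ScalarAt x (A u) := by
    rintro u hu ⟨c, hc⟩
    apply hu
    have h1 := sub_mem (hc y) (hAy u)
    have h2 : (u : V) ∈ span F {x, y} := by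
      have e : (u : V) = (A u y - c • y - (A u y - (u : V))) + c • y := by abel
      rw [e]
      exact add_mem (span_mono (by simp) h1) (Submodule.smul_mem _ _ (subset_span (by simp)))
    have h3 : (u : V) ∈ span F {x, y} ⊓ C₁ := ⟨h2, u.2⟩
    rw [hC₁i, mem_bot] at h3
    exact Subtype.ext h3
  -- covering
  have hcov : ∀ w : V, (w ∈ B ∨ ∃ a ∈ Ker D x, ∃ b ∈ Ker D y, (a - b) w ∈ B ∧ a w ∉ B ⊔ span F {w}) →
      ∃ i : ι, w ∈ S i := by
    rintro w (hw | ⟨a, ha, b, hb, hab, haw⟩)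
    · have hpos : 0 < finrank F C₁ := by omega
      obtain ⟨u, hu⟩ := (Module.finrank_pos_iff_exists_ne_zero (R := F) (M := C₁)).1 hpos
      refine ⟨⟨(u, 0), hu⟩, ?_⟩
      change (A u - A' 0) w ∈ B
      rw [LinearMap.sub_apply]
      exact sub_mem (ker_block (hAk u) hB hx hw) (ker_block (hAk' 0) hB hy hw)
    · have h1 : a y ∈ span F {x, y} ⊔ C₁ := by
        rw [hC₁s]; exact ker_block ha hB hx hy
      obtain ⟨s, hs, u, hu, hsu⟩ := Submodule.mem_sup.1 h1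
      obtain ⟨c', c, hcc⟩ := mem_span_pair.1 hs
      have ha' : a - c • (LinearMap.id : V →ₗ[F] V) ∈ Ker D x := ker_sub ha (Submodule.smul_mem _ _ id_mem_ker)
      have hb' : b - c • (LinearMap.id : V →ₗ[F] V) ∈ Ker D y := ker_sub hb (Submodule.smul_mem _ _ id_mem_ker)
      have h2 : (b - c • (LinearMap.id : V →ₗ[F] V)) x ∈ span F {y} ⊔ C₂ := by
        rw [hC₂s]; exact ker_block hb' hB hy hx
      obtain ⟨s', hs', v, hv, hsv⟩ := Submodule.mem_sup.1 h2
      have e1 : (a - c • (LinearMap.id : V →ₗ[F] V)) y = c' • x + u := by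
        rw [LinearMap.sub_apply, LinearMap.smul_apply, LinearMap.id_apply, ← hsu, ← hcc]
        abel
      have h3 : ∀ t, ((a - c • (LinearMap.id : V →ₗ[F] V)) - A ⟨u, hu⟩) t ∈ span F {x} := by
        refine p4 hD hn h (ker_sub ha' (hAk _)) ?_
        have e : ((a - c • (LinearMap.id : V →ₗ[F] V)) - A ⟨u, hu⟩) y = c' • x - (A ⟨u, hu⟩ y - u) := by
          rw [LinearMap.sub_apply, e1]; abel
        rw [e]
        exact sub_mem (Submodule.smul_mem _ _ (mem_span_singleton_self x)) (hAy ⟨u, hu⟩)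
      have h4 : ∀ t, ((b - c • (LinearMap.id : V →ₗ[F] V)) - A' ⟨v, hv⟩) t ∈ span F {y} := by
        refine p4 hD hn h.symm (ker_sub hb' (hAk' _)) ?_
        have e : ((b - c • (LinearMap.id : V →ₗ[F] V)) - A' ⟨v, hv⟩) x = s' - (A' ⟨v, hv⟩ x - v) := by
          rw [LinearMap.sub_apply, ← hsv]; abel
        rw [e]
        exact sub_mem hs' (hAx' ⟨v, hv⟩)
      have hu0 : (⟨u, hu⟩ : C₁) ≠ 0 := by
        intro hu0
        have hu0' : u = 0 := congrArg Subtype.val hu0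
        apply haw
        have h5 : ∀ t, (a - c • (LinearMap.id : V →ₗ[F] V)) t ∈ span F {x} := by
          refine p4 hD hn h ha' ?_
          rw [e1, hu0', add_zero]
          exact Submodule.smul_mem _ _ (mem_span_singleton_self x)
        have h6 := h5 w
        have e : a w = (a - c • (LinearMap.id : V →ₗ[F] V)) w + c • w := by
          rw [LinearMap.sub_apply, LinearMap.smul_apply, LinearMap.id_apply]; abel
        rw [e]
        refine add_mem (Submodule.mem_sup_left ?_) (Submodule.mem_sup_right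
          (Submodule.smul_mem _ _ (mem_span_singleton_self w)))
        exact (span_singleton_le_iff_mem x B).2 hx h6
      refine ⟨⟨(⟨u, hu⟩, ⟨v, hv⟩), hu0⟩, ?_⟩
      change (A ⟨u, hu⟩ - A' ⟨v, hv⟩) w ∈ B
      have e : (A ⟨u, hu⟩ - A' ⟨v, hv⟩) w = (a - b) w - ((a - c • (LinearMap.id : V →ₗ[F] V)) - A ⟨u, hu⟩) w +
          ((b - c • (LinearMap.id : V →ₗ[F] V)) - A' ⟨v, hv⟩) w := by
        simp only [LinearMap.sub_apply]; abel
      rw [e]
      exact add_mem (sub_mem hab ((span_singleton_le_iff_mem x B).2 hx (h3 w)))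
        ((span_singleton_le_iff_mem y B).2 hy (h4 w))
  -- counting
  have hιf : Finite ι := inferInstance
  let fι := Fintype.ofFinite ι
  let Bad : Set V := {w : V | w ∈ B ∨ ∃ a ∈ Ker D x, ∃ b ∈ Ker D y, (a - b) w ∈ B ∧ a w ∉ B ⊔ span F {w}}
  have hcov' : ∀ w : Bad, ∃ i : ι, (w : V) ∈ S i := fun w ↦ hcov w.1 w.2
  choose idx hidx using hcov'
  have hinj : Function.Injective (fun w : Bad ↦ (⟨idx w, ⟨w.1, hidx w⟩⟩ : Σ i : ι, S i)) := by
    intro w w' hww
    apply Subtype.ext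
    have := congrArg (fun z : (Σ i : ι, S i) ↦ (z.2 : V)) hww
    exact this
  have h1 : Nat.card Bad ≤ Nat.card (Σ i : ι, S i) := Nat.card_le_card_of_injective _ hinj
  rw [Nat.card_sigma] at h1
  have hq : 0 < Nat.card F := Nat.card_pos
  have h2 : ∀ i : ι, Nat.card (S i) ≤ Nat.card F ^ (2 * (k - 1)) := by
    intro i
    rw [Module.natCard_eq_pow_finrank (K := F) (V := S i)]
    exact Nat.pow_le_pow_right hq (s1 hD hn (by omega) h hB hx hy (hAk _) (hAk' _) (hns _ i.2))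
  have h3 : ∑ i : ι, Nat.card (S i) ≤ Nat.card ι * Nat.card F ^ (2 * (k - 1)) := by
    calc ∑ i : ι, Nat.card (S i) ≤ ∑ _i : ι, Nat.card F ^ (2 * (k - 1)) :=
          Finset.sum_le_sum (fun i _ ↦ h2 i)
      _ = Nat.card ι * Nat.card F ^ (2 * (k - 1)) := by
          rw [Finset.sum_const, Finset.card_univ, smul_eq_mul, Nat.card_eq_fintype_card (α := ι)]
  have h4 : Nat.card ι ≤ Nat.card F ^ (2 * k - 3) := by
    calc Nat.card ι ≤ Nat.card (C₁ × C₂) := Nat.card_le_card_of_injective _ Subtype.val_injective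
      _ = Nat.card F ^ (finrank F C₁) * Nat.card F ^ (finrank F C₂) := by
          rw [Nat.card_prod, Module.natCard_eq_pow_finrank (K := F) (V := C₁),
            Module.natCard_eq_pow_finrank (K := F) (V := C₂)]
      _ = Nat.card F ^ (2 * k - 3) := by
          rw [← pow_add]; congr 1; omega
  calc Nat.card Bad ≤ Nat.card ι * Nat.card F ^ (2 * (k - 1)) := h1.trans h3
    _ ≤ Nat.card F ^ (2 * k - 3) * Nat.card F ^ (2 * (k - 1)) := Nat.mul_le_mul_right _ h4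
    _ = Nat.card F ^ (4 * (k - 1) - 1) := by
        rw [← pow_add]; congr 1; omega

end Pool.Agent.LibGS68
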