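import Pool.Agent.LibGS68.S2
import Pool.Agent.LibGS68.S3
import Pool.Agent.LibGS68.N1
import Pool.Agent.LibGS68.N2
import Pool.Agent.LibGS68.HG
/-!
Row S4 (MEDIUM). `hasGood_top`, `k ≥ 4`, `m = k - 1 ≥ 3`.  `n_arith` with `count_point`, `count_pairs` gives `n ≥ m (m+1) + 1`.  For independent `x, y, z` the three bad sets (`bad_card` for the pairs
`(x,y), (x,z), (y,z)`) have at most `3 q^(4m-1)` elements, and `3 q^(4m-1) < q^n` because `m (m+1) + 1 ≥ 4m - 1 + 2` (`(m-1)(m-2) ≥ 2`) and `q² ≥ 4`.  Take `w` outside the three sets and use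
`dir_of_good` three times; `Ind3 F x y w` because `w` is not in the block through `x, y` (`ind3_iff`).
-/
open Module Submodule
namespace Pool.Agent.LibGS68
variable {F V : Type*} [Field F] [AddCommGroup V] [Module F V]

private theorem S4_pair [FiniteDimensional F V] {k : ℕ} {D : Set (Submodule F V)}
    (hD : IsSteiner 2 k D) (hn : k < finrank F V) {x y w : V} (h : Ind2 F x y)
    (hαx : Alpha D x) (hαy : Alpha D y) {B : Submodule F V} (hB : B ∈ D) (hx : x ∈ B) (hy : y ∈ B)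
    (hw : w ∉ {w : V | w ∈ B ∨ ∃ a ∈ Ker D x, ∃ b ∈ Ker D y, (a - b) w ∈ B ∧
      a w ∉ B ⊔ span F {w}}) : Ind3 F x y w ∧ Dir D x y w := by
  have hwB : w ∉ B := fun h' => hw (Or.inl h')
  constructor
  · refine ind3_iff.2 ⟨h, fun hs => hwB ?_⟩
    have hle : span F {x, y} ≤ B := by
      rw [span_le]
      intro u hu
      rcases hu with rfl | rfl
      · exact hx
      · exact hy
    exact hle hs
  · refine dir_of_good hD hn h hαx hαy hB hx hy hwB fun a ha b hb hab => ?_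
    by_contra hc
    exact hw (Or.inr ⟨a, ha, b, hb, hab, hc⟩)

theorem hasGood_top [Finite F] [FiniteDimensional F V] {k : ℕ} {D : Set (Submodule F V)} (hD : IsSteiner 2 k D)
    (hn : k < finrank F V) (hk : 4 ≤ k) (hα : ∀ x : V, x ≠ 0 → Alpha D x) : HasGood D ⊤ := by
  have : Finite V := Module.finite_of_finite F
  have hq : 2 ≤ Nat.card F := Finite.one_lt_card
  have hn' := n_arith hq (by omega : 3 ≤ k) hn (count_point hD hn (by omega))
    (count_pairs hD hn (by omega))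
  intro x _ y _ z _ h3
  have h12 := h3.ind12
  have h13 := h3.ind13
  have h23 := h3.ind23
  have hx0 : x ≠ 0 := (ind2_iff.1 h12).1
  have hy0 : y ≠ 0 := (ind2_iff.1 h23).1
  have hz0 : z ≠ 0 := (ind2_iff.1 h23.symm).1
  obtain ⟨B1, hB1, hx1, hy1⟩ := exists_block hD h12
  obtain ⟨B2, hB2, hx2, hz2⟩ := exists_block hD h13
  obtain ⟨B3, hB3, hy3, hz3⟩ := exists_block hD h23
  have c1 := bad_card hD hn (by omega) h12 (hα x hx0) (hα y hy0) hB1 hx1 hy1
  have c2 := bad_card hD hn (by omega) h13 (hα x hx0) (hα z hz0) hB2 hx2 hz2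
  have c3 := bad_card hD hn (by omega) h23 (hα y hy0) (hα z hz0) hB3 hy3 hz3
  set S1 : Set V := {w : V | w ∈ B1 ∨ ∃ a ∈ Ker D x, ∃ b ∈ Ker D y, (a - b) w ∈ B1 ∧
      a w ∉ B1 ⊔ span F {w}} with hS1
  set S2 : Set V := {w : V | w ∈ B2 ∨ ∃ a ∈ Ker D x, ∃ b ∈ Ker D z, (a - b) w ∈ B2 ∧
      a w ∉ B2 ⊔ span F {w}} with hS2
  set S3 : Set V := {w : V | w ∈ B3 ∨ ∃ a ∈ Ker D y, ∃ b ∈ Ker D z, (a - b) w ∈ B3 ∧
      a w ∉ B3 ⊔ span F {w}} with hS3
  have hex : ∃ w : V, w ∉ S1 ∪ S2 ∪ S3 := by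
    by_contra hall
    push Not at hall
    have huniv : S1 ∪ S2 ∪ S3 = Set.univ := Set.eq_univ_of_forall hall
    have h1 : (S1 ∪ S2 ∪ S3).ncard ≤ S1.ncard + S2.ncard + S3.ncard :=
      (Set.ncard_union_le _ _).trans (Nat.add_le_add_right (Set.ncard_union_le _ _) _)
    rw [huniv, Set.ncard_univ, Module.natCard_eq_pow_finrank (K := F) (V := V)] at h1
    rw [Nat.card_coe_set_eq] at c1 c2 c3
    have h4 : 4 * (k - 1) - 1 + 2 ≤ finrank F V := by
      obtain ⟨m, rfl⟩ : ∃ m, k = m + 4 := ⟨k - 4, by omega⟩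
      have e1 : (m + 4) * (m + 4 - 1) = (m + 4) * (m + 3) := by congr 1
      rw [e1] at hn'
      have e2 : 4 * (m + 4 - 1) - 1 + 2 = 4 * (m + 3) + 1 := by omega
      rw [e2]
      nlinarith
    have h5 : Nat.card F ^ (4 * (k - 1) - 1 + 2) ≤ Nat.card F ^ finrank F V :=
      Nat.pow_le_pow_right (by omega) h4
    rw [pow_add] at h5
    have h6 : 0 < Nat.card F ^ (4 * (k - 1) - 1) := Nat.pow_pos (by omega)
    have h7 : 4 ≤ Nat.card F ^ 2 := by nlinarith
    nlinarith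
  obtain ⟨w, hw⟩ := hex
  have w1 : w ∉ S1 := fun h => hw (Or.inl (Or.inl h))
  have w2 : w ∉ S2 := fun h => hw (Or.inl (Or.inr h))
  have w3 : w ∉ S3 := fun h => hw (Or.inr h)
  have r1 := S4_pair hD hn h12 (hα x hx0) (hα y hy0) hB1 hx1 hy1 w1
  have r2 := S4_pair hD hn h13 (hα x hx0) (hα z hz0) hB2 hx2 hz2 w2
  have r3 := S4_pair hD hn h23 (hα y hy0) (hα z hz0) hB3 hy3 hz3 w3
  exact ⟨w, mem_top, r1.1, r2.1, r3.1, r1.2, r2.2, r3.2⟩

end Pool.Agent.LibGS68
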