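import Pool.Agent.LibGS68.Fam
import Pool.Agent.LibGS68.PA2
import Pool.Agent.LibGS68.MU3
import Pool.Agent.LibGS68.MU2
import Pool.Agent.LibGS68.CH2
import Pool.Agent.LibGS68.PO
import Pool.Agent.LibGS68.S4
open Module Submodule
namespace Pool.Agent.LibGS68
variable {F V : Type*} [Field F] [AddCommGroup V] [Module F V]

/-- An alternating `f` with `f v = g_v` mod `⟨v⟩`, `g_v ∈ Ker D v` nonscalar, is impossible over a finite field. -/
theorem no_alternating [Finite F] [FiniteDimensional F V] {k : ℕ} {D : Set (Submodule F V)} (hD : IsSteiner 2 k D)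
    (hk : 2 ≤ k) (hn : k < finrank F V) (f : V →ₗ[F] V →ₗ[F] V) (hf : ∀ v, f v v = 0)
    (g : V → V →ₗ[F] V) (hg : ∀ v, v ≠ 0 → g v ∈ Ker D v) (hgs : ∀ v, v ≠ 0 → ¬ ScalarAt v (g v))
    (hfg : ∀ v, v ≠ 0 → ∀ x, f v x - g v x ∈ span F {v}) : False := by
  obtain ⟨v, x, hvx, h⟩ := chevalley (by omega) f hf
  have hv : v ≠ 0 := (ind2_iff.1 hvx).1
  have h1 : g v x ∈ span F {v} := by
    have := sub_mem h (hfg v hv x)
    simpa using this
  exact hgs v hv ⟨0, fun w => by simpa using p4 hD hn hvx (hg v hv) h1 w⟩

theorem add_smul_id_nonscalar {x : V} {a : V →ₗ[F] V} (c : F) (h : ¬ ScalarAt x a) :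
    ¬ ScalarAt x (a + c • LinearMap.id) := by
  rintro ⟨d, hd⟩
  refine h ⟨d - c, fun v => ?_⟩
  have := hd v
  simp only [LinearMap.add_apply, LinearMap.smul_apply, LinearMap.id_apply] at this
  have e : a v - (d - c) • v = a v + c • v - d • v := by module
  rw [e]; exact this

theorem core [Finite F] [FiniteDimensional F V] {k : ℕ} {D : Set (Submodule F V)} (hk : 3 ≤ k)
    (hD : IsSteiner 2 k D) (hn : k < finrank F V) (hα : ∀ x : V, x ≠ 0 → Alpha D x) : False := by
  classical
  have hG : HasGood D ⊤ := by
    rcases Nat.lt_or_ge 3 k with h | h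
    · exact hasGood_top hD hn h hα
    · obtain rfl : k = 3 := by omega
      exact hasGood3 hD hn (fun x _ hx => hα x hx) (by simp; omega)
  have hpos : 0 < finrank F V := by omega
  obtain ⟨z, hz⟩ := (Module.finrank_pos_iff_exists_ne_zero (R := F) (M := V)).1 hpos
  -- the bilinear map attached to a
  have key : ∀ a ∈ Ker D z, ∃ (f : V →ₗ[F] V →ₗ[F] V) (g : V → V →ₗ[F] V), (∀ v, v ≠ 0 → g v ∈ Ker D v) ∧
      (∀ v, v ≠ 0 → ∀ x, f v x - g v x ∈ span F {v}) ∧ (∀ v, v ≠ 0 → ScalarAt v (g v) → ScalarAt z a) ∧
      (∀ v, f v v ∈ span F {v}) ∧ (∃ c : F, g z = a + c • LinearMap.id) ∧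
      (∀ v, v ≠ 0 → ∃ c : F, g v z + a v + c • z ∈ span F {v}) := by
    intro a ha
    obtain ⟨J, hJz, hJ, hA, hT, hS⟩ := family hD hn (W := ⊤) (fun x _ hx => hα x hx) hG (z := z) trivial hz ha
    have h0 : ∀ x, J x x ∈ span F {x} := fun x => (hJ x trivial).1
    obtain ⟨f, hf⟩ := patch (LinearMap.id : V →ₗ[F] V) Function.injective_id (by omega) J
      (fun x y => hA x trivial y trivial) h0
    choose! ν hν using hf
    refine ⟨f, fun v => J v + ν v • LinearMap.id, fun v _ => add_mem (hJ v trivial) (Submodule.smul_mem _ _ id_mem_ker),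
      fun v hv x => ?_, fun v hv hs => ?_, fun v => ?_, ⟨ν z, by simp only [hJz]⟩, fun v hv => ?_⟩
    · have := hν v hv x
      simp only [LinearMap.id_apply] at this
      simpa [sub_sub] using this
    · obtain ⟨c, hc⟩ := hs
      refine hS v trivial hv ⟨c - ν v, fun w => ?_⟩
      have := hc w
      simp only [LinearMap.add_apply, LinearMap.smul_apply, LinearMap.id_apply] at this
      have e : J v w - (c - ν v) • w = J v w + ν v • w - c • w := by module
      rw [e]; exact this
    · rcases eq_or_ne v 0 with rfl | hv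
      · simp
      · have h1 := hν v hv v
        simp only [LinearMap.id_apply] at h1
        have h2 := add_mem (add_mem h1 (h0 v)) (Submodule.smul_mem _ (ν v) (mem_span_singleton_self v))
        have e : f v v - J v v - ν v • v + J v v + ν v • v = f v v := by abel
        rwa [e] at h2
    · have h1 := hT v trivial
      obtain ⟨α, β, h2⟩ := mem_span_pair.1 h1
      refine ⟨-ν v - β, ?_⟩
      simp only [LinearMap.add_apply, LinearMap.smul_apply, LinearMap.id_apply]
      have e : J v z + ν v • z + a v + (-ν v - β) • z = α • v := by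
        have : J v z + a v = α • v + β • z := h2.symm
        calc J v z + ν v • z + a v + (-ν v - β) • z = (J v z + a v) - β • z := by module
          _ = _ := by rw [this]; module
      rw [e]; exact Submodule.smul_mem _ _ (mem_span_singleton_self v)
  -- making f alternating
  by_cases hq : ∃ t : F, t ≠ 0 ∧ t ≠ 1
  · obtain ⟨t, ht0, ht1⟩ := hq
    obtain ⟨a, ha, has⟩ := exists_nonscalar hD hn hk hz (hα z hz)
    obtain ⟨f, g, hg, hfg, hgs, hff, -, -⟩ := key a ha
    obtain ⟨μ, hμ⟩ := mu_three (LinearMap.id : V →ₗ[F] V) Function.injective_id f (by simpa using hff) t ht0 ht1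
    simp only [LinearMap.id_apply] at hμ
    let f' : V →ₗ[F] V →ₗ[F] V := f - (LinearMap.lsmul F V).comp μ
    refine no_alternating hD (by omega) hn f' (fun v => by simp [f', hμ v]) (fun v => g v + (-μ v) • LinearMap.id)
      (fun v hv => add_mem (hg v hv) (Submodule.smul_mem _ _ id_mem_ker))
      (fun v hv => add_smul_id_nonscalar _ (fun h => has (hgs v hv h))) (fun v hv x => ?_)
    have := hfg v hv x
    have e : f' v x - (g v + (-μ v) • (LinearMap.id : V →ₗ[F] V)) x = f v x - g v x := by
      simp only [f', LinearMap.sub_apply, LinearMap.add_apply, LinearMap.smul_apply, LinearMap.id_apply,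
        LinearMap.comp_apply, LinearMap.lsmul_apply]
      module
    rw [e]; exact this
  · push Not at hq
    have h2 : ∀ t : F, t = 0 ∨ t = 1 := fun t => by
      by_cases h : t = 0
      · exact Or.inl h
      · exact Or.inr (hq t h)
    have h11 : (1 : F) + 1 = 0 := by
      rcases h2 (1 + 1) with h | h
      · exact h
      · exfalso; exact one_ne_zero (by simpa using h : (1 : F) = 0)
    -- normal form
    have key2 : ∀ a ∈ Ker D z, ¬ ScalarAt z a → ∃ (f : V →ₗ[F] V →ₗ[F] V) (g : V → V →ₗ[F] V),
        (∀ v, v ≠ 0 → g v ∈ Ker D v) ∧ (∀ v, v ≠ 0 → ∀ x, f v x - g v x ∈ span F {v}) ∧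
        (∀ v, v ≠ 0 → ¬ ScalarAt v (g v)) ∧ (∀ v, f v v = v) ∧ (∃ c : F, g z = a + c • LinearMap.id) ∧
        (∀ v, v ≠ 0 → ∃ c : F, g v z + a v + c • z ∈ span F {v}) := by
      intro a ha has
      obtain ⟨f, g, hg, hfg, hgs, hff, ⟨c0, hc0⟩, hgz⟩ := key a ha
      obtain ⟨μ, κ, hμ⟩ := mu_two (LinearMap.id : V →ₗ[F] V) Function.injective_id (by omega) f (by simpa using hff) h2
      simp only [LinearMap.id_apply] at hμ
      let f' : V →ₗ[F] V →ₗ[F] V := f - (LinearMap.lsmul F V).comp μ
      have hf'v : ∀ v, f' v v = κ • v := fun v => by simp [f', hμ v, add_smul]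
      have hf'g : ∀ v, v ≠ 0 → ∀ x, f' v x - (g v + (-μ v) • (LinearMap.id : V →ₗ[F] V)) x ∈ span F {v} := fun v hv x => by
        have e : f' v x - (g v + (-μ v) • (LinearMap.id : V →ₗ[F] V)) x = f v x - g v x := by
          simp only [f', LinearMap.sub_apply, LinearMap.add_apply, LinearMap.smul_apply, LinearMap.id_apply,
            LinearMap.comp_apply, LinearMap.lsmul_apply]
          module
        rw [e]; exact hfg v hv x
      rcases h2 κ with hκ | hκ
      · exact (no_alternating hD (by omega) hn f' (fun v => by simp [hf'v, hκ]) (fun v => g v + (-μ v) • LinearMap.id)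
          (fun v hv => add_mem (hg v hv) (Submodule.smul_mem _ _ id_mem_ker))
          (fun v hv => add_smul_id_nonscalar _ (fun h => has (hgs v hv h))) hf'g).elim
      · refine ⟨f', fun v => g v + (-μ v) • LinearMap.id,
          fun v hv => add_mem (hg v hv) (Submodule.smul_mem _ _ id_mem_ker), hf'g,
          fun v hv => add_smul_id_nonscalar _ (fun h => has (hgs v hv h)), fun v => by simp [hf'v, hκ],
          ⟨c0 - μ z, by simp only [hc0]; module⟩, fun v hv => ?_⟩
        obtain ⟨c, hc⟩ := hgz v hv
        refine ⟨c + μ v, ?_⟩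
        simp only [LinearMap.add_apply, LinearMap.smul_apply, LinearMap.id_apply]
        have e : g v z + -μ v • z + a v + (c + μ v) • z = g v z + a v + c • z := by module
        rw [e]; exact hc
    rcases Nat.lt_or_ge 3 k with h | h
    · obtain ⟨a, ha, b, hb, has, hbs, hab⟩ := exists_nonscalar2 hD hn h hz (hα z hz)
      obtain ⟨f, g, hg, hfg, hgs, hff, ⟨c, hc⟩, hgz⟩ := key2 a ha has
      obtain ⟨f', g', hg', hfg', hgs', hff', ⟨c', hc'⟩, hgz'⟩ := key2 b hb hbs
      refine no_alternating hD (by omega) hn (f + f') (fun v => ?_) (fun v => g v + g' v)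
        (fun v hv => add_mem (hg v hv) (hg' v hv)) (fun v hv => ?_) (fun v hv x => ?_)
      · have : v + v = 0 := by rw [← two_smul F v, show (2 : F) = 0 by rw [← one_add_one_eq_two]; exact h11, zero_smul]
        simp [hff v, hff' v, this]
      · intro hs
        by_cases hvz : Ind2 F v z
        · apply hab
          have hs' : ScalarAt v (g v + g' v) := hs
          obtain ⟨d, hd⟩ := hgz v hv
          obtain ⟨d', hd'⟩ := hgz' v hv
          refine nonscalar_transport hD hn hvz (add_mem ha hb) (j := g v + g' v) ?_ hs'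
          have h3 := add_mem hd hd'
          have h4 : (g v + g' v) z + (a + b) v =
              (g v z + a v + d • z + (g' v z + b v + d' • z)) + (-(d + d')) • z := by
            simp only [LinearMap.add_apply]; module
          rw [h4]
          refine add_mem (span_mono (by simp) h3) (Submodule.smul_mem _ _ (subset_span (by simp)))
        · -- v = z
          have hv' : v = z := by
            rw [ind2_iff] at hvz
            push Not at hvz
            have h5 := hvz hv
            obtain ⟨t, ht⟩ := mem_span_singleton.1 h5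
            rcases h2 t with rfl | rfl
            · exact (hz (by simpa using ht.symm)).elim
            · simpa using ht
          subst hv'
          have hs' : ScalarAt v (g v + g' v) := hs
          rw [hc, hc'] at hs'
          have e : a + c • LinearMap.id + (b + c' • LinearMap.id) = (a + b) + (c + c') • LinearMap.id := by module
          rw [e] at hs'
          exact add_smul_id_nonscalar (c + c') hab hs'
      · have := add_mem (hfg v hv x) (hfg' v hv x)
        have e : (f + f') v x - (g v + g' v) x = f v x - g v x + (f' v x - g' v x) := by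
          simp only [LinearMap.add_apply]; module
        rw [e]; exact this
    · obtain rfl : k = 3 := by omega
      obtain ⟨a, ha, has⟩ := exists_nonscalar hD hn hk hz (hα z hz)
      obtain ⟨f, g, hg, hfg, hgs, hff, -, -⟩ := key2 a ha has
      refine polar (by omega) h2 f (fun v hv x => ?_)
      have hq3 := quad3 hD hn h2 hv (hg v hv) (hgs v hv) x
      obtain ⟨s, hs⟩ := mem_span_singleton.1 (hfg v hv x)
      have e1 : f v x = g v x + s • v := by rw [hs]; abel
      have h3 := hfg v hv (g v x)
      have e2 : f v (f v x) + f v x + x = (f v (g v x) - g v (g v x)) + (g v (g v x) + g v x + x) + (s • v + s • v) := by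
        rw [e1, map_add, map_smul, hff v]; abel
      rw [e2]
      exact add_mem (add_mem h3 hq3) (add_mem (Submodule.smul_mem _ _ (mem_span_singleton_self v))
        (Submodule.smul_mem _ _ (mem_span_singleton_self v)))

end Pool.Agent.LibGS68
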