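import Pool.Agent.LibGS68.A3
/-!
Row D3: `k = 3`: every plane not inside a block is direct.
-/
open Module Submodule
namespace Pool.Agent.LibGS68
variable {F V : Type*} [Field F] [AddCommGroup V] [Module F V]

/-- In a subspace `U ∋ x` of dimension `≤ 5` invariant under a nonscalar `a ∈ Ker D x` every block inside `U` contains `x`. -/
theorem D3_claim [FiniteDimensional F V] {D : Set (Submodule F V)} (hD : IsSteiner 2 3 D) (hn : 3 < finrank F V)
    {x : V} (hx : x ≠ 0) {a : V →ₗ[F] V} (ha : a ∈ Ker D x) (has : ¬ ScalarAt x a) {U : Submodule F V} (hxU : x ∈ U)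
    (hU : finrank F U ≤ 5) (haU : ∀ u ∈ U, a u ∈ U) {B : Submodule F V} (hB : B ∈ D) (hBU : B ≤ U) : x ∈ B := by
  by_contra hxB
  -- the subspace M = B ⊔ ⟨x⟩ of dimension 4
  set M : Submodule F V := B ⊔ span F {x} with hM
  have hdis : Disjoint B (span F {x}) := by
    rw [disjoint_span_singleton' hx]; exact hxB
  have hM4 : finrank F M = 4 := by
    have h1 := Submodule.finrank_sup_add_finrank_inf_eq B (span F {x})
    rw [hdis.eq_bot, finrank_bot, finrank_span_singleton hx, hD.1 B hB] at h1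
    omega
  have hMU : M ≤ U := sup_le hBU (by rw [span_singleton_le_iff_mem]; exact hxU)
  -- the map B → U / M
  let g : B →ₗ[F] (V ⧸ M) := M.mkQ.comp (a.comp B.subtype)
  have hrange : finrank F (LinearMap.range g) ≤ 1 := by
    have h1 : LinearMap.range g ≤ U.map M.mkQ := by
      rintro _ ⟨b, rfl⟩
      exact ⟨a b, haU _ (hBU b.2), rfl⟩
    have h2 : finrank F (U.map M.mkQ) + finrank F M = finrank F U := by
      have h3 := LinearMap.finrank_range_add_finrank_ker (M.mkQ.domRestrict U)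
      have h4 : LinearMap.range (M.mkQ.domRestrict U) = U.map M.mkQ := by
        ext v; simp [LinearMap.mem_range, Submodule.mem_map]
      have h5 : finrank F (LinearMap.ker (M.mkQ.domRestrict U)) = finrank F M := by
        have h6 : LinearMap.ker (M.mkQ.domRestrict U) = M.comap U.subtype := by
          ext v; simp
        rw [h6]
        exact (Submodule.comapSubtypeEquivOfLe hMU).finrank_eq
      rw [h4, h5] at h3
      exact h3
    have := Submodule.finrank_mono h1
    omega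
  have hker : 2 ≤ finrank F (LinearMap.ker g) := by
    have h1 := LinearMap.finrank_range_add_finrank_ker g
    rw [hD.1 B hB] at h1
    omega
  obtain ⟨s, hs⟩ : ∃ s : LinearMap.ker g, s ≠ 0 :=
    (Module.finrank_pos_iff_exists_ne_zero (R := F)).1 (by omega)
  have hs0 : (s : B).1 ≠ 0 := fun h => hs (by ext; exact h)
  have hsM : a (s : B).1 ∈ M := by
    have h0 : g s = 0 := s.2
    have h1 : M.mkQ (a (s : B).1) = 0 := h0
    rwa [Submodule.mkQ_apply, Submodule.Quotient.mk_eq_zero] at h1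
  obtain ⟨r, hr, t, ht, hrt⟩ := Submodule.mem_sup.1 hsM
  set s' : V := (s : B).1 with hs'
  have hs'B : s' ∈ B := (s : B).2
  have hxs : Ind2 F x s' := by
    refine ind2_iff.2 ⟨hx, fun h => ?_⟩
    obtain ⟨c, hc⟩ := mem_span_singleton.1 h
    have hc0 : c ≠ 0 := by rintro rfl; exact hs0 (by rw [← hc, zero_smul])
    exact hxB ((Submodule.smul_mem_iff _ hc0).1 (by rw [hc]; exact hs'B))
  obtain ⟨C, hC, hxC, hsC⟩ := exists_block hD hxs
  have hasC : a s' ∈ C := ha.2 C hC hxC _ hsC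
  have htC : t ∈ C := (show span F {x} ≤ C by rw [span_singleton_le_iff_mem]; exact hxC) ht
  have hrC : r ∈ C := by
    have := sub_mem hasC htC
    rw [← hrt] at this
    simpa using this
  have hrs : Ind2 F s' r := by
    refine ind2_iff.2 ⟨hs0, fun h => ?_⟩
    obtain ⟨c, hc⟩ := mem_span_singleton.1 h
    obtain ⟨d, hd⟩ := mem_span_singleton.1 ht
    apply has
    refine scalar_of hD hn hxs ha ?_
    rw [← hrt, ← hc, ← hd]
    exact add_mem (Submodule.smul_mem _ _ (subset_span (by simp))) (Submodule.smul_mem _ _ (subset_span (by simp)))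
  have : C = B := block_eq hD hrs hC hB hsC hrC hs'B hr
  exact hxB (this ▸ hxC)

theorem dir3 [FiniteDimensional F V] {D : Set (Submodule F V)} (hD : IsSteiner 2 3 D) (hn : 3 < finrank F V)
    {x y z : V} (h : Ind3 F x y z) (hx : Alpha D x) {B : Submodule F V} (hB : B ∈ D) (hxB : x ∈ B) (hyB : y ∈ B)
    (hzB : z ∉ B) : Dir D x y z := by
  intro B₁ hB₁ B₂ hB₂ B₃ hB₃ y1 z1 x2 z2 x3 y3 b₁ hb₁ b₂ hb₂ b₃ hb₃ hsum
  have hx0 : x ≠ 0 := (ind2_iff.1 h.ind12).1
  obtain rfl : B₃ = B := block_eq hD h.ind12 hB₃ hB x3 y3 hxB hyB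
  obtain ⟨a, ha, has⟩ := exists_nonscalar hD hn le_rfl hx0 hx
  have hne : B₂ ≠ B₃ := by rintro rfl; exact hzB z2
  set U : Submodule F V := B₂ ⊔ B₃ with hU
  have hxU : x ∈ U := Submodule.mem_sup_left x2
  have hU5 : finrank F U ≤ 5 := by
    have h1 := Submodule.finrank_sup_add_finrank_inf_eq B₂ B₃
    rw [hD.1 B₂ hB₂, hD.1 B₃ hB₃, ← hU] at h1
    have h2 : span F {x} ≤ B₂ ⊓ B₃ := by rw [span_singleton_le_iff_mem]; exact ⟨x2, x3⟩
    have h3 := Submodule.finrank_mono h2
    rw [finrank_span_singleton hx0] at h3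
    omega
  have haU : ∀ u ∈ U, a u ∈ U := by
    intro u hu
    obtain ⟨p, hp, r, hr, rfl⟩ := Submodule.mem_sup.1 hu
    rw [map_add]
    exact add_mem (Submodule.mem_sup_left (ha.2 B₂ hB₂ x2 p hp)) (Submodule.mem_sup_right (ha.2 B₃ hB₃ x3 r hr))
  have hE : span F {x, y, z} ≤ U := by
    rw [span_le]
    rintro v (rfl | rfl | rfl)
    · exact hxU
    · exact Submodule.mem_sup_right y3
    · exact Submodule.mem_sup_left z2
  -- b₁ ∈ ⟨y,z⟩
  have hb1 : b₁ ∈ span F {y, z} := by
    by_contra hb1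
    have h3 : Ind3 F y z b₁ := ind3_iff.2 ⟨h.ind23, hb1⟩
    have hspan : span F {y, z, b₁} = B₁ := by
      apply Submodule.eq_of_le_of_finrank_eq
      · rw [span_le]
        rintro v (rfl | rfl | rfl) <;> assumption
      · rw [finrank_span3 h3, hD.1 B₁ hB₁]
    have hb1U : b₁ ∈ U := by
      have := sub_mem (hE hsum) (add_mem (Submodule.mem_sup_left hb₂ : b₂ ∈ U) (Submodule.mem_sup_right hb₃ : b₃ ∈ U))
      have e : b₁ + b₂ + b₃ - (b₂ + b₃) = b₁ := by abel
      rwa [e] at this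
    have hB1U : B₁ ≤ U := by
      rw [← hspan, span_le]
      rintro v (rfl | rfl | rfl)
      · exact Submodule.mem_sup_right y3
      · exact Submodule.mem_sup_left z2
      · exact hb1U
    have hxB1 : x ∈ B₁ := D3_claim hD hn hx0 ha has hxU hU5 haU hB₁ hB1U
    have : B₁ = B₃ := block_eq hD h.ind12 hB₁ hB₃ hxB1 y1 x3 y3
    exact hzB (this ▸ z1)
  -- b₂ ∈ ⟨x,z⟩
  obtain ⟨α, β, γ, hs⟩ : ∃ α β γ : F, α • x + β • y + γ • z = b₁ + b₂ + b₃ := by
    obtain ⟨α, v, hv, h1⟩ := mem_span_insert.1 hsum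
    obtain ⟨β, γ, h2⟩ := mem_span_pair.1 hv
    exact ⟨α, β, γ, by rw [h1, ← h2]; abel⟩
  obtain ⟨β', γ', hb1'⟩ := mem_span_pair.1 hb1
  have hk : b₂ - (γ - γ') • z ∈ span F {x} := by
    refine inter_block hD hx0 hB₂ hB₃ hne x2 x3 (sub_mem hb₂ (Submodule.smul_mem _ _ z2)) ?_
    have e : b₂ - (γ - γ') • z = α • x + (β - β') • y - b₃ := by
      have e1 : b₂ = α • x + β • y + γ • z - (β' • y + γ' • z) - b₃ := by
        rw [hs, hb1']; abel
      rw [e1]; module
    rw [e]
    exact sub_mem (add_mem (Submodule.smul_mem _ _ x3) (Submodule.smul_mem _ _ y3)) hb₃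
  have hb2 : b₂ ∈ span F {x, z} := by
    have h1 : b₂ - (γ - γ') • z ∈ span F {x, z} := span_mono (by simp) hk
    have h2 : (γ - γ') • z ∈ span F {x, z} := Submodule.smul_mem _ _ (subset_span (by simp))
    have := add_mem h1 h2
    simpa using this
  refine ⟨hb1, hb2, ?_⟩
  obtain ⟨α'', γ'', hb2'⟩ := mem_span_pair.1 hb2
  have e : b₃ = (α - α'') • x + (β - β') • y + (γ - γ' - γ'') • z := by
    have e1 : b₃ = α • x + β • y + γ • z - (β' • y + γ' • z) - (α'' • x + γ'' • z) := by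
      rw [hs, hb1', hb2']; abel
    rw [e1]; module
  have hγ : γ - γ' - γ'' = 0 := by
    by_contra hγ
    apply hzB
    rw [← Submodule.smul_mem_iff _ hγ]
    have e2 : (γ - γ' - γ'') • z = b₃ - ((α - α'') • x + (β - β') • y) := by rw [e]; abel
    rw [e2]
    exact sub_mem hb₃ (add_mem (Submodule.smul_mem _ _ x3) (Submodule.smul_mem _ _ y3))
  rw [e, hγ, zero_smul, add_zero]
  exact add_mem (Submodule.smul_mem _ _ (subset_span (by simp))) (Submodule.smul_mem _ _ (subset_span (by simp)))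

end Pool.Agent.LibGS68
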