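import Mathlib

/-!
# q-Steiner systems and Desarguesian derived spreads: definitions
-/

open Module Submodule

namespace Pool.Agent.LibGS68

variable {F V : Type*} [Field F] [AddCommGroup V] [Module F V]

/-- `D` is a q-Steiner system `S_q(t,k,n)` on `V` (`n = finrank F V`, `q = |F|`): every member (block) of `D` has
dimension `k`, and every `t`-dimensional subspace of `V` lies in exactly one block. -/
def IsSteiner (t k : ℕ) (D : Set (Submodule F V)) : Prop :=
  (∀ B ∈ D, finrank F B = k) ∧ ∀ T : Submodule F V, finrank F T = t → ∃! B, B ∈ D ∧ T ≤ B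

/-- The derived spread `{B / U : U ≤ B ∈ D}` of `V / U` is Desarguesian: there is a field `K` of `F`-linear maps of
`V / U` such that every `B / U` is a `K`-subspace of `F`-dimension `[K : F]` (so a one-dimensional `K`-subspace). -/
def DesarguesianAt (D : Set (Submodule F V)) (U : Submodule F V) : Prop :=
  ∃ K : Subalgebra F (Module.End F (V ⧸ U)), IsField K ∧
    ∀ B ∈ D, U ≤ B → finrank F (B.map U.mkQ) = finrank F K ∧
      ∀ a ∈ K, (B.map U.mkQ).map a ≤ B.map U.mkQ

/-- The endomorphisms of `V` fixing the point `⟨x⟩` and every block through `x`. -/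
def Ker (D : Set (Submodule F V)) (x : V) : Submodule F (V →ₗ[F] V) where
  carrier := {a | a x ∈ span F {x} ∧ ∀ B ∈ D, x ∈ B → ∀ v ∈ B, a v ∈ B}
  add_mem' := by
    rintro a b ⟨ha, ha'⟩ ⟨hb, hb'⟩
    exact ⟨by simpa using add_mem ha hb, fun B hB hx v hv => by
      simpa using add_mem (ha' B hB hx v hv) (hb' B hB hx v hv)⟩
  zero_mem' := ⟨by simp, fun B _ _ v _ => by simp⟩
  smul_mem' := by
    rintro c a ⟨ha, ha'⟩
    exact ⟨by simpa using Submodule.smul_mem _ c ha, fun B hB hx v hv => by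
      simpa using Submodule.smul_mem _ c (ha' B hB hx v hv)⟩

/-- `x` is an α-point: the maps in `Ker D x` are transitive on the non-zero vectors of `B / ⟨x⟩`. -/
def Alpha (D : Set (Submodule F V)) (x : V) : Prop :=
  ∀ B ∈ D, x ∈ B → ∀ y ∈ B, y ∉ span F {x} → ∀ u ∈ B, ∃ a ∈ Ker D x, a y - u ∈ span F {x}

/-- `a` is a scalar modulo `⟨x⟩`. -/
def ScalarAt (x : V) (a : V →ₗ[F] V) : Prop := ∃ c : F, ∀ v, a v - c • v ∈ span F {x}

/-- The plane `⟨x, y, z⟩` is direct: the blocks through its three lines are independent modulo the plane. -/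
def Dir (D : Set (Submodule F V)) (x y z : V) : Prop :=
  ∀ B₁ ∈ D, ∀ B₂ ∈ D, ∀ B₃ ∈ D, y ∈ B₁ → z ∈ B₁ → x ∈ B₂ → z ∈ B₂ → x ∈ B₃ → y ∈ B₃ →
    ∀ b₁ ∈ B₁, ∀ b₂ ∈ B₂, ∀ b₃ ∈ B₃, b₁ + b₂ + b₃ ∈ span F {x, y, z} →
      b₁ ∈ span F {y, z} ∧ b₂ ∈ span F {x, z} ∧ b₃ ∈ span F {x, y}

variable (F) in
/-- `x, y` are linearly independent. -/
def Ind2 (x y : V) : Prop := ∀ a b : F, a • x + b • y = 0 → a = 0 ∧ b = 0

variable (F) in
/-- `x, y, z` are linearly independent. -/
def Ind3 (x y z : V) : Prop := ∀ a b c : F, a • x + b • y + c • z = 0 → a = 0 ∧ b = 0 ∧ c = 0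

end Pool.Agent.LibGS68
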