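import Pool.Agent.LibGS68.HG
/-!
Row FAM (MEDIUM/HARD). The global family `J`.
Definition: `J x = c • a` if `x = c • z` (so `J z = a`, `J 0 = 0`); for `x ∉ ⟨z⟩`, `x ∈ W` (so `Ind2 F x z`) the map given by `transport`; `0` otherwise.
(A) `J x y + J y x ∈ ⟨x,y⟩` for `x, y ∈ W`:
 * not `Ind2 F x y`: trivial (`J x x ∈ ⟨x⟩` by `Ker`).
 * `Ind3 F x y z`: take `w` from `hW`.  `lemmaG` for the triple `(x, w, z)` (with `dir_swap23` of `Dir D x z w`) gives `J x w + J w x ∈ ⟨x,w⟩`; the same for `y`;
   then `lemmaG` for `(x, y, w)` with `a := J w` gives the claim.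
 * `Ind2 F x y`, `z ∈ ⟨x,y⟩`: if `x ∈ ⟨z⟩`: `x = c z`, `J x y + J y x = c (a y + J y z)` and `J y z + a y ∈ ⟨y,z⟩ ≤ ⟨x,y⟩`.  Same if `y ∈ ⟨z⟩`.  Otherwise
   `z = α x + β y`, `α, β ≠ 0`: `J x y = β⁻¹ (J x z - α J x x) = -β⁻¹ a x` mod `⟨x,y⟩`, `J y x = -α⁻¹ a y` mod `⟨x,y⟩`, and `a z = α a x + β a y ∈ ⟨z⟩`.
last property: `Ind2 F x z`: `nonscalar_transport`; `x = c z`, `c ≠ 0`: `J x = c • a`, `scalarAt_smul`.
-/
open Module Submodule
namespace Pool.Agent.LibGS68
variable {F V : Type*} [Field F] [AddCommGroup V] [Module F V]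

private theorem Fam_left {x y : V} : x ∈ span F {x, y} := subset_span (by simp)

private theorem Fam_right {x y : V} : y ∈ span F {x, y} := subset_span (by simp)

private theorem Fam_le {x y : V} {S : Submodule F V} (hx : x ∈ S) (hy : y ∈ S) :
    span F {x, y} ≤ S := by
  rw [span_le]
  rintro v (rfl | rfl)
  · exact hx
  · exact hy

private theorem Fam_le1 {x : V} {S : Submodule F V} (hx : x ∈ S) : span F {x} ≤ S := by
  rw [span_singleton_le_iff_mem]
  exact hx

private theorem Fam_le3 {x y z : V} {S : Submodule F V} (hx : x ∈ S) (hy : y ∈ S) (hz : z ∈ S) :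
    span F {x, y, z} ≤ S := by
  rw [span_le]
  rintro v (rfl | rfl | rfl)
  · exact hx
  · exact hy
  · exact hz

theorem family [FiniteDimensional F V] {k : ℕ} {D : Set (Submodule F V)} (hD : IsSteiner 2 k D)
    (hn : k < finrank F V) {W : Submodule F V} (hα : ∀ x ∈ W, x ≠ 0 → Alpha D x) (hW : HasGood D W)
    {z : V} (hz : z ∈ W) (hz0 : z ≠ 0) {a : V →ₗ[F] V} (ha : a ∈ Ker D z) :
    ∃ J : V → (V →ₗ[F] V), J z = a ∧ (∀ x ∈ W, J x ∈ Ker D x) ∧
      (∀ x ∈ W, ∀ y ∈ W, J x y + J y x ∈ span F {x, y}) ∧ (∀ x ∈ W, J x z + a x ∈ span F {x, z}) ∧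
      (∀ x ∈ W, x ≠ 0 → ScalarAt x (J x) → ScalarAt z a) := by
  -- either a multiple of `z` or independent
  have hcase : ∀ x : V, (∃ c : F, x = c • z) ∨ Ind2 F x z := by
    intro x
    by_cases h : x ∈ span F {z}
    · obtain ⟨c, hc⟩ := mem_span_singleton.1 h
      exact Or.inl ⟨c, hc.symm⟩
    · exact Or.inr (Ind2.symm (ind2_iff.2 ⟨hz0, h⟩))
  have hex : ∀ x : V, ∃ j : V →ₗ[F] V, (∀ c : F, x = c • z → j = c • a) ∧
      (x ∈ W → Ind2 F x z → j ∈ Ker D x ∧ j z + a x ∈ span F {x, z}) := by
    intro x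
    rcases hcase x with ⟨c, rfl⟩ | h
    · refine ⟨c • a, fun d hd => ?_, fun _ h => ?_⟩
      · rw [smul_left_injective F hz0 hd]
      · have := h 1 (-c) (by rw [one_smul, neg_smul, add_neg_cancel])
        exact absurd this.1 one_ne_zero
    · by_cases hx : x ∈ W
      · obtain ⟨j, hj, hj'⟩ := transport hD h ha (hα x hx (ind2_iff.1 h).1)
        refine ⟨j, fun c hc => ?_, fun _ _ => ⟨hj, hj'⟩⟩
        have := h 1 (-c) (by rw [one_smul, neg_smul, hc, add_neg_cancel])
        exact absurd this.1 one_ne_zero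
      · refine ⟨0, fun c hc => ?_, fun hx' => absurd hx' hx⟩
        exact absurd (hc ▸ W.smul_mem c hz) hx
  choose J hJ1 hJ2 using hex
  have haz : a z ∈ span F {z} := ha.1
  have hKer : ∀ x ∈ W, J x ∈ Ker D x := by
    intro x hx
    rcases hcase x with ⟨c, rfl⟩ | h
    · rw [hJ1 _ c rfl]
      by_cases hc : c = 0
      · rw [hc, zero_smul F a]
        exact Submodule.zero_mem _
      · rw [ker_smul hc]
        exact smul_mem _ c ha
    · exact (hJ2 x hx h).1
  have hB : ∀ x ∈ W, J x z + a x ∈ span F {x, z} := by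
    intro x hx
    rcases hcase x with ⟨c, rfl⟩ | h
    · rw [hJ1 _ c rfl, LinearMap.smul_apply, map_smul]
      exact add_mem (smul_mem _ _ (Fam_le1 Fam_right haz)) (smul_mem _ _ (Fam_le1 Fam_right haz))
    · exact (hJ2 x hx h).2
  have hself : ∀ x ∈ W, J x x ∈ span F {x} := fun x hx => (hKer x hx).1
  -- the case of a multiple
  have hmul : ∀ x ∈ W, ∀ y ∈ W, ¬ Ind2 F x y → J x y ∈ span F {x, y} := by
    intro x hx y hy h
    by_cases hx0 : x = 0
    · have h0 : J x = 0 := by
        rw [hJ1 x 0 (by rw [hx0, zero_smul]), zero_smul]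
      rw [h0, LinearMap.zero_apply]
      exact zero_mem _
    · have hy' : y ∈ span F {x} := by
        by_contra hc
        exact h (ind2_iff.2 ⟨hx0, hc⟩)
      obtain ⟨c, rfl⟩ := mem_span_singleton.1 hy'
      rw [map_smul]
      exact smul_mem _ _ (Fam_le1 Fam_left (hself x hx))
  -- the case `x ∈ ⟨z⟩`
  have hone : ∀ x ∈ W, ∀ y ∈ W, ∀ c : F, x = c • z → J x y + J y x ∈ span F {x, y} := by
    intro x hx y hy c hc
    by_cases hc0 : c = 0
    · rw [hJ1 x c hc, hc, hc0, zero_smul, zero_smul, LinearMap.zero_apply, map_zero, add_zero]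
      exact zero_mem _
    · have h1 : J x y + J y x = c • (J y z + a y) := by
        rw [hJ1 x c hc, hc, map_smul, LinearMap.smul_apply, smul_add, add_comm]
      have h2 : z ∈ span F {x, y} := by
        have h3 : z = c⁻¹ • x := by rw [hc, smul_smul, inv_mul_cancel₀ hc0, one_smul]
        rw [h3]
        exact smul_mem _ _ Fam_left
      rw [h1]
      exact smul_mem _ _ (Fam_le Fam_right h2 (hB y hy))
  have hA : ∀ x ∈ W, ∀ y ∈ W, J x y + J y x ∈ span F {x, y} := by
    intro x hx y hy
    by_cases h2 : Ind2 F x y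
    · by_cases h3 : Ind3 F x y z
      · obtain ⟨w, hw, i1, i2, i3, d1, d2, d3⟩ := hW x hx y hy z hz h3
        have g1 : J x w + J w x ∈ span F {x, w} :=
          lemmaG hD hn i2.swap23 (dir_swap23 d2)
            (fun v hv hv0 => hα v (Fam_le3 hx hw hz hv) hv0) ha (hKer x hx) (hKer w hw)
            (hB x hx) (hB w hw)
        have g2 : J y w + J w y ∈ span F {y, w} :=
          lemmaG hD hn i3.swap23 (dir_swap23 d3)
            (fun v hv hv0 => hα v (Fam_le3 hy hw hz hv) hv0) ha (hKer y hy) (hKer w hw)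
            (hB y hy) (hB w hw)
        exact lemmaG hD hn i1 d1 (fun v hv hv0 => hα v (Fam_le3 hx hy hw hv) hv0)
          (hKer w hw) (hKer x hx) (hKer y hy) g1 g2
      · have hzs : z ∈ span F {x, y} := by
          by_contra hc
          exact h3 (ind3_iff.2 ⟨h2, hc⟩)
        rcases hcase x with ⟨c, hc⟩ | hxz
        · exact hone x hx y hy c hc
        rcases hcase y with ⟨c, hc⟩ | hyz
        · have h4 := hone y hy x hx c hc
          rw [add_comm, Set.pair_comm]
          exact h4
        obtain ⟨α, β, hαβ⟩ := mem_span_pair.1 hzs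
        have hβ : β ≠ 0 := by
          intro h0
          rw [h0, zero_smul, add_zero] at hαβ
          have := hxz α (-1) (by rw [hαβ, neg_smul, one_smul, add_neg_cancel])
          exact one_ne_zero (neg_eq_zero.1 this.2)
        have hα' : α ≠ 0 := by
          intro h0
          rw [h0, zero_smul, zero_add] at hαβ
          have := hyz β (-1) (by rw [hαβ, neg_smul, one_smul, add_neg_cancel])
          exact one_ne_zero (neg_eq_zero.1 this.2)
        have e1 : β • J x y + a x ∈ span F {x, y} := by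
          have h5 : J x z + a x ∈ span F {x, y} := Fam_le Fam_left hzs (hB x hx)
          have h6 : α • J x x ∈ span F {x, y} := smul_mem _ _ (Fam_le1 Fam_left (hself x hx))
          have h7 : β • J x y + a x = (J x z + a x) - α • J x x := by
            rw [← hαβ, map_add, map_smul, map_smul]
            abel
          rw [h7]
          exact sub_mem h5 h6
        have e2 : α • J y x + a y ∈ span F {x, y} := by
          have h5 : J y z + a y ∈ span F {x, y} := Fam_le Fam_right hzs (hB y hy)
          have h6 : β • J y y ∈ span F {x, y} := smul_mem _ _ (Fam_le1 Fam_right (hself y hy))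
          have h7 : α • J y x + a y = (J y z + a y) - β • J y y := by
            rw [← hαβ, map_add, map_smul, map_smul]
            abel
          rw [h7]
          exact sub_mem h5 h6
        have e3 : a z ∈ span F {x, y} := Fam_le1 hzs haz
        have h8 : J x y + J y x = (α * β)⁻¹ • (α • (β • J x y + a x) + β • (α • J y x + a y) -
            a z) := by
          rw [← hαβ, map_add, map_smul, map_smul]
          have h9 : α • (β • J x y + a x) + β • (α • J y x + a y) - (α • a x + β • a y) =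
              (α * β) • (J x y + J y x) := by
            module
          rw [h9, smul_smul, inv_mul_cancel₀ (mul_ne_zero hα' hβ), one_smul]
        rw [h8]
        exact smul_mem _ _ (sub_mem (add_mem (smul_mem _ _ e1) (smul_mem _ _ e2)) e3)
    · refine add_mem (hmul x hx y hy h2) ?_
      rw [Set.pair_comm]
      exact hmul y hy x hx fun h => h2 h.symm
  refine ⟨J, ?_, hKer, hA, hB, ?_⟩
  · rw [hJ1 z 1 (by rw [one_smul]), one_smul]
  · intro x hx hx0 hs
    rcases hcase x with ⟨c, hc⟩ | h
    · have hc0 : c ≠ 0 := by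
        rintro rfl
        exact hx0 (by rw [hc, zero_smul])
      rw [hJ1 x c hc, hc, scalarAt_smul hc0] at hs
      obtain ⟨d, hd⟩ := hs
      refine ⟨c⁻¹ * d, fun v => ?_⟩
      have h1 : a v - (c⁻¹ * d) • v = c⁻¹ • ((c • a) v - d • v) := by
        rw [smul_sub, LinearMap.smul_apply, smul_smul, smul_smul, inv_mul_cancel₀ hc0, one_smul]
      rw [h1]
      exact smul_mem _ _ (hd v)
    · exact nonscalar_transport hD hn h ha (hB x hx) hs

end Pool.Agent.LibGS68
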