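import Pool.Agent.LibGS68.T1
/-!
Row T2 (MEDIUM). `U := T ⊔ ⟨u⟩`, `x := T.mkQ u ≠ 0`.  `h` gives a field `K` of endomorphisms of `V ⧸ U` preserving all `B / U`.
Let `B' = B / T ∈ derivedAt T D`, `x ∈ B'`, so `u ∈ B` (`T ≤ B`), `U ≤ B`; let `y' = T.mkQ y ∈ B' \ ⟨x⟩` (so `y ∈ B \ U`), `u' = T.mkQ w ∈ B'`.
The map `K → B / U`, `a ↦ a (U.mkQ y)` is injective (`K` is a field, `U.mkQ y ≠ 0`: a nonzero `a` has an inverse in `K`) and `finrank K = finrank (B/U)`, so it is onto: `a ∈ K` with `a (U.mkQ y) = U.mkQ w`.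
Let `π : V ⧸ T → V ⧸ U` be the factor map (`Submodule.mapQ T U LinearMap.id` or `Submodule.factor`), surjective, `ker π = span {x}`.  Lift: `a' : V ⧸ T →ₗ V ⧸ T` with `π ∘ a' = a ∘ π` (`π` has a linear section `s`:
`a' = s ∘ a ∘ π`; `LinearMap.exists_rightInverse_of_surjective`).  Then `a' x ∈ ker π = ⟨x⟩`, `a'` preserves every `C' = C / T` with `x ∈ C'` (`C ≥ U`; `π (a' v) = a (π v) ∈ C / U`, `ker π ≤ C'`), i.e.
`a' ∈ Ker (derivedAt T D) x`, and `π (a' y' - u') = 0`.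
-/
open Module Submodule
namespace Pool.Agent.LibGS68
variable {F V : Type*} [Field F] [AddCommGroup V] [Module F V]

theorem alpha_derived [FiniteDimensional F V] {D : Set (Submodule F V)} {T : Submodule F V} {u : V} (hu : u ∉ T)
    (h : DesarguesianAt D (T ⊔ span F {u})) : Alpha (derivedAt T D) (T.mkQ u) := by
  obtain ⟨U, hU⟩ : ∃ U : Submodule F V, U = T ⊔ span F {u} := ⟨_, rfl⟩
  rw [← hU] at h
  obtain ⟨K, hK, hKB⟩ := h
  have hTU : T ≤ U := hU ▸ le_sup_left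
  have huU : u ∈ U := hU ▸ Submodule.mem_sup_right (mem_span_singleton_self u)
  -- the factor map
  let π : (V ⧸ T) →ₗ[F] (V ⧸ U) := T.mapQ U LinearMap.id (by simpa using hTU)
  have hπ : ∀ v, π (T.mkQ v) = U.mkQ v := fun v ↦ rfl
  have hπs : Function.Surjective π := by
    intro z
    obtain ⟨v, rfl⟩ := U.mkQ_surjective z
    exact ⟨T.mkQ v, hπ v⟩
  obtain ⟨σ, hσ⟩ := LinearMap.exists_rightInverse_of_surjective π (LinearMap.range_eq_top.2 hπs)
  have hσ' : ∀ z, π (σ z) = z := fun z ↦ by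
    have := congrArg (fun g : (V ⧸ U) →ₗ[F] (V ⧸ U) ↦ g z) hσ
    exact this
  have hker : ∀ z, π z = 0 → z ∈ span F {T.mkQ u} := by
    intro z hz
    obtain ⟨v, rfl⟩ := T.mkQ_surjective z
    rw [hπ, mkQ_apply, Submodule.Quotient.mk_eq_zero] at hz
    rw [hU] at hz
    obtain ⟨t, ht, s, hs, rfl⟩ := Submodule.mem_sup.1 hz
    obtain ⟨c, rfl⟩ := mem_span_singleton.1 hs
    have e : T.mkQ (t + c • u) = c • T.mkQ u := by
      rw [map_add, map_smul, show T.mkQ t = 0 from (Submodule.Quotient.mk_eq_zero T).2 ht, zero_add]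
    rw [e]
    exact Submodule.smul_mem _ _ (mem_span_singleton_self _)
  have hπu : π (T.mkQ u) = 0 := by
    rw [hπ, mkQ_apply, Submodule.Quotient.mk_eq_zero]; exact huU
  rintro B' ⟨B, hB, hTB, rfl⟩ hxB y' hy' hyx w' hw'
  have lift_mem : ∀ (C : Submodule F V), T ≤ C → ∀ v, T.mkQ v ∈ C.map T.mkQ → v ∈ C := by
    rintro C hC v ⟨c, hc, hcv⟩
    have h1 : T.mkQ (c - v) = 0 := by rw [map_sub, hcv, sub_self]
    rw [mkQ_apply, Submodule.Quotient.mk_eq_zero] at h1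
    have e : v = c - (c - v) := by abel
    rw [e]; exact sub_mem hc (hC h1)
  have hUC : ∀ C : Submodule F V, T ≤ C → T.mkQ u ∈ C.map T.mkQ → U ≤ C := by
    intro C hC hCu
    rw [hU, sup_le_iff, span_singleton_le_iff_mem]
    exact ⟨hC, lift_mem C hC u hCu⟩
  have hUB := hUC B hTB hxB
  obtain ⟨hfin, hpres⟩ := hKB B hB hUB
  obtain ⟨y, hyB, rfl⟩ := hy'
  obtain ⟨w, hwB, rfl⟩ := hw'
  have hy0 : U.mkQ y ≠ 0 := by
    intro h0
    exact hyx (hker _ (by rw [hπ]; exact h0))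
  -- evaluation at y
  let ev : K →ₗ[F] (V ⧸ U) :=
    { toFun := fun a ↦ (a : Module.End F (V ⧸ U)) (U.mkQ y)
      map_add' := by intro a b; rfl
      map_smul' := by intro c a; rfl }
  have hinj : Function.Injective ev := by
    intro a b hab
    by_contra hne
    let d : K := a - b
    have hd : d ≠ 0 := sub_ne_zero.2 hne
    obtain ⟨e, he⟩ := hK.mul_inv_cancel hd
    apply hy0
    have h1 : (d : Module.End F (V ⧸ U)) (U.mkQ y) = 0 := by
      change (a : Module.End F (V ⧸ U)) (U.mkQ y) - (b : Module.End F (V ⧸ U)) (U.mkQ y) = 0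
      exact sub_eq_zero.2 hab
    have h2 : e * d = 1 := by rw [hK.mul_comm]; exact he
    have h3 : ((e * d : K) : Module.End F (V ⧸ U)) (U.mkQ y) = U.mkQ y := by rw [h2]; rfl
    have h4 : ((e * d : K) : Module.End F (V ⧸ U)) (U.mkQ y) =
        (e : Module.End F (V ⧸ U)) ((d : Module.End F (V ⧸ U)) (U.mkQ y)) := rfl
    rw [← h3, h4, h1, map_zero]
  have hfr : finrank F (LinearMap.range ev) = finrank F (B.map U.mkQ) := by
    rw [hfin]
    exact (LinearEquiv.finrank_eq (LinearEquiv.ofInjective ev hinj)).symm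
  have hle : LinearMap.range ev ≤ B.map U.mkQ := by
    rintro z ⟨a, rfl⟩
    exact hpres a a.2 ⟨U.mkQ y, ⟨y, hyB, rfl⟩, rfl⟩
  have heq := Submodule.eq_of_le_of_finrank_eq hle hfr
  obtain ⟨a, ha'⟩ : U.mkQ w ∈ LinearMap.range ev := by
    rw [heq]; exact ⟨w, hwB, rfl⟩
  replace ha' : (a : Module.End F (V ⧸ U)) (U.mkQ y) = U.mkQ w := ha'
  let A : (V ⧸ T) →ₗ[F] (V ⧸ T) := σ ∘ₗ (a : Module.End F (V ⧸ U)) ∘ₗ π
  have hA : ∀ z, π (A z) = (a : Module.End F (V ⧸ U)) (π z) := fun z ↦ hσ' _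
  refine ⟨A, ⟨?_, ?_⟩, ?_⟩
  · apply hker
    rw [hA, hπu, map_zero]
  · rintro C' ⟨C, hC, hTC, rfl⟩ hxC v' hv'
    have hUC' := hUC C hTC hxC
    obtain ⟨v, hv, rfl⟩ := hv'
    have h1 : π (A (T.mkQ v)) ∈ C.map U.mkQ := by
      rw [hA, hπ]
      exact (hKB C hC hUC').2 a a.2 ⟨U.mkQ v, ⟨v, hv, rfl⟩, rfl⟩
    obtain ⟨c, hc, hcv⟩ := h1
    have h2 : π (A (T.mkQ v) - T.mkQ c) = 0 := by
      rw [map_sub, hπ, hcv, sub_self]
    have h3 := hker _ h2
    have h4 : span F {T.mkQ u} ≤ C.map T.mkQ := (span_singleton_le_iff_mem _ _).2 hxC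
    have e : A (T.mkQ v) = (A (T.mkQ v) - T.mkQ c) + T.mkQ c := by abel
    rw [e]
    exact add_mem (h4 h3) ⟨c, hc, rfl⟩
  · apply hker
    rw [map_sub, hA, hπ, hπ, ha', sub_self]

end Pool.Agent.LibGS68
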