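import Pool.Agent.LibGS68.Defs
/-!
Row T3 (MEDIUM). The Desarguesian spread (`t = 1`).  `n = k s`.  Let `K` be a field extension of `F` of degree `k` (exists for finite `F`: e.g. an irreducible polynomial of degree `k` and `AdjoinRoot`, or
`GaloisField`/`FiniteField` API).  `V₀ := Fin s → K` has `finrank F V₀ = k s = n`; `D₀ := {(span K {v}).restrictScalars F | v ≠ 0}`.  It is `IsSteiner 1 k`: each 1-space `⟨v⟩` lies in `K v` only.
`DesarguesianAt D₀ U` for `U = ⊥` (`finrank U = 0`): the subalgebra of the maps `v ↦ c v` (`c ∈ K`) of `V₀ ⧸ ⊥` (transport along `V₀ ≃ V₀ ⧸ ⊥`; `s ≥ 1` unless `n = 0`; if `n = 0` take any: `D = ∅` works and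
`K := ⊥` subalgebra is a field only if `V ≠ 0`, so treat `n = 0` apart or note `0 < n` is given).  Transport to `Fin n → F` by a linear equivalence (prove a small transport lemma for `IsSteiner` and `DesarguesianAt`,
or define `D` directly as a set of `Submodule.map e`).
-/
open Module Submodule
namespace Pool.Agent.LibGS68

private theorem T3_ext (F : Type) [Field F] [Finite F] {k : ℕ} (hk : 1 ≤ k) :
    ∃ (K : Type) (_ : Field K) (_ : Algebra F K), FiniteDimensional F K ∧ finrank F K = k := by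
  obtain ⟨p, hp⟩ := CharP.exists F
  have hp' : Fact p.Prime := by
    rcases CharP.char_is_prime_or_zero F p with h | h
    · exact ⟨h⟩
    · subst h
      have : CharZero F := CharP.charP_to_charZero F
      exact absurd (inferInstance : Finite F) (not_finite_iff_infinite.2 inferInstance)
  have : NeZero k := ⟨by omega⟩
  exact ⟨FiniteField.Extension F p k, inferInstance, inferInstance, inferInstance,
    FiniteField.finrank_extension F p k⟩

section

variable {F K V : Type} [Field F] [Field K] [Algebra F K] [AddCommGroup V] [Module F V] {s : ℕ}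

private noncomputable def T3_map (e : (Fin s → K) ≃ₗ[F] V) (v : Fin s → K) : K →ₗ[F] V :=
  e.toLinearMap ∘ₗ (LinearMap.toSpanSingleton K (Fin s → K) v).restrictScalars F

private theorem T3_map_apply (e : (Fin s → K) ≃ₗ[F] V) (v : Fin s → K) (c : K) :
    T3_map e v c = e (c • v) := rfl

private theorem T3_map_inj (e : (Fin s → K) ≃ₗ[F] V) {v : Fin s → K} (hv : v ≠ 0) :
    Function.Injective (T3_map e v) := by
  intro a b h
  rw [T3_map_apply, T3_map_apply] at h
  have h1 := e.injective h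
  have h2 : (a - b) • v = 0 := by rw [sub_smul, h1, sub_self]
  rcases smul_eq_zero.1 h2 with h3 | h3
  · exact sub_eq_zero.1 h3
  · exact absurd h3 hv

private noncomputable def T3_blk (e : (Fin s → K) ≃ₗ[F] V) (v : Fin s → K) : Submodule F V :=
  LinearMap.range (T3_map e v)

private theorem T3_mem_blk (e : (Fin s → K) ≃ₗ[F] V) (v : Fin s → K) (w : V) :
    w ∈ T3_blk e v ↔ ∃ c : K, e (c • v) = w := Iff.rfl

private theorem T3_finrank_blk [FiniteDimensional F K] (e : (Fin s → K) ≃ₗ[F] V)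
    {v : Fin s → K} (hv : v ≠ 0) : finrank F (T3_blk e v) = finrank F K :=
  LinearMap.finrank_range_of_inj (T3_map_inj e hv)

private theorem T3_blk_smul (e : (Fin s → K) ≃ₗ[F] V) (v : Fin s → K) {c : K} (hc : c ≠ 0) :
    T3_blk e (c • v) = T3_blk e v := by
  ext w
  rw [T3_mem_blk, T3_mem_blk]
  constructor
  · rintro ⟨d, rfl⟩
    exact ⟨d * c, by rw [mul_smul]⟩
  · rintro ⟨d, rfl⟩
    exact ⟨d * c⁻¹, by rw [smul_smul, mul_assoc, inv_mul_cancel₀ hc, mul_one]⟩

private def T3_D (e : (Fin s → K) ≃ₗ[F] V) : Set (Submodule F V) :=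
  {B | ∃ v : Fin s → K, v ≠ 0 ∧ B = T3_blk e v}

private theorem T3_steiner [FiniteDimensional F K] (e : (Fin s → K) ≃ₗ[F] V) :
    IsSteiner 1 (finrank F K) (T3_D e) := by
  refine ⟨?_, ?_⟩
  · rintro B ⟨v, hv, rfl⟩
    exact T3_finrank_blk e hv
  · intro T hT
    obtain ⟨⟨w, hwT⟩, hw0, hw⟩ := finrank_eq_one_iff'.1 hT
    have hw0' : w ≠ 0 := fun h => hw0 (by ext; exact h)
    have hle : ∀ B : Submodule F V, T ≤ B ↔ w ∈ B := by
      intro B
      constructor
      · intro h
        exact h hwT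
      · intro h x hx
        obtain ⟨c, hc⟩ := hw ⟨x, hx⟩
        have : c • w = x := congrArg Subtype.val hc
        rw [← this]
        exact B.smul_mem c h
    have hne : e.symm w ≠ 0 := by
      intro h
      apply hw0'
      rw [← e.apply_symm_apply w, h, map_zero]
    refine ⟨T3_blk e (e.symm w), ⟨⟨e.symm w, hne, rfl⟩, ?_⟩, ?_⟩
    · rw [hle, T3_mem_blk]
      exact ⟨1, by rw [one_smul, e.apply_symm_apply]⟩
    · rintro B ⟨⟨v, hv, rfl⟩, hB⟩
      rw [hle, T3_mem_blk] at hB
      obtain ⟨c, hc⟩ := hB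
      have hc0 : c ≠ 0 := by
        rintro rfl
        apply hw0'
        rw [← hc, zero_smul, map_zero]
      rw [← hc, e.symm_apply_apply, T3_blk_smul e v hc0]

private theorem T3_des [FiniteDimensional F K] (hs : 0 < s) (e : (Fin s → K) ≃ₗ[F] V)
    (U : Submodule F V) (hU : U = ⊥) : DesarguesianAt (T3_D e) U := by
  have : Nonempty (Fin s) := ⟨⟨0, hs⟩⟩
  let E : (Fin s → K) ≃ₗ[F] (V ⧸ U) := e.trans (Submodule.quotEquivOfEqBot U hU).symm
  have hE : ∀ v, E v = U.mkQ (e v) := fun v => rfl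
  let φ : K →ₐ[F] Module.End F (V ⧸ U) :=
    (E.conjAlgEquiv F).toAlgHom.comp (Algebra.lsmul F F (Fin s → K))
  have hφ : ∀ (c : K) (v : Fin s → K), φ c (E v) = E (c • v) := by
    intro c v
    show E (c • E.symm (E v)) = E (c • v)
    rw [E.symm_apply_apply]
  have hnt : Nontrivial (V ⧸ U) := E.symm.toEquiv.nontrivial
  have hinj : Function.Injective φ := φ.toRingHom.injective
  refine ⟨φ.range, ?_, ?_⟩
  · exact MulEquiv.isField (Field.toIsField K) (AlgEquiv.ofInjective φ hinj).symm.toMulEquiv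
  · rintro B ⟨v, hv, rfl⟩ -
    have hB : (T3_blk e v).map U.mkQ = T3_blk E v := by
      ext w
      rw [Submodule.mem_map, T3_mem_blk]
      constructor
      · rintro ⟨x, hx, rfl⟩
        obtain ⟨c, hc⟩ := (T3_mem_blk e v x).1 hx
        exact ⟨c, by rw [hE, hc]⟩
      · rintro ⟨c, rfl⟩
        exact ⟨e (c • v), (T3_mem_blk e v _).2 ⟨c, rfl⟩, (hE _).symm⟩
    rw [hB]
    refine ⟨?_, ?_⟩
    · rw [T3_finrank_blk E hv]
      exact (AlgEquiv.ofInjective φ hinj).toLinearEquiv.finrank_eq
    · rintro a ⟨c, rfl⟩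
      rintro w ⟨x, hx, rfl⟩
      obtain ⟨d, rfl⟩ := (T3_mem_blk E v x).1 hx
      rw [T3_mem_blk]
      refine ⟨c * d, ?_⟩
      rw [mul_smul]
      exact (hφ c (d • v)).symm

end

theorem exists_spread {F : Type} [Field F] [Finite F] {k n : ℕ} (hk : 1 ≤ k) (hn : 1 ≤ n) (h : k ∣ n) :
    ∃ D : Set (Submodule F (Fin n → F)), IsSteiner 1 k D ∧ ∀ U : Submodule F (Fin n → F), finrank F U + 1 = 1 →
      DesarguesianAt D U := by
  obtain ⟨K, iK, iA, hfd, hK⟩ := T3_ext F hk
  obtain ⟨s, rfl⟩ := h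
  have hs : 0 < s := by
    rcases Nat.eq_zero_or_pos s with h | h
    · subst h
      simp at hn
    · exact h
  have hr : finrank F (Fin s → K) = finrank F (Fin (k * s) → F) := by
    rw [Module.finrank_pi_fintype, Module.finrank_fin_fun]
    simp [hK, mul_comm]
  let e : (Fin s → K) ≃ₗ[F] (Fin (k * s) → F) := LinearEquiv.ofFinrankEq _ _ hr
  refine ⟨T3_D e, ?_, ?_⟩
  · have := T3_steiner e
    rwa [hK] at this
  · intro U hU
    exact T3_des hs e U (Submodule.finrank_eq_zero.1 (by omega))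

end Pool.Agent.LibGS68
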