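import Pool.Agent.LibGS68.T1
/-!
Row T4 (EASY/MEDIUM). `t = 1`: `k ∣ n`.
-/
open Module Submodule
namespace Pool.Agent.LibGS68
variable {F V : Type*} [Field F] [AddCommGroup V] [Module F V]

theorem dvd_of_spread [Finite F] [FiniteDimensional F V] {k : ℕ} {D : Set (Submodule F V)} (hD : IsSteiner 1 k D)
    (h : DesarguesianAt D ⊥) (hn : 0 < finrank F V) : k ∣ finrank F V := by
  obtain ⟨K, hK, hB⟩ := h
  obtain ⟨x, hx0⟩ : ∃ x : V, x ≠ 0 := (Module.finrank_pos_iff_exists_ne_zero (R := F) (M := V)).1 hn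
  obtain ⟨B, ⟨hBD, -⟩, -⟩ := hD.2 (span F {x}) (finrank_span_singleton hx0)
  have h1 := (hB B hBD bot_le).1
  have e : finrank F (B.map (⊥ : Submodule F V).mkQ) = finrank F B := by
    have := T1_finrank (T := (⊥ : Submodule F V)) (B := B) bot_le
    rwa [finrank_bot, add_zero] at this
  letI : Field K := hK.toField
  have h2 := Module.finrank_mul_finrank F K (V ⧸ (⊥ : Submodule F V))
  rw [← h1, e, hD.1 B hBD] at h2
  have h3 : finrank F (V ⧸ (⊥ : Submodule F V)) = finrank F V := (Submodule.quotEquivOfEqBot ⊥ rfl).finrank_eq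
  rw [← h3, ← h2]
  exact dvd_mul_right _ _

end Pool.Agent.LibGS68
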