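import Pool.Agent.LibGS68.Core
import Pool.Agent.LibGS68.T2
import Pool.Agent.LibGS68.T3
import Pool.Agent.LibGS68.T4
open Module Submodule
namespace Pool.Agent.LibGS68
variable {F V : Type*} [Field F] [AddCommGroup V] [Module F V]

theorem local_main [Finite F] [FiniteDimensional F V] {t k : ℕ} (ht : 2 ≤ t) (htk : t < k) (hkn : k < finrank F V)
    {D : Set (Submodule F V)} (hD : IsSteiner t k D) {T : Submodule F V} (hT : finrank F T + 2 = t) :
    ∃ U : Submodule F V, T ≤ U ∧ finrank F U + 1 = t ∧ ¬ DesarguesianAt D U := by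
  by_contra hcon
  push Not at hcon
  refine core (D := derivedAt T D) (k := k - (t - 2)) (by omega) (derived_steiner hD ht htk hT) ?_ ?_
  · have := Submodule.finrank_quotient_add_finrank T
    omega
  · intro x hx
    obtain ⟨u, rfl⟩ := T.mkQ_surjective x
    have hu : u ∉ T := fun h => hx (by simpa using h)
    refine alpha_derived hu (hcon _ le_sup_left ?_)
    have hdis : Disjoint T (span F {u}) := by
      rw [disjoint_span_singleton' (by rintro rfl; exact hu T.zero_mem)]
      exact hu
    have h1 := Submodule.finrank_sup_add_finrank_inf_eq T (span F {u})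
    rw [hdis.eq_bot, finrank_bot, finrank_span_singleton (by rintro rfl; exact hu T.zero_mem)] at h1
    omega

theorem main {F : Type} [Field F] [Finite F] {t k n : ℕ} (ht : 1 ≤ t) (htk : t < k) (hkn : k < n) :
    ((∃ D : Set (Submodule F (Fin n → F)), IsSteiner t k D ∧
        ∀ U : Submodule F (Fin n → F), finrank F U + 1 = t → DesarguesianAt D U) ↔ t = 1 ∧ k ∣ n) ∧
    (∀ D : Set (Submodule F (Fin n → F)), IsSteiner t k D →
      ∀ T : Submodule F (Fin n → F), finrank F T + 2 = t →
        ∃ U : Submodule F (Fin n → F), T ≤ U ∧ finrank F U + 1 = t ∧ ¬ DesarguesianAt D U) := by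
  have hfr : finrank F (Fin n → F) = n := by simp
  refine ⟨⟨?_, ?_⟩, fun D hD T hT => local_main (by omega) htk (by omega) hD hT⟩
  · rintro ⟨D, hD, hU⟩
    rcases Nat.lt_or_ge 1 t with h | h
    · exfalso
      -- a (t-2)-space
      obtain ⟨T, hT⟩ : ∃ T : Submodule F (Fin n → F), finrank F T = t - 2 := by
        let g : Fin (t - 2) → Fin n := Fin.castLE (by omega)
        have hli : LinearIndependent F (fun i => Pi.basisFun F (Fin n) (g i)) :=
          (Pi.basisFun F (Fin n)).linearIndependent.comp g (Fin.castLE_injective _)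
        exact ⟨span F (Set.range fun i => Pi.basisFun F (Fin n) (g i)), by
          rw [finrank_span_eq_card hli]; simp⟩
      obtain ⟨U, -, h1, h2⟩ := local_main (by omega) htk (by omega) hD (T := T) (by omega)
      exact h2 (hU U h1)
    · obtain rfl : t = 1 := by omega
      refine ⟨rfl, ?_⟩
      have := dvd_of_spread hD (hU ⊥ (by simp)) (by omega)
      rwa [hfr] at this
  · rintro ⟨rfl, h⟩
    exact exists_spread (by omega) (by omega) h

end Pool.Agent.LibGS68
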