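import Pool.Agent.LibGS68.Bound
import Pool.Agent.LibGS68.FinalI
import Pool.Agent.LibGS68.CB
open Module Submodule
namespace Pool.Agent.LibGS68
variable {F V : Type*} [Field F] [AddCommGroup V] [Module F V]

/-- The lower bound for the codimension of a subspace all of whose derived spreads are Desarguesian. -/
def codimBound (q t k n : ℕ) : ℕ :=
  if k = t + 1 then
    (if q = 2 then (if (n - t) % 4 = 1 then (n - t + 1) / 2 else (n - t - 1) / 2) else (n - t + 1) / 2 + 1)
  else min ((n - t + 1) / (k - t + 1) + 1) (n - t + 2 - 4 * (k - t + 1))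

theorem codim_main [Finite F] [FiniteDimensional F V] {t k : ℕ} (ht : 2 ≤ t) (htk : t < k) (hkn : k < finrank F V)
    {D : Set (Submodule F V)} (hD : IsSteiner t k D) {T : Submodule F V} (hT : finrank F T + 2 = t)
    {W : Submodule F V} (hTW : T ≤ W)
    (hW : ∀ U : Submodule F V, T ≤ U → U ≤ W → finrank F U + 1 = t → DesarguesianAt D U) :
    codimBound (Nat.card F) t k (finrank F V) + finrank F W ≤ finrank F V := by
  have hq : 2 ≤ Nat.card F := Finite.one_lt_card
  have hD' := derived_steiner hD ht htk hT
  have hn' := Submodule.finrank_quotient_add_finrank T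
  have hW' := T1_finrank hTW
  have hα : ∀ x ∈ W.map T.mkQ, x ≠ 0 → Alpha (derivedAt T D) x := by
    rintro _ ⟨u, hu, rfl⟩ hx
    have huT : u ∉ T := fun h => hx (by simpa using h)
    refine alpha_derived huT (hW _ le_sup_left ?_ ?_)
    · exact sup_le hTW ((span_singleton_le_iff_mem _ _).2 hu)
    · have hu0 : u ≠ 0 := by rintro rfl; exact huT T.zero_mem
      have hdis : Disjoint T (span F {u}) := by
        rw [disjoint_span_singleton' hu0]
        exact huT
      have h1 := Submodule.finrank_sup_add_finrank_inf_eq T (span F {u})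
      rw [hdis.eq_bot, finrank_bot, finrank_span_singleton hu0] at h1
      omega
  obtain ⟨b1, b2, b3⟩ := bound2 (k := k - (t - 2)) (by omega) hD' (by omega) hα
  have harith := n_arith hq (k := k - (t - 2)) (by omega) (n := finrank F (V ⧸ T)) (by omega)
    (count_point hD' (by omega) (by omega)) (count_pairs hD' (by omega) (by omega))
  have hdvd := sub_dvd hq (count_point hD' (by omega) (by omega))
  set w := finrank F (W.map T.mkQ) with hw
  set N := finrank F (V ⧸ T) with hN
  have hwN : w ≤ N := Submodule.finrank_le _
  have hnT : finrank F V - t + 2 = N := by omega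
  unfold codimBound
  by_cases hk : k = t + 1
  · rw [if_pos hk]
    have hk3 : k - (t - 2) = 3 := by omega
    rw [hk3] at hdvd harith
    simp only [show (3 : ℕ) - 1 = 2 from rfl] at hdvd harith
    by_cases h2 : Nat.card F = 2
    · rw [if_pos h2]
      obtain ⟨c1, c2⟩ := b2 hk3 h2
      split_ifs with h4
      · by_cases he : 2 * w = N + 3
        · obtain ⟨r, hr⟩ := c2 he
          omega
        · omega
      · omega
    · rw [if_neg h2]
      have := b1 hk3 (by omega)
      omega
  · rw [if_neg hk]
    rcases b3 (by omega) with h | h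
    · have h1 : min ((finrank F V - t + 1) / (k - t + 1) + 1) (finrank F V - t + 2 - 4 * (k - t + 1)) ≤
          finrank F V - t + 2 - 4 * (k - t + 1) := min_le_right _ _
      have h2 : k - (t - 2) - 1 = k - t + 1 := by omega
      rw [h2] at h harith
      have h3 : 4 * (k - t + 1) ≤ (k - (t - 2)) * (k - t + 1) := Nat.mul_le_mul_right _ (by omega)
      omega
    · have h1 : min ((finrank F V - t + 1) / (k - t + 1) + 1) (finrank F V - t + 2 - 4 * (k - t + 1)) ≤
          (finrank F V - t + 1) / (k - t + 1) + 1 := min_le_left _ _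
      have h2 : k - (t - 2) - 1 = k - t + 1 := by omega
      have h2' : k - (t - 2) - 2 = k - t := by omega
      rw [h2] at h hdvd
      rw [h2'] at h
      obtain ⟨s, hs⟩ := hdvd
      have h3 : finrank F V - t + 1 = (k - t + 1) * s := by omega
      have h4 : (finrank F V - t + 1) / (k - t + 1) = s := by
        rw [h3, Nat.mul_div_cancel_left _ (by omega)]
      rw [h4] at h1
      have h5 : s + 1 + w ≤ N := by
        by_contra hcon
        push Not at hcon
        obtain ⟨c, hc⟩ : ∃ c, N = w + c := ⟨N - w, by omega⟩
        have hcs : c ≤ s := by omega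
        obtain ⟨m, hm⟩ : ∃ m, k - t = m := ⟨_, rfl⟩
        rw [hm] at h h3 hs
        have h6 : (m + 1) * c ≤ (m + 1) * s := Nat.mul_le_mul_left _ hcs
        have h7 : N = (m + 1) * s + 1 := by omega
        have h8 : (m + 1) * w ≤ m * N := h
        rw [hc] at h8 h7
        have h9 : (m + 1) * w + (m + 1) * c = m * (w + c) + (w + c) := by ring
        omega
      omega

theorem count_main [Finite F] [FiniteDimensional F V] {t k : ℕ} (ht : 2 ≤ t) (htk : t < k) (hkn : k < finrank F V)
    {D : Set (Submodule F V)} (hD : IsSteiner t k D) {T : Submodule F V} (hT : finrank F T + 2 = t) :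
    Nat.card F ^ codimBound (Nat.card F) t k (finrank F V) ≤
      {U : Submodule F V | T ≤ U ∧ finrank F U + 1 = t ∧ ¬ DesarguesianAt D U}.ncard * (Nat.card F - 1) + 1 := by
  have hn' := Submodule.finrank_quotient_add_finrank T
  set S : Set (V ⧸ T) := {x : V ⧸ T | x = 0 ∨ ¬ DesarguesianAt D ((span F {x}).comap T.mkQ)} with hS
  have h1 := count_spaces T (fun U => ¬ DesarguesianAt D U)
  have e1 : {U : Submodule F V | T ≤ U ∧ finrank F U = finrank F T + 1 ∧ ¬ DesarguesianAt D U} =
      {U : Submodule F V | T ≤ U ∧ finrank F U + 1 = t ∧ ¬ DesarguesianAt D U} := by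
    ext U
    simp only [Set.mem_setOf_eq]
    constructor
    · rintro ⟨a, b, c⟩; exact ⟨a, by omega, c⟩
    · rintro ⟨a, b, c⟩; exact ⟨a, by omega, c⟩
  rw [e1] at h1
  refine le_trans ?_ h1
  have hle : codimBound (Nat.card F) t k (finrank F V) ≤ finrank F (V ⧸ T) := by
    have := codim_main ht htk hkn hD hT (W := T) le_rfl (fun U h1 h2 h3 => by
      have : U = T := le_antisymm h2 h1
      subst this
      omega)
    omega
  have h2 := count_blocking (F := F) S (Or.inl rfl) (fun c s hs => ?_)
    (finrank F (V ⧸ T) - codimBound (Nat.card F) t k (finrank F V)) (fun W hW => ?_)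
  · have e2 : finrank F (V ⧸ T) - (finrank F (V ⧸ T) - codimBound (Nat.card F) t k (finrank F V)) =
        codimBound (Nat.card F) t k (finrank F V) := by omega
    rw [e2] at h2
    exact h2
  · by_cases hc : c = 0
    · left; rw [hc, zero_smul]
    · rcases hs with hs | hs
      · left; rw [hs, smul_zero]
      · right
        rw [A2_span_smul hc]
        exact hs
  · have h3 := T1_finrank (T1_le_comap W)
    rw [T1_map_comap] at h3
    have h4 := codim_main ht htk hkn hD hT (W := W.comap T.mkQ) (T1_le_comap W) (fun U hTU hUW hU => ?_)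
    · omega
    · have h5 := T1_finrank hTU
      have h6 : finrank F (U.map T.mkQ) = 1 := by omega
      obtain ⟨x, hx, hx0⟩ : ∃ x ∈ U.map T.mkQ, x ≠ 0 := by
        by_contra hcon
        push Not at hcon
        have : U.map T.mkQ = ⊥ := (Submodule.eq_bot_iff _).2 hcon
        rw [this, finrank_bot] at h6
        omega
      have h7 : span F {x} = U.map T.mkQ := by
        apply Submodule.eq_of_le_of_finrank_le
        · rw [span_singleton_le_iff_mem]; exact hx
        · rw [h6, finrank_span_singleton hx0]
      have hxW : x ∈ W := by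
        have := Submodule.map_mono (f := T.mkQ) hUW
        rw [T1_map_comap] at this
        exact this hx
      by_contra hdes
      refine hx0 (hW x hxW (Or.inr ?_))
      rw [h7, T1_comap_map hTU]
      exact hdes

theorem main2 {F : Type} [Field F] [Finite F] {t k n : ℕ} (ht : 1 ≤ t) (htk : t < k) (hkn : k < n) :
    ((∃ D : Set (Submodule F (Fin n → F)), IsSteiner t k D ∧
        ∀ U : Submodule F (Fin n → F), finrank F U + 1 = t → DesarguesianAt D U) ↔ t = 1 ∧ k ∣ n) ∧
    (∀ D : Set (Submodule F (Fin n → F)), IsSteiner t k D →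
      ∀ T : Submodule F (Fin n → F), finrank F T + 2 = t →
        (∀ W : Submodule F (Fin n → F), T ≤ W →
          (∀ U : Submodule F (Fin n → F), T ≤ U → U ≤ W → finrank F U + 1 = t → DesarguesianAt D U) →
          codimBound (Nat.card F) t k n + finrank F W ≤ n) ∧
        Nat.card F ^ codimBound (Nat.card F) t k n ≤
          {U : Submodule F (Fin n → F) | T ≤ U ∧ finrank F U + 1 = t ∧ ¬ DesarguesianAt D U}.ncard *
            (Nat.card F - 1) + 1) := by
  have hfr : finrank F (Fin n → F) = n := by simp
  refine ⟨(main ht htk hkn).1, fun D hD T hT => ⟨fun W hTW hW => ?_, ?_⟩⟩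
  · have := codim_main (by omega) htk (by omega) hD hT hTW hW
    rwa [hfr] at this
  · have := count_main (by omega) htk (by omega) hD hT
    rwa [hfr] at this

end Pool.Agent.LibGS68
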