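import Pool.Agent.LibGS68.A3
/-!
Row G1: `J_{x+y} y = J_x y` modulo `⟨x, y⟩`.
-/
open Module Submodule
namespace Pool.Agent.LibGS68
variable {F V : Type*} [Field F] [AddCommGroup V] [Module F V]

theorem halfG [FiniteDimensional F V] {k : ℕ} {D : Set (Submodule F V)} (hD : IsSteiner 2 k D)
    (hn : k < finrank F V) {x y z : V} (h : Ind3 F x y z) (hdir : Dir D x y z)
    (hα : ∀ v ∈ span F {x, y, z}, v ≠ 0 → Alpha D v)
    {a jx js : V →ₗ[F] V} (ha : a ∈ Ker D z) (hjx : jx ∈ Ker D x) (hjs : js ∈ Ker D (x + y))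
    (h1 : jx z + a x ∈ span F {x, z}) (h2 : js z + a (x + y) ∈ span F {x + y, z}) :
    jx y - js y ∈ span F {x, y} := by
  -- membership in E
  have mx : x ∈ span F {x, y, z} := subset_span (by simp)
  have my : y ∈ span F {x, y, z} := subset_span (by simp)
  have mz : z ∈ span F {x, y, z} := subset_span (by simp)
  -- independence facts
  have iyz : Ind2 F (y + z) x := fun a b hab => by
    obtain ⟨h1, h2, h3⟩ := h b a a (by rw [← hab]; module)
    exact ⟨h2, h1⟩
  have isx : Ind2 F (x + y) (y + z) := fun a b hab => by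
    obtain ⟨h1, h2, h3⟩ := h a (a + b) b (by rw [← hab]; module)
    exact ⟨h1, h3⟩
  have ist : Ind2 F (x + y) z := fun a b hab => by
    obtain ⟨h1, h2, h3⟩ := h a a b (by rw [← hab]; module)
    exact ⟨h1, h3⟩
  have isy : Ind2 F (x + y) y := fun a b hab => by
    obtain ⟨h1, h2, h3⟩ := h a (a + b) 0 (by rw [← hab]; module)
    refine ⟨h1, ?_⟩
    rw [h1, zero_add] at h2; exact h2
  -- α-points
  have αyz : Alpha D (y + z) := hα _ (add_mem my mz) (ind2_iff.1 iyz).1
  have αs : Alpha D (x + y) := hα _ (add_mem mx my) (ind2_iff.1 isx).1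
  have αz : Alpha D z := hα _ mz (ind2_iff.1 h.ind13.symm).1
  -- blocks
  obtain ⟨Bxy, hBxy, xBxy, yBxy⟩ := exists_block hD h.ind12
  obtain ⟨Bxz, hBxz, xBxz, zBxz⟩ := exists_block hD h.ind13
  obtain ⟨Byz, hByz, yByz, zByz⟩ := exists_block hD h.ind23
  obtain ⟨Bu, hBu, yzBu, xBu⟩ := exists_block hD iyz
  obtain ⟨Bs, hBs, sBs, yzBs⟩ := exists_block hD isx
  obtain ⟨Bt, hBt, sBt, zBt⟩ := exists_block hD ist
  -- 1. the map c
  have hu : jx (y + z) ∈ Bu := hjx.2 Bu hBu xBu _ yzBu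
  obtain ⟨c, hc, hcx⟩ := αyz Bu hBu yzBu x xBu (ind2_iff.1 iyz).2 _ hu
  -- 2.
  have hcy : c y ∈ Byz := hc.2 Byz hByz (add_mem yByz zByz) y yByz
  have hcs : c (x + y) ∈ Bs := hc.2 Bs hBs yzBs _ sBs
  -- 3. the map d
  obtain ⟨d, hd, hdyz⟩ := αs Bs hBs sBs (y + z) yzBs (ind2_iff.1 isx).2 _ hcs
  have hdy : d y ∈ Bxy := hd.2 Bxy hBxy (add_mem xBxy yBxy) y yBxy
  have hdz : d z ∈ Bt := hd.2 Bt hBt sBt z zBt
  -- 4. the map a'
  obtain ⟨a', ha', ha's⟩ := αz Bt hBt zBt (x + y) sBt (ind2_iff.1 ist.symm).2 _ (Bt.neg_mem hdz)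
  have ha'x : a' x ∈ Bxz := ha'.2 Bxz hBxz zBxz x xBxz
  have ha'y : a' y ∈ Byz := ha'.2 Byz hByz zByz y yByz
  have hax : a x ∈ Bxz := ha.2 Bxz hBxz zBxz x xBxz
  have hjxy : jx y ∈ Bxy := hjx.2 Bxy hBxy xBxy y yBxy
  -- 5. the relation
  have E1 : c x - jx (y + z) ∈ span F {x, y, z} :=
    (span_singleton_le_iff_mem _ _).2 (add_mem my mz) hcx
  have E2 : d (y + z) - c (x + y) ∈ span F {x, y, z} :=
    (span_singleton_le_iff_mem _ _).2 (add_mem mx my) hdyz
  have E3 : a' (x + y) - -(d z) ∈ span F {x, y, z} := (span_singleton_le_iff_mem _ _).2 mz ha's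
  have E4 : jx z + a x ∈ span F {x, y, z} := span_mono (by
    rintro v (rfl | rfl) <;> simp) h1
  have E5 : (c y + a' y) + (a' x - a x) + (jx y - d y) ∈ span F {x, y, z} := by
    have := add_mem (sub_mem (sub_mem E3 E1) E2) (neg_mem E4)
    have e : a' (x + y) - -(d z) - (c x - jx (y + z)) - (d (y + z) - c (x + y)) + -(jx z + a x) =
        (c y + a' y) + (a' x - a x) + (jx y - d y) := by
      simp only [map_add]; abel
    rwa [e] at this
  obtain ⟨r1, r2, r3⟩ := hdir Byz hByz Bxz hBxz Bxy hBxy yByz zByz xBxz zBxz xBxy yBxy _ (add_mem hcy ha'y) _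
    (sub_mem ha'x hax) _ (sub_mem hjxy hdy) E5
  -- 6. a' - a scalar
  obtain ⟨μ, hμ⟩ := scalar_of hD hn h.ind13.symm (sub_mem ha' ha) (by
    rw [Set.pair_comm]; simpa using r2)
  have r4 : d z + a (x + y) ∈ span F {x + y, z} := by
    have e1 : a' (x + y) - -(d z) ∈ span F {x + y, z} := span_mono (by simp) ha's
    have e2 : (a' - a) (x + y) - μ • (x + y) ∈ span F {x + y, z} := span_mono (by simp) (hμ (x + y))
    have e3 : μ • (x + y) ∈ span F {x + y, z} := Submodule.smul_mem _ _ (subset_span (by simp))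
    have := sub_mem (sub_mem e1 e2) e3
    have e : a' (x + y) - -(d z) - ((a' - a) (x + y) - μ • (x + y)) - μ • (x + y) = d z + a (x + y) := by
      simp only [LinearMap.sub_apply]; abel
    rwa [e] at this
  obtain ⟨ν, hν⟩ := transport_unique hD hn ist hd hjs r4 h2
  have r5 : d y - js y ∈ span F {x, y} := by
    have e1 : (d - js) y - ν • y ∈ span F {x, y} := by
      refine (span_singleton_le_iff_mem _ _).2 ?_ (hν y)
      exact add_mem (subset_span (by simp)) (subset_span (by simp))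
    have e2 : ν • y ∈ span F {x, y} := Submodule.smul_mem _ _ (subset_span (by simp))
    have := add_mem e1 e2
    simpa using this
  have := add_mem r3 r5
  have e : jx y - d y + (d y - js y) = jx y - js y := by abel
  rwa [e] at this

end Pool.Agent.LibGS68
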