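import Pool.Agent.LibGS68.Core
open Module Submodule
namespace Pool.Agent.LibGS68
variable {F V : Type*} [Field F] [AddCommGroup V] [Module F V]

/-- The bilinear map on `W` attached to `a ∈ Ker D z`. -/
theorem keyW [FiniteDimensional F V] {k : ℕ} {D : Set (Submodule F V)}
    (hD : IsSteiner 2 k D) (hn : k < finrank F V) {W : Submodule F V} (hα : ∀ x ∈ W, x ≠ 0 → Alpha D x)
    (hG : HasGood D W) (h4 : 4 ≤ finrank F W) {z : W} (hz : z ≠ 0) {a : V →ₗ[F] V} (ha : a ∈ Ker D (z : V)) :
    ∃ (f : W →ₗ[F] W →ₗ[F] V) (g : W → V →ₗ[F] V), (∀ v : W, v ≠ 0 → g v ∈ Ker D (v : V)) ∧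
      (∀ v : W, v ≠ 0 → ∀ x : W, f v x - g v x ∈ span F {(v : V)}) ∧
      (∀ v : W, v ≠ 0 → ScalarAt (v : V) (g v) → ScalarAt (z : V) a) ∧
      (∀ v : W, f v v ∈ span F {(v : V)}) ∧ (∃ c : F, g z = a + c • LinearMap.id) ∧
      (∀ v : W, v ≠ 0 → ∃ c : F, g v z + a v + c • (z : V) ∈ span F {(v : V)}) := by
  have hne : ∀ v : W, v ≠ 0 → (v : V) ≠ 0 := fun v hv h => hv (Subtype.ext h)
  obtain ⟨J, hJz, hJ, hA, hT, hS⟩ := family hD hn (W := W) hα hG (z := z) z.2 (hne z hz) ha
  have h0 : ∀ x : V, x ∈ W → J x x ∈ span F {x} := fun x hx => (hJ x hx).1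
  obtain ⟨f, hf⟩ := patch W.subtype (Submodule.injective_subtype W) h4 (fun x => (J x).comp W.subtype)
    (fun x y => hA x x.2 y y.2) (fun x => h0 x x.2)
  choose! ν hν using hf
  refine ⟨f, fun v => J v + ν v • LinearMap.id, fun v _ => add_mem (hJ v v.2) (Submodule.smul_mem _ _ id_mem_ker),
    fun v hv x => ?_, fun v hv hs => ?_, fun v => ?_, ⟨ν z, by simp only [hJz]⟩, fun v hv => ?_⟩
  · have := hν v hv x
    simp only [LinearMap.comp_apply, Submodule.subtype_apply] at this
    simpa [sub_sub] using this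
  · obtain ⟨c, hc⟩ := hs
    refine hS v v.2 (hne v hv) ⟨c - ν v, fun w => ?_⟩
    have := hc w
    simp only [LinearMap.add_apply, LinearMap.smul_apply, LinearMap.id_apply] at this
    have e : J v w - (c - ν v) • w = J v w + ν v • w - c • w := by module
    rw [e]; exact this
  · rcases eq_or_ne v 0 with rfl | hv
    · simp
    · have h1 := hν v hv v
      simp only [LinearMap.comp_apply, Submodule.subtype_apply] at h1
      have h2 := add_mem (add_mem h1 (h0 v v.2)) (Submodule.smul_mem _ (ν v) (mem_span_singleton_self (v : V)))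
      have e : f v v - J v v - ν v • (v : V) + J v v + ν v • (v : V) = f v v := by abel
      rwa [e] at h2
  · have h1 := hT v v.2
    obtain ⟨α, β, h2⟩ := mem_span_pair.1 h1
    refine ⟨-ν v - β, ?_⟩
    simp only [LinearMap.add_apply, LinearMap.smul_apply, LinearMap.id_apply]
    have e : J v z + ν v • (z : V) + a v + (-ν v - β) • (z : V) = α • (v : V) := by
      have : J v z + a v = α • (v : V) + β • (z : V) := h2.symm
      calc J v z + ν v • (z : V) + a v + (-ν v - β) • (z : V) = (J v z + a v) - β • (z : V) := by module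
        _ = _ := by rw [this]; module
    rw [e]; exact Submodule.smul_mem _ _ (mem_span_singleton_self _)

end Pool.Agent.LibGS68
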