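import Pool.Agent.LibGS68.P1
import Pool.Agent.LibGS68.KW
/-!
Row LQ (MEDIUM). If all points of `W` are alpha and `(k - 2)(dim V - dim W) < dim W`, then `W` contains a block.
Proof.  `z ∈ W`, `z ≠ 0`.  Choose `y₀ ∉ ⟨z⟩`, `B₀ ∋ z, y₀` a block, `u : Fin (k - 2) → B₀` a basis of `B₀` modulo `S := span {z, y₀}` (for instance a basis of `B₀ ⧸ (S.comap B₀.subtype)`, whose
dimension is `k - 2`, lifted), and `a i ∈ Ker D z` with `a i y₀ - u i ∈ ⟨z⟩` (`hα`).
(1) if `Σ c i • a i` is scalar at `z` then `c = 0`: `(Σ c i • a i) y₀ ≡ Σ c i • u i` mod `⟨z⟩`, `≡ c' y₀`, so `Σ c i • u i ∈ S`.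
(2) `keyW` for every `a i`: `f i : W →ₗ W →ₗ V`, `g i`.
(3) `F' : W →ₗ W →ₗ (Fin (k-2) → V ⧸ W)`, `F' v x i := W.mkQ (f i v x)` (`LinearMap.pi`, or `LinearMap.mk₂`), `F' v v = 0` since `f i v v ∈ ⟨v⟩ ≤ W`.  `finrank (Fin (k-2) → V ⧸ W) = (k-2)(dim V - dim W)`
 (`Module.finrank_pi_fintype`/`finrank_fin_fun`-like, `Submodule.finrank_quotient_add_finrank`).  `lemmaP` gives `v, x ∈ W` independent with `f i v x ∈ W` for all `i`; also `f i x v ∈ W`
 (`F' (v+x) (v+x) = 0`).  One of `v`, `x` is not in `⟨z⟩`; by symmetry let `v ∉ ⟨z⟩` (formulate the end as a `have : ∀ v x, Ind2 → v ∉ ⟨z⟩ → (∀ i, f i v x ∈ W) → goal`).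
(4) `B` the block through `v, x`.  `g i v x ∈ B` (`Ker`), `∈ W` (`f i v x - g i v x ∈ ⟨v⟩`).  The vectors `v, x, g i v x` are independent: if `Σ c i • g i v x ∈ span {v, x}` then
 `G := Σ c i • g i v ∈ Ker D v` is scalar at `v` (`scalar_of`), and `G z + (Σ c i • a i) v ∈ span {v, z}` (last clause of `keyW`, summed), so `Σ c i • a i` is scalar at `z`
 (`nonscalar_transport` in A3, `Ind2 F v z`), `c = 0`.  So `B ⊓ W` contains `k` independent vectors: `dim (B ⊓ W) ≥ k = dim B`, `B ≤ W` (`Submodule.eq_of_le_of_finrank_le`).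
-/
open Module Submodule
namespace Pool.Agent.LibGS68
variable {F V : Type*} [Field F] [AddCommGroup V] [Module F V]

private theorem LQ_lift [FiniteDimensional F V] {B S : Submodule F V} (hSB : S ≤ B) (m : ℕ)
    (hm : finrank F S + m = finrank F B) :
    ∃ u : Fin m → V, (∀ i, u i ∈ B) ∧ ∀ c : Fin m → F, ∑ i, c i • u i ∈ S → c = 0 := by
  have h1 : finrank F (S.comap B.subtype) = finrank F S := (Submodule.comapSubtypeEquivOfLe hSB).finrank_eq
  have h2 := Submodule.finrank_quotient_add_finrank (S.comap B.subtype)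
  have h3 : finrank F (B ⧸ S.comap B.subtype) = m := by omega
  let b := Module.finBasisOfFinrankEq F (B ⧸ S.comap B.subtype) h3
  have hl : ∀ i, ∃ w : B, (S.comap B.subtype).mkQ w = b i := fun i => Submodule.mkQ_surjective _ (b i)
  choose w hw using hl
  refine ⟨fun i => (w i : V), fun i => (w i).2, fun c hc => ?_⟩
  have h4 : ∑ i, c i • w i ∈ S.comap B.subtype := by
    rw [Submodule.mem_comap, map_sum]
    simpa using hc
  have h5 : ∑ i, c i • b i = 0 := by
    rw [← Submodule.Quotient.mk_eq_zero, ← Submodule.mkQ_apply, map_sum] at h4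
    rw [← h4]
    refine Finset.sum_congr rfl fun i _ => ?_
    rw [map_smul, hw]
  funext i
  exact (Fintype.linearIndependent_iff.1 b.linearIndependent) c h5 i

private theorem LQ_rank [FiniteDimensional F V] {T S : Submodule F V} (hST : S ≤ T) (m : ℕ) (u : Fin m → V)
    (hu : ∀ i, u i ∈ T) (hind : ∀ c : Fin m → F, ∑ i, c i • u i ∈ S → c = 0) :
    finrank F S + m ≤ finrank F T := by
  let φ : (S × (Fin m → F)) →ₗ[F] V := S.subtype.coprod (Fintype.linearCombination F u)
  have hφ : ∀ x : S × (Fin m → F), φ x = (x.1 : V) + ∑ i, x.2 i • u i := fun x => rfl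
  have hinj : Function.Injective φ := by
    rw [injective_iff_map_eq_zero]
    intro x hx
    rw [hφ] at hx
    have h1 : x.2 = 0 := by
      apply hind
      have h2 : ∑ i, x.2 i • u i = -(x.1 : V) := eq_neg_of_add_eq_zero_right hx
      rw [h2]
      exact S.neg_mem x.1.2
    have h3 : x.1 = 0 := by
      rw [h1] at hx
      apply Subtype.ext
      simpa using hx
    exact Prod.ext h3 h1
  have hle : LinearMap.range φ ≤ T := by
    rintro _ ⟨x, rfl⟩
    rw [hφ]
    exact T.add_mem (hST x.1.2) (T.sum_mem fun i _ => T.smul_mem _ (hu i))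
  have h4 := LinearMap.finrank_range_of_inj hinj
  have h5 := Submodule.finrank_mono hle
  rw [h4, Module.finrank_prod, Module.finrank_fin_fun] at h5
  exact h5

/-- the end of the proof -/
private theorem LQ_end [FiniteDimensional F V] {k : ℕ} {D : Set (Submodule F V)} (hD : IsSteiner 2 k D)
    (hk : 3 ≤ k) (hn : k < finrank F V) {W : Submodule F V} {z : V} (hzW : z ∈ W)
    (a : Fin (k - 2) → V →ₗ[F] V) (ha : ∀ i, a i ∈ Ker D z)
    (hc1 : ∀ c : Fin (k - 2) → F, ScalarAt z (∑ i, c i • a i) → c = 0)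
    {v x : V} (hv : v ∈ W) (hx : x ∈ W) (hvx : Ind2 F v x) (hvz : Ind2 F v z)
    (g : Fin (k - 2) → V →ₗ[F] V) (hg : ∀ i, g i ∈ Ker D v) (hgW : ∀ i, g i x ∈ W)
    (hga : ∀ i, g i z + a i v ∈ span F {v, z}) : ∃ B ∈ D, B ≤ W := by
  obtain ⟨B, hB, hvB, hxB⟩ := exists_block hD hvx
  refine ⟨B, hB, ?_⟩
  have hS : span F {v, x} ≤ B ⊓ W := by
    rw [span_le]
    rintro w (rfl | rfl)
    · exact ⟨hvB, hv⟩
    · exact ⟨hxB, hx⟩
  have h1 : finrank F (span F {v, x}) + (k - 2) ≤ finrank F (B ⊓ W : Submodule F V) := by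
    refine LQ_rank hS (k - 2) (fun i => g i x) (fun i => ⟨(hg i).2 B hB hvB x hxB, hgW i⟩) ?_
    intro c hc
    apply hc1
    have hG : (∑ i, c i • g i) ∈ Ker D v := (Ker D v).sum_mem fun i _ => (Ker D v).smul_mem _ (hg i)
    have hGx : (∑ i, c i • g i) x ∈ span F {v, x} := by
      rw [LinearMap.sum_apply]
      exact hc
    have hs : ScalarAt v (∑ i, c i • g i) := scalar_of hD hn hvx hG hGx
    have hA : (∑ i, c i • a i) ∈ Ker D z := (Ker D z).sum_mem fun i _ => (Ker D z).smul_mem _ (ha i)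
    refine nonscalar_transport hD hn hvz hA ?_ hs
    rw [LinearMap.sum_apply, LinearMap.sum_apply, ← Finset.sum_add_distrib]
    refine Submodule.sum_mem _ fun i _ => ?_
    rw [LinearMap.smul_apply, LinearMap.smul_apply, ← smul_add]
    exact Submodule.smul_mem _ _ (hga i)
  rw [finrank_span2 hvx] at h1
  have h2 : B ⊓ W = B := Submodule.eq_of_le_of_finrank_le inf_le_left (by
    rw [hD.1 B hB]
    omega)
  rw [← h2]
  exact inf_le_right

theorem lemmaQ [Finite F] [FiniteDimensional F V] {k : ℕ} {D : Set (Submodule F V)} (hD : IsSteiner 2 k D)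
    (hk : 3 ≤ k) (hn : k < finrank F V) {W : Submodule F V} (hα : ∀ x ∈ W, x ≠ 0 → Alpha D x) (hG : HasGood D W)
    (h4 : 4 ≤ finrank F W) (hlt : (k - 2) * (finrank F V - finrank F W) < finrank F W) : ∃ B ∈ D, B ≤ W := by
  obtain ⟨z, hzW, hz⟩ : ∃ z ∈ W, z ∉ (⊥ : Submodule F V) := A3_exists_notMem (by rw [finrank_bot]; omega)
  have hz0 : z ≠ 0 := fun h => hz (by rw [h]; exact Submodule.zero_mem _)
  have hVW : finrank F W ≤ finrank F V := Submodule.finrank_le W
  obtain ⟨y0, -, hy0⟩ := A3_exists_notMem (S := (⊤ : Submodule F V)) (T := span F {z})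
    (by rw [finrank_span_singleton hz0, finrank_top]; omega)
  have hzy : Ind2 F z y0 := ind2_iff.2 ⟨hz0, hy0⟩
  obtain ⟨B0, hB0, hzB, hyB⟩ := exists_block hD hzy
  have hS : span F {z, y0} ≤ B0 := by
    rw [span_le]
    rintro w (rfl | rfl) <;> assumption
  obtain ⟨u, huB, hu⟩ := LQ_lift hS (k - 2) (by rw [finrank_span2 hzy, hD.1 B0 hB0]; omega)
  have hal : ∀ i, ∃ a ∈ Ker D z, a y0 - u i ∈ span F {z} := fun i =>
    hα z hzW hz0 B0 hB0 hzB y0 hyB hy0 (u i) (huB i)
  choose a ha hau using hal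
  -- (1)
  have hc1 : ∀ c : Fin (k - 2) → F, ScalarAt z (∑ i, c i • a i) → c = 0 := by
    intro c ⟨c', hc'⟩
    apply hu
    have h1 : (∑ i, c i • a i) y0 - c' • y0 ∈ span F {z, y0} := span_mono (by simp) (hc' y0)
    have h2 : ∑ i, c i • (a i y0 - u i) ∈ span F {z, y0} :=
      Submodule.sum_mem _ fun i _ => Submodule.smul_mem _ _ (span_mono (by simp) (hau i))
    have h3 : c' • y0 ∈ span F {z, y0} := Submodule.smul_mem _ _ (subset_span (by simp))
    have h4 := sub_mem (add_mem h1 h3) h2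
    have e : (∑ i, c i • a i) y0 - c' • y0 + c' • y0 - ∑ i, c i • (a i y0 - u i) = ∑ i, c i • u i := by
      rw [sub_add_cancel, LinearMap.sum_apply, ← Finset.sum_sub_distrib]
      refine Finset.sum_congr rfl fun i _ => ?_
      rw [LinearMap.smul_apply, smul_sub]
      abel
    rw [e] at h4
    exact h4
  -- (2)
  have hzW' : (⟨z, hzW⟩ : W) ≠ 0 := fun h => hz0 (congrArg Subtype.val h)
  have hkey := fun i => keyW hD hn hα hG h4 hzW' (ha i)
  choose f g hg1 hg2 hg3 hf0 hg4 hg5 using hkey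
  have hspan : ∀ v : W, span F {(v : V)} ≤ W := fun v => by
    rw [span_le]
    rintro w rfl
    exact v.2
  -- (3)
  obtain ⟨F', hF'⟩ : ∃ F' : W →ₗ[F] W →ₗ[F] (Fin (k - 2) → V ⧸ W), ∀ v x i, F' v x i = W.mkQ (f i v x) := by
    refine ⟨LinearMap.mk₂ F (fun v x i => W.mkQ (f i v x)) ?_ ?_ ?_ ?_, fun v x i => rfl⟩
    · intro v v' x
      funext i
      rw [Pi.add_apply, map_add, LinearMap.add_apply, map_add]
    · intro c v x
      funext i
      rw [Pi.smul_apply, map_smul, LinearMap.smul_apply, map_smul]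
    · intro v x x'
      funext i
      rw [Pi.add_apply, map_add, map_add]
    · intro c v x
      funext i
      rw [Pi.smul_apply, map_smul, map_smul]
  have hF0 : ∀ v, F' v v = 0 := by
    intro v
    funext i
    rw [hF', Pi.zero_apply, Submodule.mkQ_apply, Submodule.Quotient.mk_eq_zero]
    exact hspan v (hf0 i v)
  have hrk : finrank F (Fin (k - 2) → V ⧸ W) < finrank F W := by
    have h1 := Submodule.finrank_quotient_add_finrank W
    have h2 : finrank F (V ⧸ W) = finrank F V - finrank F W := by omega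
    rw [Module.finrank_pi_fintype, Finset.sum_const, Finset.card_univ, Fintype.card_fin, smul_eq_mul, h2]
    exact hlt
  obtain ⟨v, x, hvx, hvx0⟩ := lemmaP (by omega) hrk F' hF0
  have hxv0 : F' x v = 0 := by
    have h1 := hF0 (v + x)
    rw [map_add, map_add F', LinearMap.add_apply, LinearMap.add_apply, hF0, hF0, hvx0, zero_add, add_zero,
      add_zero] at h1
    exact h1
  have hW1 : ∀ v x : W, F' v x = 0 → ∀ i, f i v x ∈ W := by
    intro v x h i
    have h1 := congrFun h i
    rw [hF', Pi.zero_apply, Submodule.mkQ_apply, Submodule.Quotient.mk_eq_zero] at h1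
    exact h1
  have hlast : ∀ v x : W, Ind2 F v x → (v : V) ∉ span F {z} → F' v x = 0 → ∃ B ∈ D, B ≤ W := by
    intro v x hvx hvz hF
    have hv0 : v ≠ 0 := (ind2_iff.1 hvx).1
    have hvxV : Ind2 F (v : V) (x : V) := by
      intro α β h
      apply hvx α β
      apply Subtype.ext
      simpa using h
    have hzv : Ind2 F z (v : V) := ind2_iff.2 ⟨hz0, hvz⟩
    refine LQ_end hD hk hn hzW a ha hc1 v.2 x.2 hvxV hzv.symm (fun i => g i v) (fun i => hg1 i v hv0) ?_ ?_
    · intro i
      have h1 := hW1 v x hF i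
      have h2 := hspan v (hg2 i v hv0 x)
      have h3 := W.sub_mem h1 h2
      rw [sub_sub_cancel] at h3
      exact h3
    · intro i
      obtain ⟨c', hc'⟩ := hg5 i v hv0
      have h1 : g i v z + a i v + c' • z ∈ span F {(v : V), z} := span_mono (by simp) hc'
      have h2 : c' • z ∈ span F {(v : V), z} := Submodule.smul_mem _ _ (subset_span (by simp))
      have h3 := sub_mem h1 h2
      rw [add_sub_cancel_right] at h3
      exact h3
  by_cases hvz : (v : V) ∈ span F {z}
  · refine hlast x v hvx.symm ?_ hxv0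
    intro hxz
    obtain ⟨α, hα'⟩ := mem_span_singleton.1 hvz
    obtain ⟨β, hβ'⟩ := mem_span_singleton.1 hxz
    have hv0 : v ≠ 0 := (ind2_iff.1 hvx).1
    have hα0 : α ≠ 0 := by
      rintro rfl
      apply hv0
      apply Subtype.ext
      rw [← hα', zero_smul]
      rfl
    have h1 := hvx β (-α) (by
      apply Subtype.ext
      change β • (v : V) + (-α) • (x : V) = 0
      rw [← hα', ← hβ', smul_smul, smul_smul, ← add_smul]
      have : β * α + -α * β = 0 := by ring
      rw [this, zero_smul])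
    exact hα0 (neg_eq_zero.1 h1.2)
  · exact hlast v x hvx hvz hvx0

end Pool.Agent.LibGS68
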