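import Pool.Agent.LibGS68.CH2
/-!
Row P1 (MEDIUM/STRONG). Alternating maps into a small space over a finite field have a nontrivial zero.
`w := finrank W`.  If `finrank U < w - 1` every `f v`, `v ≠ 0`, has a kernel of dimension `≥ 2`: done (`A3_exists_notMem`).  Let `finrank U = w - 1`, `w = m + 1`, `m ≥ 2`, and suppose there is no
such pair (`by_contra`).  Bases `b : Basis (Fin (m+1)) F W`, `c : Basis (Fin m) F U`.  Polynomial matrix (`σ = Fin (m+1)`)
  `A : Matrix (Fin (m+1)) (Fin (m+1)) (MvPolynomial σ F)`, `A 0 j = 0`, `A i.succ j = Σ_l C (c.repr (f (b l) (b j)) i) * X l`.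
`P j := A.adjugate j 0 = det (A.updateRow 0 (Pi.single j 1))` (`Matrix.adjugate_apply`).
(a) `A.mulVec X = 0` (`X := fun l => MvPolynomial.X l`; from `f v v = 0`: `f (b l)(b l) = 0`, `f (b l)(b j) + f (b j)(b l) = 0`; Σ_{j,l} g j l X_j X_l = 0 for `g` alternating:
  `Finset.sum_comm` / `Finset.sum_involution`).
(b) `P j * X i = P i * X j`: `N := A.updateRow 0 (Pi.single j 1)`, `N.mulVec X = Pi.single 0 (X j)`, multiply by `N.adjugate` (`Matrix.adjugate_mul`), and `N.adjugate i 0 = P i`
  (`adjugate_apply`, `updateRow_idem`).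
(c) `P j` is homogeneous of degree `m` (`MvPolynomial.IsHomogeneous`: det is a sum of products of entries, row 0 of degree 0, the others of degree 1; see the proof of `adj_degree` in CH2).
(d) `X 0 ∣ P 0 * X 1`, `X 0` is prime (`MvPolynomial.prime_X`-like, `MvPolynomial.X_prime`), `X 0 ∤ X 1`: `P 0 = X 0 * h`, so `P j = h * X j` for all `j` (cancel `X 0`).
(e) for `v ≠ 0` (coordinates), `v j ≠ 0`: `eval v (P j) ≠ 0`: the matrix `N(v)` is injective: `N(v) x = 0` gives `x j = 0` and `f v x = 0`, so `x ∈ ⟨v⟩`, `x = 0`.  So `eval v h ≠ 0`.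
(f) `h` is homogeneous of degree `m - 1 ≥ 1` or: `coeff 0 h = coeff (Finsupp.single 0 1) (P 0) = 0` as `m ≥ 2`; so `eval 0 h = 0`; `totalDegree h = m - 1 < m + 1` (`MvPolynomial.totalDegree_mul_of_isDomain`).
(g) Chevalley-Warning `char_dvd_card_solutions` for `h`: the number of zeros of `h` is 1, contradiction (see the end of `chevalley` in CH2).
-/
open Module Submodule
namespace Pool.Agent.LibGS68
variable {F : Type*} [Field F]

private theorem P1_notMem {V : Type*} [AddCommGroup V] [Module F V] [FiniteDimensional F V]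
    {S T : Submodule F V} (h : finrank F T < finrank F S) : ∃ u ∈ S, u ∉ T := by
  by_contra hcon
  push Not at hcon
  exact absurd (Submodule.finrank_mono (fun u hu => hcon u hu : S ≤ T)) (by omega)

/-- the easy case: a kernel of dimension at least two -/
private theorem P1_small {W U : Type*} [AddCommGroup W] [Module F W] [FiniteDimensional F W]
    [AddCommGroup U] [Module F U] [FiniteDimensional F U] (h2 : finrank F U + 1 < finrank F W)
    (f : W →ₗ[F] W →ₗ[F] U) : ∃ v x, Ind2 F v x ∧ f v x = 0 := by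
  have hpos : 0 < finrank F W := by omega
  obtain ⟨v, hv⟩ := (finrank_pos_iff_exists_ne_zero (R := F) (M := W)).1 hpos
  have h3 := LinearMap.finrank_range_add_finrank_ker (f v)
  have h4 : finrank F (LinearMap.range (f v)) ≤ finrank F U := Submodule.finrank_le _
  have h5 : finrank F (span F {v}) = 1 := finrank_span_singleton hv
  obtain ⟨x, hx, hx'⟩ := P1_notMem (S := LinearMap.ker (f v)) (T := span F {v}) (by omega)
  exact ⟨v, x, ind2_iff.2 ⟨hv, hx'⟩, hx⟩

private theorem P1_alt {m : ℕ} (g : Fin (m + 1) → Fin (m + 1) → F) (h0 : ∀ j, g j j = 0)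
    (h1 : ∀ j l, g j l + g l j = 0) :
    ∑ j, (∑ l, MvPolynomial.C (g l j) * MvPolynomial.X l) * MvPolynomial.X j =
      (0 : MvPolynomial (Fin (m + 1)) F) := by
  classical
  simp only [Finset.sum_mul]
  rw [← Finset.sum_product']
  refine Finset.sum_involution (fun a _ => (a.2, a.1)) ?_ ?_ ?_ ?_
  · rintro ⟨j, l⟩ -
    have h2 : (MvPolynomial.C (g l j) : MvPolynomial (Fin (m + 1)) F) + MvPolynomial.C (g j l) = 0 := by
      rw [← map_add, h1, map_zero]
    linear_combination (MvPolynomial.X l * MvPolynomial.X j) * h2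
  · rintro ⟨j, l⟩ - hne heq
    have h3 : l = j := (Prod.mk.inj heq).1
    subst h3
    apply hne
    simp [h0]
  · rintro ⟨j, l⟩ -
    simp
  · rintro ⟨j, l⟩ -
    rfl

/-- the determinant of a matrix with one row of constants and the other rows of linear forms -/
private theorem P1_hom {m : ℕ} (N : Matrix (Fin (m + 1)) (Fin (m + 1)) (MvPolynomial (Fin (m + 1)) F))
    (h0 : ∀ j, (N 0 j).IsHomogeneous 0) (h1 : ∀ (i : Fin m) j, (N i.succ j).IsHomogeneous 1) :
    (N.det).IsHomogeneous m := by
  classical
  rw [Matrix.det_apply]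
  refine MvPolynomial.IsHomogeneous.sum _ _ _ fun τ _ => ?_
  have h2 : (∏ i, N (τ i) i).IsHomogeneous m := by
    have h3 := MvPolynomial.IsHomogeneous.prod Finset.univ (fun i => N (τ i) i)
      (fun i => if τ i = 0 then 0 else 1) (fun i _ => by
        by_cases h : τ i = 0
        · simp only [h, if_true]
          exact h0 i
        · simp only [h, if_false]
          obtain ⟨k, hk⟩ := Fin.exists_succ_eq.2 h
          rw [← hk]
          exact h1 k i)
    have h4 : (∑ i, (if τ i = 0 then 0 else 1)) = m := by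
      rw [Equiv.sum_comp τ (fun k => if k = 0 then 0 else 1), Fin.sum_univ_succ]
      simp
    rwa [h4] at h3
  rcases Int.units_eq_one_or (Equiv.Perm.sign τ) with h | h
  · rw [h, one_smul]
    exact h2
  · rw [h, Units.neg_smul, one_smul]
    exact h2.neg

theorem lemmaP [Finite F] {W U : Type*} [AddCommGroup W] [Module F W] [FiniteDimensional F W]
    [AddCommGroup U] [Module F U] [FiniteDimensional F U] (h3 : 3 ≤ finrank F W) (hUW : finrank F U < finrank F W)
    (f : W →ₗ[F] W →ₗ[F] U) (hf : ∀ v, f v v = 0) : ∃ v x, Ind2 F v x ∧ f v x = 0 := by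
  classical
  by_cases hsm : finrank F U + 1 < finrank F W
  · exact P1_small hsm f
  by_contra hcon
  push Not at hcon
  obtain ⟨m, hm⟩ : ∃ m, finrank F U = m := ⟨_, rfl⟩
  have hn : finrank F W = m + 1 := by omega
  have hm2 : 2 ≤ m := by omega
  let b : Basis (Fin (m + 1)) F W := finBasisOfFinrankEq F W hn
  let c : Basis (Fin m) F U := finBasisOfFinrankEq F U hm
  let A : Matrix (Fin (m + 1)) (Fin (m + 1)) (MvPolynomial (Fin (m + 1)) F) :=
    Matrix.of (Fin.cons (fun _ => 0) (fun (i : Fin m) j =>
      ∑ l, MvPolynomial.C (c.repr (f (b l) (b j)) i) * MvPolynomial.X l))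
  have hA0 : ∀ j, A 0 j = 0 := fun j => rfl
  have hAs : ∀ (i : Fin m) j, A i.succ j =
      ∑ l, MvPolynomial.C (c.repr (f (b l) (b j)) i) * MvPolynomial.X l := fun i j => rfl
  let P : Fin (m + 1) → MvPolynomial (Fin (m + 1)) F := fun j =>
    (A.updateRow 0 (Pi.single j 1)).det
  let X : Fin (m + 1) → MvPolynomial (Fin (m + 1)) F := fun l => MvPolynomial.X l
  have hskew : ∀ x y, f x y + f y x = 0 := by
    intro x y
    have h := hf (x + y)
    simp only [map_add, LinearMap.add_apply, hf, zero_add, add_zero] at h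
    first
      | exact h
      | (rw [add_comm]; exact h)
  have hAX : ∀ i : Fin m, ∑ j, A i.succ j * MvPolynomial.X j = 0 := by
    intro i
    simp only [hAs]
    refine P1_alt (fun l j => c.repr (f (b l) (b j)) i) (fun j => ?_) (fun j l => ?_)
    · simp only [hf, map_zero, Finsupp.coe_zero, Pi.zero_apply]
    · rw [← Finsupp.add_apply, ← map_add, hskew, map_zero]
      rfl
  have hNX : ∀ j, (A.updateRow 0 (Pi.single j 1)).mulVec X = Pi.single 0 (X j) := by
    intro j
    funext i
    change ∑ k, (A.updateRow 0 (Pi.single j 1)) i k * X k = _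
    refine Fin.cases ?_ (fun i => ?_) i
    · rw [Matrix.updateRow_self, Pi.single_eq_same]
      simp [Pi.single_apply]
    · rw [Matrix.updateRow_ne (Fin.succ_ne_zero i), Pi.single_eq_of_ne (Fin.succ_ne_zero i)]
      exact hAX i
  have hPX : ∀ i j, P j * X i = P i * X j := by
    intro i j
    have h1 : (A.updateRow 0 (Pi.single j 1)).adjugate.mulVec
        ((A.updateRow 0 (Pi.single j 1)).mulVec X) = P j • X := by
      rw [Matrix.mulVec_mulVec, Matrix.adjugate_mul, Matrix.smul_mulVec, Matrix.one_mulVec]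
    rw [hNX] at h1
    have h2 := congrFun h1 i
    have h3 : (A.updateRow 0 (Pi.single j 1)).adjugate.mulVec (Pi.single 0 (X j)) i =
        P i * X j := by
      change ∑ k, (A.updateRow 0 (Pi.single j 1)).adjugate i k *
        (Pi.single 0 (X j) : Fin (m + 1) → _) k = _
      rw [Finset.sum_eq_single 0]
      · rw [Pi.single_eq_same, Matrix.adjugate_apply, Matrix.updateRow_idem]
      · intro k _ hk
        rw [Pi.single_eq_of_ne hk, mul_zero]
      · intro h
        exact absurd (Finset.mem_univ _) h
    rw [h3] at h2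
    exact h2.symm
  have hPhom : ∀ j, (P j).IsHomogeneous m := by
    intro j
    refine P1_hom _ (fun k => ?_) (fun i k => ?_)
    · rw [Matrix.updateRow_self, Pi.single_apply]
      split_ifs
      · exact MvPolynomial.isHomogeneous_one _ _
      · exact MvPolynomial.isHomogeneous_zero _ _ _
    · rw [Matrix.updateRow_ne (Fin.succ_ne_zero i), hAs]
      exact MvPolynomial.IsHomogeneous.sum _ _ _ fun l _ => MvPolynomial.isHomogeneous_C_mul_X _ _
  have h01 : (0 : Fin (m + 1)) ≠ 1 := by
    intro h
    have h' := congrArg Fin.val h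
    change 0 = 1 % (m + 1) at h'
    rw [Nat.mod_eq_of_lt (by omega)] at h'
    omega
  have hdvd : (MvPolynomial.X 0 : MvPolynomial (Fin (m + 1)) F) ∣ P 0 := by
    have h1 : (MvPolynomial.X 0 : MvPolynomial (Fin (m + 1)) F) ∣ P 0 * MvPolynomial.X 1 :=
      ⟨P 1, by
        have := hPX 1 0
        rw [mul_comm (MvPolynomial.X 0)]
        exact this⟩
    rcases MvPolynomial.X_dvd_mul_iff.1 h1 with h | h
    · exact h
    · exact absurd (MvPolynomial.X_dvd_X.1 h) h01
  obtain ⟨h, hh⟩ := hdvd
  have hPh : ∀ j, P j = h * MvPolynomial.X j := by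
    intro j
    have h1 : (MvPolynomial.X 0 : MvPolynomial (Fin (m + 1)) F) ≠ 0 := MvPolynomial.X_ne_zero 0
    apply mul_right_cancel₀ h1
    have h2 : P j * MvPolynomial.X 0 = P 0 * MvPolynomial.X j := hPX 0 j
    rw [h2, hh]
    ring
  have hev : ∀ (v : Fin (m + 1) → F) (j : Fin (m + 1)), v j ≠ 0 → MvPolynomial.eval v (P j) ≠ 0 := by
    intro v j hvj h0
    have h1 : MvPolynomial.eval v (P j) =
        ((MvPolynomial.eval v).mapMatrix (A.updateRow 0 (Pi.single j 1))).det :=
      RingHom.map_det _ _
    rw [h1] at h0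
    obtain ⟨x, hx0, hx⟩ := Matrix.exists_mulVec_eq_zero_iff.2 h0
    have hxj : x j = 0 := by
      have h2 := congrFun hx 0
      change ∑ k, MvPolynomial.eval v ((A.updateRow 0 (Pi.single j 1)) 0 k) * x k = 0 at h2
      rw [Finset.sum_eq_single j] at h2
      · rw [Matrix.updateRow_self, Pi.single_eq_same, map_one, one_mul] at h2
        exact h2
      · intro k _ hk
        rw [Matrix.updateRow_self, Pi.single_eq_of_ne hk, map_zero, zero_mul]
      · intro h
        exact absurd (Finset.mem_univ _) h
    have hfx : f (∑ l, v l • b l) (∑ k, x k • b k) = 0 := by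
      apply c.repr.injective
      rw [map_zero]
      ext i
      have h2 := congrFun hx i.succ
      change ∑ k, MvPolynomial.eval v ((A.updateRow 0 (Pi.single j 1)) i.succ k) * x k = 0 at h2
      rw [Finsupp.zero_apply, ← h2]
      simp only [Matrix.updateRow_ne (Fin.succ_ne_zero i), hAs, map_sum, map_mul,
        MvPolynomial.eval_C, MvPolynomial.eval_X, map_smul, LinearMap.sum_apply,
        LinearMap.smul_apply, Finsupp.coe_finsetSum, Finset.sum_apply, Finsupp.smul_apply,
        smul_eq_mul, Finset.sum_mul, Finset.mul_sum]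
      exact Finset.sum_congr rfl fun k _ => Finset.sum_congr rfl fun l _ => by ring
    have hv0 : (∑ l, v l • b l) ≠ 0 := by
      intro h2
      apply hvj
      have h3 := b.repr_sum_self v
      rw [h2, map_zero] at h3
      rw [← h3]
      rfl
    by_cases hmem : (∑ k, x k • b k) ∈ span F {∑ l, v l • b l}
    · obtain ⟨a, ha⟩ := mem_span_singleton.1 hmem
      have h3 : ∀ k, a * v k = x k := by
        intro k
        have h4 := congrArg (fun w => b.repr w k) ha
        simp only [map_smul, Finsupp.smul_apply, smul_eq_mul] at h4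
        rw [b.repr_sum_self, b.repr_sum_self] at h4
        exact h4
      have h4 : a = 0 := by
        have h5 := h3 j
        rw [hxj] at h5
        exact (mul_eq_zero.1 h5).resolve_right hvj
      apply hx0
      funext k
      rw [← h3 k, h4, zero_mul]
      rfl
    · exact hcon _ _ (ind2_iff.2 ⟨hv0, hmem⟩) hfx
  have hP0 : P 0 ≠ 0 := by
    intro h0
    have h1 := hev (Pi.single 0 1) 0 (by rw [Pi.single_eq_same]; exact one_ne_zero)
    rw [h0, map_zero] at h1
    exact h1 rfl
  have hh0 : h ≠ 0 := by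
    rintro rfl
    rw [mul_zero] at hh
    exact hP0 hh
  have hdeg : h.totalDegree < m + 1 := by
    have h1 := (hPhom 0).totalDegree_le
    rw [hh, MvPolynomial.totalDegree_mul_of_isDomain (MvPolynomial.X_ne_zero 0) hh0] at h1
    omega
  have hc0 : MvPolynomial.eval 0 h = 0 := by
    have h1 : MvPolynomial.coeff (Finsupp.single 0 1) (P 0) = 0 :=
      (hPhom 0).coeff_eq_zero (by rw [Finsupp.degree_single]; omega)
    rw [hh, mul_comm] at h1
    have h2 := MvPolynomial.coeff_mul_X (0 : Fin (m + 1) →₀ ℕ) (0 : Fin (m + 1)) h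
    rw [zero_add] at h2
    rw [h2] at h1
    rw [MvPolynomial.eval_zero, MvPolynomial.constantCoeff_eq]
    exact h1
  have hzero : ∀ v : Fin (m + 1) → F, MvPolynomial.eval v h = 0 ↔ v = 0 := by
    intro v
    constructor
    · intro h1
      by_contra hv
      obtain ⟨j, hj⟩ := Function.ne_iff.1 hv
      apply hev v j hj
      rw [hPh, map_mul, h1, zero_mul]
    · rintro rfl
      exact hc0
  haveI : Fintype F := Fintype.ofFinite F
  obtain ⟨p, hp⟩ := CharP.exists F
  haveI := hp
  haveI : Fact p.Prime := ⟨CharP.char_is_prime F p⟩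
  have hcard := char_dvd_card_solutions p (f := h) (by
    rw [Fintype.card_fin]
    exact hdeg)
  have h1 : Fintype.card {x : Fin (m + 1) → F // MvPolynomial.eval x h = 0} = 1 := by
    rw [Fintype.card_eq_one_iff]
    refine ⟨⟨0, (hzero 0).2 rfl⟩, fun y => Subtype.ext ((hzero _).1 y.2)⟩
  rw [h1] at hcard
  exact (Fact.out : p.Prime).one_lt.not_ge (Nat.le_of_dvd one_pos hcard)

end Pool.Agent.LibGS68
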