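import Pool.Agent.LibGS68.Defs
/-!
Row PA1 (MEDIUM). Pure linear algebra.
* `eigen_scalar`: `L v = c(v) ι v`.  If `ι v, ι w` are independent then `c v = c w` (compare `L (v+w)`).  If `rank ι ≤ 1` direct.
  (`ι v = 0` forces `L v = 0`.)
* `c_linear`: `L := J (e₁+e₂) - J e₁ - J e₂`.  By `hA`: `L e₁, L e₂ ∈ S := ⟨ι e₁, ι e₂⟩`.  For `v ∉ ⟨e₁,e₂⟩` with `c₁, c₂` as in the statement:
  `L v + c₁ ι e₁ + c₂ ι e₂ ∈ ⟨ι v, ι (e₁+e₂)⟩` (apply `hA v (e₁+e₂)`), which exist by `hA v e₁`, `hA v e₂`.  So `S.mkQ (L v) ∈ ⟨S.mkQ (ι v)⟩` for all `v`, and `eigen_scalar` gives `λ`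
  with `(L - λ ι) v ∈ S` for all `v`.  With functionals `φ₁, φ₂` on `V`, `φᵢ (ι eⱼ) = δᵢⱼ`, put `p = φ₁ ∘ (L - λ ι)`, `r = φ₂ ∘ (L - λ ι)`, `α := r - p`:
  for `v ∉ ⟨e₁,e₂⟩`, `(p v + c₁) ι e₁ + (r v + c₂) ι e₂ ∈ ⟨ι v, ι(e₁+e₂)⟩ ⊓ S = ⟨ι (e₁+e₂)⟩`, so `p v + c₁ = r v + c₂`.
-/
open Module Submodule
namespace Pool.Agent.LibGS68
variable {F : Type*} [Field F]

theorem eigen_scalar {W Y : Type*} [AddCommGroup W] [Module F W] [AddCommGroup Y] [Module F Y] (ι L : W →ₗ[F] Y)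
    (h : ∀ v, L v ∈ span F {ι v}) : ∃ c : F, ∀ v, L v = c • ι v := by
  have h' : ∀ v, ∃ c : F, L v = c • ι v := by
    intro v
    obtain ⟨c, hc⟩ := Submodule.mem_span_singleton.1 (h v)
    exact ⟨c, hc.symm⟩
  by_cases h0 : ∀ v, ι v = 0
  · refine ⟨0, fun v => ?_⟩
    obtain ⟨c, hc⟩ := h' v
    rw [hc, h0 v, smul_zero, smul_zero]
  · push Not at h0
    obtain ⟨v0, hv0⟩ := h0
    obtain ⟨c, hc⟩ := h' v0
    refine ⟨c, fun w => ?_⟩
    by_cases hw : ∃ a : F, ι w = a • ι v0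
    · obtain ⟨a, ha⟩ := hw
      obtain ⟨d, hd⟩ := h' (w - a • v0)
      have h1 : ι (w - a • v0) = 0 := by
        rw [map_sub, map_smul, ha, sub_self]
      rw [h1, smul_zero, map_sub, map_smul, hc] at hd
      rw [sub_eq_zero.1 hd, ha, smul_comm]
    · obtain ⟨cw, hcw⟩ := h' w
      obtain ⟨d, hd⟩ := h' (v0 + w)
      rw [map_add, map_add, hc, hcw, smul_add] at hd
      have h2 : (d - c) • ι v0 = (cw - d) • ι w := by
        rw [sub_smul, sub_smul]
        rw [sub_eq_sub_iff_add_eq_add, ← hd]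
        abel
      by_cases h3 : cw = d
      · rw [h3, sub_self, zero_smul] at h2
        rcases smul_eq_zero.1 h2 with h4 | h4
        · rw [hcw, h3, sub_eq_zero.1 h4]
        · exact absurd h4 hv0
      · exfalso
        apply hw
        refine ⟨(cw - d)⁻¹ * (d - c), ?_⟩
        rw [mul_smul, h2, smul_smul, inv_mul_cancel₀ (sub_ne_zero.2 h3), one_smul]

private lemma PA1_functionals {V : Type*} [AddCommGroup V] [Module F V] {y₁ y₂ : V}
    (hy : Ind2 F y₁ y₂) : ∃ φ₁ φ₂ : V →ₗ[F] F, φ₁ y₁ = 1 ∧ φ₁ y₂ = 0 ∧ φ₂ y₁ = 0 ∧ φ₂ y₂ = 1 := by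
  let g : (F × F) →ₗ[F] V :=
    (LinearMap.toSpanSingleton F V y₁).coprod (LinearMap.toSpanSingleton F V y₂)
  have hg : ∀ a b : F, g (a, b) = a • y₁ + b • y₂ := by
    intro a b
    simp [g, LinearMap.coprod_apply, LinearMap.toSpanSingleton_apply]
  have hker : LinearMap.ker g = ⊥ := by
    rw [LinearMap.ker_eq_bot']
    rintro ⟨a, b⟩ hab
    rw [hg] at hab
    obtain ⟨h1, h2⟩ := hy a b hab
    rw [h1, h2]
    rfl
  obtain ⟨h, hh⟩ := LinearMap.exists_leftInverse_of_injective g hker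
  have hh' : ∀ a b : F, h (a • y₁ + b • y₂) = (a, b) := by
    intro a b
    have := LinearMap.congr_fun hh (a, b)
    rw [LinearMap.comp_apply, hg] at this
    exact this
  have e1 : h y₁ = (1, 0) := by
    have := hh' 1 0
    rwa [one_smul, zero_smul, add_zero] at this
  have e2 : h y₂ = (0, 1) := by
    have := hh' 0 1
    rwa [one_smul, zero_smul, zero_add] at this
  refine ⟨(LinearMap.fst F F F).comp h, (LinearMap.snd F F F).comp h, ?_, ?_, ?_, ?_⟩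
  · rw [LinearMap.comp_apply, e1]; rfl
  · rw [LinearMap.comp_apply, e2]; rfl
  · rw [LinearMap.comp_apply, e1]; rfl
  · rw [LinearMap.comp_apply, e2]; rfl

theorem c_linear {W V : Type*} [AddCommGroup W] [Module F W] [AddCommGroup V] [Module F V]
    (ι : W →ₗ[F] V) (hι : Function.Injective ι) (J : W → (W →ₗ[F] V))
    (hA : ∀ x y, J x y + J y x ∈ span F {ι x, ι y}) {e₁ e₂ : W} (he : Ind2 F e₁ e₂) :
    ∃ α : W →ₗ[F] F, ∀ v, v ∉ span F {e₁, e₂} → ∀ c₁ c₂ : F, J v e₁ + J e₁ v - c₁ • ι e₁ ∈ span F {ι v} →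
      J v e₂ + J e₂ v - c₂ • ι e₂ ∈ span F {ι v} → c₁ - c₂ = α v := by
  -- independence of the images
  have hy : Ind2 F (ι e₁) (ι e₂) := by
    intro a b hab
    apply he a b
    apply hι
    rw [map_add, map_smul, map_smul, hab, map_zero]
  obtain ⟨φ₁, φ₂, h11, h12, h21, h22⟩ := PA1_functionals hy
  set L : W →ₗ[F] V := J (e₁ + e₂) - J e₁ - J e₂ with hL
  have hLv : ∀ v, L v = J (e₁ + e₂) v - J e₁ v - J e₂ v := by
    intro v
    rw [hL, LinearMap.sub_apply, LinearMap.sub_apply]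
  -- key membership
  have key : ∀ v : W, ∀ c₁ c₂ : F, J v e₁ + J e₁ v - c₁ • ι e₁ ∈ span F {ι v} →
      J v e₂ + J e₂ v - c₂ • ι e₂ ∈ span F {ι v} →
      ∃ a b : F, L v + c₁ • ι e₁ + c₂ • ι e₂ = a • ι v + b • (ι e₁ + ι e₂) := by
    intro v c₁ c₂ h1 h2
    obtain ⟨a1, ha1⟩ := Submodule.mem_span_singleton.1 h1
    obtain ⟨a2, ha2⟩ := Submodule.mem_span_singleton.1 h2
    obtain ⟨a, b, hab⟩ := Submodule.mem_span_pair.1 (hA v (e₁ + e₂))
    refine ⟨a - a1 - a2, b, ?_⟩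
    rw [sub_smul, sub_smul, ha1, ha2, hLv]
    rw [map_add, map_add] at hab
    have e3 : a • ι v = J v e₁ + J v e₂ + J (e₁ + e₂) v - b • (ι e₁ + ι e₂) := by
      rw [← hab]
      abel
    rw [e3]
    abel
  have hex : ∀ v e : W, ∃ c : F, J v e + J e v - c • ι e ∈ span F {ι v} := by
    intro v e
    obtain ⟨a, b, hab⟩ := Submodule.mem_span_pair.1 (hA v e)
    refine ⟨b, ?_⟩
    rw [← hab, add_sub_cancel_right]
    exact Submodule.smul_mem _ _ (Submodule.mem_span_singleton_self _)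
  -- the submodule S
  set S : Submodule F V := span F {ι e₁, ι e₂} with hS
  have hS1 : ι e₁ ∈ S := Submodule.subset_span (by simp)
  have hS2 : ι e₂ ∈ S := Submodule.subset_span (by simp)
  obtain ⟨lam, hlam⟩ := eigen_scalar (S.mkQ.comp ι) (S.mkQ.comp L) (by
    intro v
    obtain ⟨c₁, hc₁⟩ := hex v e₁
    obtain ⟨c₂, hc₂⟩ := hex v e₂
    obtain ⟨a, b, hab⟩ := key v c₁ c₂ hc₁ hc₂
    rw [Submodule.mem_span_singleton]
    refine ⟨a, ?_⟩
    rw [LinearMap.comp_apply, LinearMap.comp_apply, ← map_smul]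
    rw [← sub_eq_zero, ← map_sub, Submodule.mkQ_apply, Submodule.Quotient.mk_eq_zero]
    have e4 : a • ι v - L v = c₁ • ι e₁ + c₂ • ι e₂ - b • (ι e₁ + ι e₂) := by
      have e5 : a • ι v = L v + c₁ • ι e₁ + c₂ • ι e₂ - b • (ι e₁ + ι e₂) := by
        rw [hab]
        abel
      rw [e5]
      abel
    rw [e4]
    exact S.sub_mem (S.add_mem (S.smul_mem _ hS1) (S.smul_mem _ hS2))
      (S.smul_mem _ (S.add_mem hS1 hS2)))
  have hmemS : ∀ v, L v - lam • ι v ∈ S := by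
    intro v
    have := hlam v
    rw [LinearMap.comp_apply, LinearMap.comp_apply, ← map_smul, ← sub_eq_zero, ← map_sub,
      Submodule.mkQ_apply, Submodule.Quotient.mk_eq_zero] at this
    exact this
  have hdec : ∀ v, L v - lam • ι v =
      φ₁ (L v - lam • ι v) • ι e₁ + φ₂ (L v - lam • ι v) • ι e₂ := by
    intro v
    obtain ⟨a, b, hab⟩ := Submodule.mem_span_pair.1 (hmemS v)
    rw [← hab]
    simp only [map_add, map_smul, h11, h12, h21, h22, smul_eq_mul, mul_one, mul_zero, add_zero,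
      zero_add]
  refine ⟨φ₂.comp (L - lam • ι) - φ₁.comp (L - lam • ι), ?_⟩
  intro v hv c₁ c₂ hc₁ hc₂
  obtain ⟨a, b, hab⟩ := key v c₁ c₂ hc₁ hc₂
  have hd := hdec v
  set p : F := φ₁ (L v - lam • ι v) with hp
  set r : F := φ₂ (L v - lam • ι v) with hr
  have hα : (φ₂.comp (L - lam • ι) - φ₁.comp (L - lam • ι)) v = r - p := by
    rw [LinearMap.sub_apply, LinearMap.comp_apply, LinearMap.comp_apply, LinearMap.sub_apply,
      LinearMap.smul_apply]
  rw [hα]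
  -- (p + c₁ - b) ι e₁ + (r + c₂ - b) ι e₂ = (a - lam) ι v
  have e6 : (p + c₁ - b) • ι e₁ + (r + c₂ - b) • ι e₂ = (a - lam) • ι v := by
    have e7 : L v = p • ι e₁ + r • ι e₂ + lam • ι v := by
      rw [← hd]
      abel
    rw [e7] at hab
    have e8 : a • ι v = p • ι e₁ + r • ι e₂ + lam • ι v + c₁ • ι e₁ + c₂ • ι e₂
        - b • (ι e₁ + ι e₂) := by
      rw [hab]
      abel
    rw [sub_smul a lam, e8, sub_smul, sub_smul, add_smul, add_smul, smul_add]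
    abel
  have ha : a - lam = 0 := by
    by_contra hne
    apply hv
    rw [Submodule.mem_span_pair]
    refine ⟨(a - lam)⁻¹ * (p + c₁ - b), (a - lam)⁻¹ * (r + c₂ - b), ?_⟩
    apply hι
    rw [map_add, map_smul, map_smul, mul_smul, mul_smul, ← smul_add, e6, smul_smul,
      inv_mul_cancel₀ hne, one_smul]
  rw [ha, zero_smul] at e6
  obtain ⟨h5, h6⟩ := hy _ _ e6
  have h7 : p + c₁ = b := sub_eq_zero.1 h5
  have h8 : r + c₂ = b := sub_eq_zero.1 h6
  have h9 : p + c₁ = r + c₂ := by rw [h7, h8]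
  linear_combination h9

end Pool.Agent.LibGS68
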