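import Pool.Agent.LibGS68.A3
/-!
Row S1 (MEDIUM).
* `finrank_comap_le`: general: for `S ≤ B`, `finrank (comap g B) ≤ finrank (comap g S) + (finrank B - finrank S)` (the map `comap g B → B / S`).
* `s1`: `S = span {x, y} ≤ B`, `g = a - b`.  `comap g S ≤ B`.
-/
open Module Submodule
namespace Pool.Agent.LibGS68
variable {F V : Type*} [Field F] [AddCommGroup V] [Module F V]

theorem finrank_comap_le [FiniteDimensional F V] (g : V →ₗ[F] V) {S B : Submodule F V} (hSB : S ≤ B) :
    finrank F (B.comap g) ≤ finrank F (S.comap g) + (finrank F B - finrank F S) := by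
  have h1 := LinearMap.finrank_range_add_finrank_ker ((S.mkQ ∘ₗ g).domRestrict (B.comap g))
  have h2 := LinearMap.finrank_range_add_finrank_ker (S.mkQ.domRestrict B)
  have h3 : finrank F (LinearMap.range ((S.mkQ ∘ₗ g).domRestrict (B.comap g))) ≤
      finrank F (LinearMap.range (S.mkQ.domRestrict B)) := by
    apply Submodule.finrank_mono
    rintro _ ⟨⟨v, hv⟩, rfl⟩
    exact ⟨⟨g v, hv⟩, rfl⟩
  have h4 : finrank F (LinearMap.ker (S.mkQ.domRestrict B)) = finrank F S := by
    have : LinearMap.ker (S.mkQ.domRestrict B) = S.comap B.subtype := by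
      ext v
      simp [LinearMap.mem_ker]
    rw [this]
    exact (Submodule.comapSubtypeEquivOfLe hSB).finrank_eq
  have h5 : finrank F (LinearMap.ker ((S.mkQ ∘ₗ g).domRestrict (B.comap g))) ≤ finrank F (S.comap g) := by
    have h6 : ∀ v : LinearMap.ker ((S.mkQ ∘ₗ g).domRestrict (B.comap g)), ((v : B.comap g) : V) ∈ S.comap g := by
      rintro ⟨v, hv⟩
      have : S.mkQ (g (v : V)) = 0 := hv
      rw [Submodule.mkQ_apply, Submodule.Quotient.mk_eq_zero] at this
      exact this
    let ψ : LinearMap.ker ((S.mkQ ∘ₗ g).domRestrict (B.comap g)) →ₗ[F] S.comap g :=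
      { toFun := fun v => ⟨((v : B.comap g) : V), h6 v⟩
        map_add' := fun _ _ => rfl
        map_smul' := fun _ _ => rfl }
    refine LinearMap.finrank_le_finrank_of_injective (f := ψ) ?_
    intro v w hvw
    have := congrArg Subtype.val hvw
    exact Subtype.ext (Subtype.ext this)
  omega

theorem s1 [FiniteDimensional F V] {k : ℕ} {D : Set (Submodule F V)} (hD : IsSteiner 2 k D)
    (hn : k < finrank F V) (hk : 2 ≤ k) {x y : V} (h : Ind2 F x y) {B : Submodule F V} (hB : B ∈ D) (hx : x ∈ B) (hy : y ∈ B)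
    {a b : V →ₗ[F] V} (ha : a ∈ Ker D x) (hb : b ∈ Ker D y) (has : ¬ ScalarAt x a) :
    finrank F (B.comap (a - b)) ≤ 2 * (k - 1) := by
  have hS : span F {x, y} ≤ B := span_le.2 (by rintro v (rfl | rfl) <;> assumption)
  have h1 := finrank_comap_le (a - b) hS
  have h2 : (span F {x, y}).comap (a - b) ≤ B := by
    intro z hz
    by_contra hzB
    obtain ⟨c, d, hcd⟩ := mem_span_pair.1 hz
    have hx0 : x ≠ 0 := (ind2_iff.1 h).1
    have hy0 : y ≠ 0 := (ind2_iff.1 h.symm).1
    have hxz : Ind2 F x z := ind2_iff.2 ⟨hx0, fun hh => hzB ((span_singleton_le_iff_mem _ _).2 hx hh)⟩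
    have hyz : Ind2 F y z := ind2_iff.2 ⟨hy0, fun hh => hzB ((span_singleton_le_iff_mem _ _).2 hy hh)⟩
    obtain ⟨C₁, hC₁, hxC₁, hzC₁⟩ := exists_block hD hxz
    obtain ⟨C₂, hC₂, hyC₂, hzC₂⟩ := exists_block hD hyz
    have hne : C₁ ≠ C₂ := by
      rintro rfl
      exact hzB (block_eq hD h hC₁ hB hxC₁ hyC₂ hx hy ▸ hzC₁)
    have hu1 : a z - c • x ∈ C₁ := sub_mem (ha.2 C₁ hC₁ hxC₁ z hzC₁) (C₁.smul_mem _ hxC₁)
    have e : a z - c • x = b z + d • y := by
      have : c • x + d • y = a z - b z := hcd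
      rw [sub_eq_iff_eq_add]
      have h3 : a z = (c • x + d • y) + b z := by rw [this]; abel
      rw [h3]; abel
    have hu2 : a z - c • x ∈ C₂ := by
      rw [e]; exact add_mem (hb.2 C₂ hC₂ hyC₂ z hzC₂) (C₂.smul_mem _ hyC₂)
    have hu := inter_block hD (ind2_iff.1 hxz.symm).1 hC₁ hC₂ hne hzC₁ hzC₂ hu1 hu2
    apply has
    refine scalar_of hD hn hxz ha ?_
    have h4 : a z - c • x ∈ span F {x, z} := span_mono (by simp) hu
    have h5 : c • x ∈ span F {x, z} := Submodule.smul_mem _ _ (subset_span (by simp))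
    have h6 := add_mem h4 h5
    rwa [sub_add_cancel] at h6
  have h3 := Submodule.finrank_mono h2
  rw [hD.1 B hB] at h3 h1
  rw [finrank_span2 h] at h1
  omega

end Pool.Agent.LibGS68
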