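import Pool.Agent.LibGS68.A3
/-!
Row S2 (MEDIUM). `dir_of_good`.  Let `B₁ ∋ y, w`, `B₂ ∋ x, w`, `B₃ ∋ x, y` (so `B₃ = B`), `b₁ + b₂ + b₃ ∈ span {x, y, w}`.
`Alpha D x` on `B₂`: `a ∈ Ker D x`, `a w - b₂ ∈ ⟨x⟩`; `Alpha D y` on `B₁`: `b ∈ Ker D y`, `b w + b₁ ∈ ⟨y⟩`.
Then `(a - b) w ∈ b₁ + b₂ + B ⊆ ⟨w⟩ + B`: `(a - b) w = c w + β`, `β ∈ B`.  Apply `hgood` to `a - c • id` and `b`: `a w ∈ B ⊔ ⟨w⟩`, so `b₂ ∈ B ⊔ ⟨w⟩`: `b₂ = β₂ + μ w`, `β₂ = b₂ - μ w ∈ B₂ ⊓ B`,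
`B₂ ≠ B` (`w ∉ B`), so `β₂ ∈ ⟨x⟩` (`inter_block`): `b₂ ∈ ⟨x,w⟩`.  Then `b w = a w - c w - β ∈ B ⊔ ⟨w⟩`, so `b₁ ∈ B ⊔ ⟨w⟩`, in the same way `b₁ ∈ ⟨y,w⟩`.  Finally `b₃ ∈ span {x,y,w} ⊓ B = ⟨x,y⟩`.
-/
open Module Submodule
namespace Pool.Agent.LibGS68
variable {F V : Type*} [Field F] [AddCommGroup V] [Module F V]

private theorem in_block {k : ℕ} {D : Set (Submodule F V)} (hD : IsSteiner 2 k D) {x w b : V} (hx0 : x ≠ 0)
    {B B' : Submodule F V} (hB : B ∈ D) (hB' : B' ∈ D) (hx : x ∈ B) (hw : w ∉ B) (hx' : x ∈ B') (hw' : w ∈ B')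
    (hb : b ∈ B') (hbw : b ∈ B ⊔ span F {w}) : b ∈ span F {x, w} := by
  obtain ⟨β, hβ, s, hs, hsb⟩ := Submodule.mem_sup.1 hbw
  obtain ⟨μ, rfl⟩ := mem_span_singleton.1 hs
  have hne : B' ≠ B := fun h ↦ hw (h ▸ hw')
  have h1 : β ∈ B' := by
    have e : β = b - μ • w := by rw [← hsb]; abel
    rw [e]; exact sub_mem hb (Submodule.smul_mem _ _ hw')
  have h2 := inter_block hD hx0 hB' hB hne hx' hx h1 hβ
  rw [← hsb]
  exact add_mem (span_mono (by simp) h2) (Submodule.smul_mem _ _ (subset_span (by simp)))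

theorem dir_of_good [FiniteDimensional F V] {k : ℕ} {D : Set (Submodule F V)} (hD : IsSteiner 2 k D)
    (hn : k < finrank F V) {x y w : V} (h : Ind2 F x y) (hαx : Alpha D x) (hαy : Alpha D y)
    {B : Submodule F V} (hB : B ∈ D) (hx : x ∈ B) (hy : y ∈ B) (hw : w ∉ B)
    (hgood : ∀ a ∈ Ker D x, ∀ b ∈ Ker D y, (a - b) w ∈ B → a w ∈ B ⊔ span F {w}) : Dir D x y w := by
  intro B₁ hB₁ B₂ hB₂ B₃ hB₃ hy₁ hw₁ hx₂ hw₂ hx₃ hy₃ b₁ hb₁ b₂ hb₂ b₃ hb₃ hsum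
  obtain rfl : B = B₃ := block_eq hD h hB hB₃ hx hy hx₃ hy₃
  obtain ⟨hx0, -⟩ := ind2_iff.1 h
  obtain ⟨hy0, -⟩ := ind2_iff.1 h.symm
  have hwx : w ∉ span F {x} := fun hc ↦ hw ((span_singleton_le_iff_mem x B).2 hx hc)
  have hwy : w ∉ span F {y} := fun hc ↦ hw ((span_singleton_le_iff_mem y B).2 hy hc)
  obtain ⟨a, ha, haw⟩ := hαx B₂ hB₂ hx₂ w hw₂ hwx b₂ hb₂
  obtain ⟨b, hb, hbw⟩ := hαy B₁ hB₁ hy₁ w hw₁ hwy (-b₁) (neg_mem hb₁)
  obtain ⟨p, q, c, hpq⟩ := mem_span_triple.1 hsum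
  have hxB : ∀ t ∈ span F {x}, t ∈ B := (span_singleton_le_iff_mem x B).2 hx
  have hyB : ∀ t ∈ span F {y}, t ∈ B := (span_singleton_le_iff_mem y B).2 hy
  have hβ : (a - b) w - c • w ∈ B := by
    have e : (a - b) w - c • w = (a w - b₂) - (b w - -b₁) + (p • x + q • y) - b₃ := by
      have h1 : b₁ + b₂ = p • x + q • y + c • w - b₃ := by rw [hpq]; abel
      rw [LinearMap.sub_apply]
      have h2 : a w - b₂ - (b w - -b₁) + (p • x + q • y) - b₃ = a w - b w - (b₁ + b₂) + (p • x + q • y) - b₃ := by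
        abel
      rw [h2, h1]; abel
    rw [e]
    exact sub_mem (add_mem (sub_mem (hxB _ haw) (hyB _ hbw))
      (add_mem (Submodule.smul_mem _ _ hx) (Submodule.smul_mem _ _ hy))) hb₃
  have ha' : a - c • (LinearMap.id : V →ₗ[F] V) ∈ Ker D x :=
    Submodule.sub_mem _ ha (Submodule.smul_mem _ _ id_mem_ker)
  have hg := hgood _ ha' b hb (by
    have e : (a - c • (LinearMap.id : V →ₗ[F] V) - b) w = (a - b) w - c • w := by
      simp only [LinearMap.sub_apply, LinearMap.smul_apply, LinearMap.id_apply]; abel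
    rw [e]; exact hβ)
  have hwS : w ∈ B ⊔ span F {w} := Submodule.mem_sup_right (mem_span_singleton_self w)
  have haS : a w ∈ B ⊔ span F {w} := by
    have e : a w = (a - c • (LinearMap.id : V →ₗ[F] V)) w + c • w := by
      simp only [LinearMap.sub_apply, LinearMap.smul_apply, LinearMap.id_apply]; abel
    rw [e]; exact add_mem hg (Submodule.smul_mem _ _ hwS)
  have hb₂S : b₂ ∈ B ⊔ span F {w} := by
    have e : b₂ = a w - (a w - b₂) := by abel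
    rw [e]; exact sub_mem haS (Submodule.mem_sup_left (hxB _ haw))
  have hbS : b w ∈ B ⊔ span F {w} := by
    have e : b w = a w - ((a - b) w - c • w) - c • w := by
      rw [LinearMap.sub_apply]; abel
    rw [e]
    exact sub_mem (sub_mem haS (Submodule.mem_sup_left hβ)) (Submodule.smul_mem _ _ hwS)
  have hb₁S : b₁ ∈ B ⊔ span F {w} := by
    have e : b₁ = (b w - -b₁) - b w := by abel
    rw [e]; exact sub_mem (Submodule.mem_sup_left (hyB _ hbw)) hbS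
  have r₂ := in_block hD hx0 hB hB₂ hx hw hx₂ hw₂ hb₂ hb₂S
  have r₁ := in_block hD hy0 hB hB₁ hy hw hy₁ hw₁ hb₁ hb₁S
  refine ⟨r₁, r₂, ?_⟩
  have h3 : b₃ ∈ span F {x, y, w} := by
    have e : b₃ = (b₁ + b₂ + b₃) - b₁ - b₂ := by abel
    rw [e]
    refine sub_mem (sub_mem hsum (span_mono ?_ r₁)) (span_mono ?_ r₂)
    · intro t ht
      rcases ht with rfl | ht
      · simp
      · rw [Set.mem_singleton_iff] at ht; subst ht; simp
    · intro t ht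
      rcases ht with rfl | ht
      · simp
      · rw [Set.mem_singleton_iff] at ht; subst ht; simp
  obtain ⟨p', q', c', hp'⟩ := mem_span_triple.1 h3
  have hc' : c' = 0 := by
    by_contra hne
    apply hw
    have e : c' • w = b₃ - (p' • x + q' • y) := by rw [← hp']; abel
    have h4 : c' • w ∈ B := by
      rw [e]
      exact sub_mem hb₃ (add_mem (Submodule.smul_mem _ _ hx) (Submodule.smul_mem _ _ hy))
    exact (Submodule.smul_mem_iff _ hne).1 h4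
  rw [hc', zero_smul, add_zero] at hp'
  rw [← hp']
  exact mem_span_pair.2 ⟨p', q', rfl⟩

end Pool.Agent.LibGS68
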