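import Pool.Agent.LibGS68.Defs
/-!
Row T1 (MEDIUM). The derived design at a `(t-2)`-space `T` is an `S_q(2, k-t+2, n-t+2)`.
-/
open Module Submodule
namespace Pool.Agent.LibGS68
variable {F V : Type*} [Field F] [AddCommGroup V] [Module F V]

/-- the derived design at `T` -/
def derivedAt (T : Submodule F V) (D : Set (Submodule F V)) : Set (Submodule F (V ⧸ T)) :=
  {B' | ∃ B ∈ D, T ≤ B ∧ B' = B.map T.mkQ}

theorem T1_finrank [FiniteDimensional F V] {T B : Submodule F V} (h : T ≤ B) :
    finrank F (B.map T.mkQ) + finrank F T = finrank F B := by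
  have h2 := LinearMap.finrank_range_add_finrank_ker (T.mkQ.domRestrict B)
  have h3 : LinearMap.range (T.mkQ.domRestrict B) = B.map T.mkQ := by
    ext v
    constructor
    · rintro ⟨w, rfl⟩
      exact ⟨w, w.2, rfl⟩
    · rintro ⟨w, hw, rfl⟩
      exact ⟨⟨w, hw⟩, rfl⟩
  have h4 : finrank F (LinearMap.ker (T.mkQ.domRestrict B)) = finrank F T := by
    have : LinearMap.ker (T.mkQ.domRestrict B) = T.comap B.subtype := by
      ext v
      simp [LinearMap.mem_ker]
    rw [this]
    exact (Submodule.comapSubtypeEquivOfLe h).finrank_eq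
  rw [h3, h4] at h2
  exact h2

theorem T1_comap_map {T B : Submodule F V} (h : T ≤ B) : (B.map T.mkQ).comap T.mkQ = B := by
  ext v
  constructor
  · rintro ⟨w, hw, hwv⟩
    have : w - v ∈ T := (Submodule.Quotient.eq T).1 hwv
    have := sub_mem hw (h this)
    simpa using this
  · intro hv
    exact ⟨v, hv, rfl⟩

theorem T1_map_comap {T : Submodule F V} (S : Submodule F (V ⧸ T)) : (S.comap T.mkQ).map T.mkQ = S :=
  Submodule.map_comap_eq_of_surjective (Submodule.mkQ_surjective T) S

theorem T1_le_comap {T : Submodule F V} (S : Submodule F (V ⧸ T)) : T ≤ S.comap T.mkQ := by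
  intro v hv
  have : T.mkQ v = 0 := by rw [Submodule.mkQ_apply, Submodule.Quotient.mk_eq_zero]; exact hv
  rw [mem_comap, this]
  exact S.zero_mem

theorem derived_steiner [FiniteDimensional F V] {t k : ℕ} {D : Set (Submodule F V)} (hD : IsSteiner t k D)
    (ht : 2 ≤ t) (htk : t < k) {T : Submodule F V} (hT : finrank F T + 2 = t) :
    IsSteiner 2 (k - (t - 2)) (derivedAt T D) := by
  refine ⟨?_, ?_⟩
  · rintro _ ⟨B, hB, hTB, rfl⟩
    have h1 := T1_finrank hTB
    rw [hD.1 B hB] at h1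
    omega
  · intro S hS
    have h1 := T1_finrank (T1_le_comap S)
    rw [T1_map_comap, hS] at h1
    obtain ⟨B, ⟨hB, hSB⟩, huniq⟩ := hD.2 (S.comap T.mkQ) (by omega)
    refine ⟨B.map T.mkQ, ⟨⟨B, hB, (T1_le_comap S).trans hSB, rfl⟩, ?_⟩, ?_⟩
    · have := Submodule.map_mono (f := T.mkQ) hSB
      rwa [T1_map_comap] at this
    · rintro _ ⟨⟨B₂, hB₂, hTB₂, rfl⟩, hle⟩
      have h2 : S.comap T.mkQ ≤ B₂ := by
        have := Submodule.comap_mono (f := T.mkQ) hle
        rwa [T1_comap_map hTB₂] at this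
      have := huniq B₂ ⟨hB₂, h2⟩
      rw [this]

end Pool.Agent.LibGS68
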